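import Mathlib

/-!
# PROJECT H242-ES (MP_43c1cf_co): edge-scribable simplicial polytopes of dimension `D ≥ 4` are Möbius unique

Lorentz form of an edge-scribed polytope: vertices are unit spacelike vectors `V i` of `ℝ^{D,1}`, and
`B (V i) (V j) = -1` for every edge.
-/

set_option autoImplicit false
set_option maxHeartbeats 4000000

open MeasureTheory Finset
open scoped Classical

namespace Pool.Agent.H242R3.ES

/-- Lorentz space; the time coordinate is `none` -/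
abbrev LV (D : ℕ) := Option (Fin D) → ℝ

/-- the Lorentz form -/
noncomputable def B {D : ℕ} (x y : LV D) : ℝ := (∑ i : Fin D, x (some i) * y (some i)) - x none * y none

/-- `S` is a face of the cone spanned by the `V i` (the faces `∅` and `univ` are allowed) -/
def Face {ι E : Type} [AddCommGroup E] [Module ℝ E] (V : ι → E) (S : Set ι) : Prop :=
  ∃ l : E →ₗ[ℝ] ℝ, (∀ i, 0 ≤ l (V i)) ∧ ∀ i, i ∈ S ↔ l (V i) = 0

/-- simplicial edge-scribed polytope of dimension `D` in Lorentz form -/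
structure SP (D : ℕ) {ι : Type} [Fintype ι] (V : ι → LV D) : Prop where
  norm : ∀ i, B (V i) (V i) = 1
  pos : ∀ i, 0 < V i none
  vert : ∀ i, Face V {i}
  edge : ∀ i j, i ≠ j → Face V {i, j} → B (V i) (V j) = -1
  span : Submodule.span ℝ (Set.range V) = ⊤
  simp : ∀ S, Face V S → S ≠ Set.univ → LinearIndependent ℝ (fun i : S => V i)

/-! ### Analysis: Gaussian solid angles -/

/-- Gram entries of the vectors from the apex to the vertices of regular unit simplices, in terms of the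
squared distances `F` from the apex -/
noncomputable def gm {ι : Type} (F : ι → ℝ) (i k : ι) : ℝ := (F i + F k - if i = k then 0 else 1) / 2

/-- Gram matrix of the simplex `s` -/
noncomputable def GM {ι : Type} (s : Finset ι) (F : ι → ℝ) : Matrix s s ℝ := fun i k => gm F i k

/-- Gaussian exponential on the orthant `ℝ_{≥0}^s` -/
noncomputable def ex {ι : Type} (s : Finset ι) (F : ι → ℝ) (x : s → ℝ) : ℝ :=
  Real.exp (-Real.pi * ∑ i : s, ∑ k : s, x i * gm F i k * x k)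

/-- the orthant -/
def orth {ι : Type} (s : Finset ι) : Set (s → ℝ) := {x | ∀ i, 0 ≤ x i}

/-- Gaussian solid angle at the apex -/
noncomputable def om {ι : Type} (s : Finset ι) (F : ι → ℝ) : ℝ :=
  Real.sqrt (GM s F).det * ∫ x in orth s, ex s F x

/-- coefficient of the ridge opposite to `j` -/
noncomputable def kap {ι : Type} (s : Finset ι) (F : ι → ℝ) (j : s) : ℝ :=
  Real.sqrt (GM s F).det * ((GM s F)⁻¹.mulVec (fun _ => 1)) j

/-- ridge integral -/
noncomputable def II {ι : Type} (r : Finset ι) (F g : ι → ℝ) : ℝ :=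
  ∫ x in orth r, (∑ i : r, g i * x i) * ex r F x

/-- L1: derivative of the solid angle -/
def TaskL1 : Prop := ∀ (ι : Type) (s : Finset ι) (F g : ι → ℝ), (GM s F).PosDef →
  HasDerivAt (fun t : ℝ => om s (fun i => F i + t * g i))
    (-(1 / 2) * ∑ j : s, kap s F j * II (s.erase j) F g) 0

/-- L2: the sign of the ridge coefficients -/
def TaskL2 : Prop := ∀ (ι : Type) (r : Finset ι) (j j' : ι) (F : ι → ℝ), r.Nonempty → j ∉ r → j' ∉ r →
  j ≠ j' → (GM (insert j r) F).PosDef → (GM (insert j' r) F).PosDef →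
  F j + F j' < 2 / (r.card : ℝ) * (1 + ∑ i ∈ r, F i) →
  0 < kap (insert j r) F ⟨j, mem_insert_self j r⟩ + kap (insert j' r) F ⟨j', mem_insert_self j' r⟩

/-- a closed pseudomanifold of dimension `m - 1` -/
structure PM {ι : Type} (m : ℕ) (S : Finset (Finset ι)) : Prop where
  card : ∀ s ∈ S, s.card = m
  two : ∀ s ∈ S, ∀ j ∈ s, ∃! s', s' ∈ S ∧ s' ≠ s ∧ s.erase j ⊆ s'

/-- admissible squared distances -/
structure Adm {ι : Type} (m : ℕ) (S : Finset (Finset ι)) (F : ι → ℝ) : Prop where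
  pd : ∀ s ∈ S, (GM s F).PosDef
  conv : ∀ (r : Finset ι) (j j' : ι), j ∉ r → j' ∉ r → j ≠ j' → insert j r ∈ S → insert j' r ∈ S →
    F j + F j' < 2 / (r.card : ℝ) * (1 + ∑ i ∈ r, F i)

/-- L3: the comparison lemma (from L1 and L2) -/
def Compare : Prop := ∀ (ι : Type) [Fintype ι] (m : ℕ), 2 ≤ m → ∀ (S : Finset (Finset ι)), PM m S →
  ∀ F F' : ι → ℝ, Adm m S F → Adm m S F' → (∀ s ∈ S, ∀ k ∈ s, F k ≤ F' k) →
    ∑ s ∈ S, om s F = ∑ s ∈ S, om s F' → ∀ s ∈ S, ∀ k ∈ s, F k = F' k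

def TaskL3 : Prop := TaskL1 → TaskL2 → Compare

/-! ### Tiling of space by the cones over the facets -/

/-- Gram matrix of vectors -/
noncomputable def GU {κ : Type} {m : ℕ} (s : Finset κ) (u : κ → EuclideanSpace ℝ (Fin m)) : Matrix s s ℝ :=
  fun i k => inner ℝ (u i) (u k)

/-- TL: the Gaussian solid angles of the facets of a simplicial polytope, seen from an interior point `0`,
add up to one. -/
def TaskTL : Prop := ∀ (κ : Type) [Fintype κ] (m : ℕ), 1 ≤ m → ∀ (u : κ → EuclideanSpace ℝ (Fin m))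
  (S : Finset (Finset κ)),
  (∀ n : EuclideanSpace ℝ (Fin m), n ≠ 0 → ∃ k, 0 < inner ℝ n (u k)) →
  (∀ s ∈ S, s.card = m ∧ LinearIndependent ℝ (fun i : s => u i) ∧
    ∃ n : EuclideanSpace ℝ (Fin m), (∀ k, inner ℝ n (u k) ≤ 1) ∧ ∀ k, k ∈ s ↔ inner ℝ n (u k) = 1) →
  (∀ n : EuclideanSpace ℝ (Fin m), (∀ k, inner ℝ n (u k) ≤ 1) → (∃ k, inner ℝ n (u k) = 1) →
    ∃ s ∈ S, ∀ k, inner ℝ n (u k) = 1 → k ∈ s) →
  ∑ s ∈ S, Real.sqrt (GU s u).det *
    ∫ x in {x : s → ℝ | ∀ i, 0 ≤ x i}, Real.exp (-Real.pi * ∑ i : s, ∑ k : s, x i * inner ℝ (u i) (u k) * x k) = 1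

/-! ### Combinatorics of simplicial cones -/

/-- a simplicial pointed cone configuration -/
structure SC {ι E : Type} [Fintype ι] [AddCommGroup E] [Module ℝ E] (V : ι → E) : Prop where
  vert : ∀ i, Face V {i}
  span : Submodule.span ℝ (Set.range V) = ⊤
  simp : ∀ S, Face V S → S ≠ Set.univ → LinearIndependent ℝ (fun i : S => V i)

/-- C1: subsets of proper faces are faces -/
def TaskC1 : Prop := ∀ (ι E : Type) [Fintype ι] [AddCommGroup E] [Module ℝ E] [FiniteDimensional ℝ E]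
  (V : ι → E), SC V → ∀ S T : Set ι, Face V S → S ≠ Set.univ → T ⊆ S → Face V T

/-- C2: the cone is generated, modulo a face, by the neighbours -/
def TaskC2 : Prop := ∀ (ι E : Type) [Fintype ι] [AddCommGroup E] [Module ℝ E] [FiniteDimensional ℝ E]
  (V : ι → E), SC V → ∀ R : Set ι, Face V R → R ≠ Set.univ →
  Module.finrank ℝ (Submodule.span ℝ (V '' R)) + 2 ≤ Module.finrank ℝ E →
  ∀ i, ∃ (y : E) (a : ι → ℝ), y ∈ Submodule.span ℝ (V '' R) ∧ (∀ k, 0 ≤ a k) ∧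
    (∀ k, a k ≠ 0 → k ∉ R ∧ Face V (insert k R)) ∧ V i = y + ∑ k, a k • V k

/-- C3: every proper face is contained in a facet, i.e. a proper face with `finrank E - 1` elements -/
def TaskC3 : Prop := ∀ (ι E : Type) [Fintype ι] [AddCommGroup E] [Module ℝ E] [FiniteDimensional ℝ E]
  (V : ι → E), SC V → ∀ R : Set ι, Face V R → R ≠ Set.univ →
  ∃ S : Finset ι, R ⊆ S ∧ Face V (S : Set ι) ∧ (S : Set ι) ≠ Set.univ ∧ S.card + 1 = Module.finrank ℝ E

/-- C4: every ridge is contained in exactly two facets -/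
def TaskC4 : Prop := ∀ (ι E : Type) [Fintype ι] [AddCommGroup E] [Module ℝ E] [FiniteDimensional ℝ E]
  (V : ι → E), SC V → ∀ S : Finset ι, Face V (S : Set ι) → (S : Set ι) ≠ Set.univ →
  S.card + 1 = Module.finrank ℝ E → ∀ j ∈ S, 2 ≤ S.card →
  ∃! S' : Finset ι, (Face V (S' : Set ι) ∧ (S' : Set ι) ≠ Set.univ ∧ S'.card = S.card) ∧ S' ≠ S ∧
    S.erase j ⊆ S'

/-! ### Lorentz geometry -/

/-- neighbours -/
def Nb {D : ℕ} {ι : Type} (V : ι → LV D) (v : ι) : Set ι := {k | k ≠ v ∧ Face V {v, k}}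

/-- P1: distinct neighbours of a vertex -/
def TaskP1 : Prop := ∀ (D : ℕ), 3 ≤ D → ∀ (ι : Type) [Fintype ι] (V : ι → LV D), SP D V →
  ∀ v k l, k ∈ Nb V v → l ∈ Nb V v → k ≠ l → B (V k) (V l) < 1

/-- the function `c` with base `o` -/
noncomputable def cc {D : ℕ} {ι : Type} (V : ι → LV D) (o k : ι) : ℝ := 1 - B (V k) (V o)

/-- the facets of the link of the edge `{v, j}` -/
noncomputable def LK {D : ℕ} {ι : Type} [Fintype ι] (V : ι → LV D) (v j : ι) : Finset (Finset ι) :=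
  Finset.univ.filter fun s => v ∉ s ∧ j ∉ s ∧ s.card + 2 = D ∧
    Face V (insert v (insert j (s : Set ι))) ∧ insert v (insert j (s : Set ι)) ≠ Set.univ

/-- P2: convexity at the ridges -/
def TaskP2 : Prop := TaskC1 → ∀ (D : ℕ), 4 ≤ D → ∀ (ι : Type) [Fintype ι] (V : ι → LV D), SP D V →
  ∀ v j o, j ∈ Nb V v → o ∈ Nb V v → o ≠ j → ¬ Face V {v, j, o} →
  ∀ (r : Finset ι) (l l' : ι), l ∉ r → l' ∉ r → l ≠ l' → insert l r ∈ LK V v j → insert l' r ∈ LK V v j →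
    cc V o l + cc V o l' < 2 / (r.card : ℝ) * (cc V o j + ∑ i ∈ r, cc V o i)

/-- P3: the link of an edge as a Euclidean polytope seen from the projection of `V o` -/
def TaskP3 : Prop := TaskC1 → TaskC2 → TaskC3 → TaskP1 → ∀ (D : ℕ), 4 ≤ D → ∀ (ι : Type) [Fintype ι]
  (V : ι → LV D), SP D V → ∀ v j o, j ∈ Nb V v → o ∈ Nb V v → o ≠ j → ¬ Face V {v, j, o} →
  ∃ (m : ℕ) (κ : Type) (_ : Fintype κ) (f : κ ↪ ι) (u : κ → EuclideanSpace ℝ (Fin m)),
    m + 2 = D ∧ (∀ k, k ∈ Set.range f ↔ k ≠ v ∧ k ≠ j ∧ Face V {v, j, k}) ∧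
    (∀ i k : κ, i ≠ k → Face V {f i, f k} →
      inner ℝ (u i) (u k) = gm (fun x => cc V o x / cc V o j) (f i) (f k)) ∧
    (∀ i : κ, inner ℝ (u i) (u i) = cc V o (f i) / cc V o j) ∧
    (∀ n : EuclideanSpace ℝ (Fin m), n ≠ 0 → ∃ k, 0 < inner ℝ n (u k)) ∧
    (∀ s : Finset κ, s.map f ∈ LK V v j → LinearIndependent ℝ (fun i : s => u i) ∧
      ∃ n : EuclideanSpace ℝ (Fin m), (∀ k, inner ℝ n (u k) ≤ 1) ∧ ∀ k, k ∈ s ↔ inner ℝ n (u k) = 1) ∧
    (∀ n : EuclideanSpace ℝ (Fin m), (∀ k, inner ℝ n (u k) ≤ 1) → (∃ k, inner ℝ n (u k) = 1) →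
      ∃ s : Finset κ, s.map f ∈ LK V v j ∧ ∀ k, inner ℝ n (u k) = 1 → k ∈ s)

/-- PM: the link of an edge is a closed pseudomanifold -/
def TaskPM : Prop := TaskC1 → TaskC4 → ∀ (D : ℕ), 4 ≤ D → ∀ (ι : Type) [Fintype ι] (V : ι → LV D), SP D V →
  ∀ v j, j ∈ Nb V v → PM (D - 2) (LK V v j)

/-- SUM: the solid angles add up to one, the Gram matrices are positive definite -/
def TaskSum : Prop := TaskTL → TaskC1 → TaskC2 → TaskC3 → TaskP1 → TaskP3 → ∀ (D : ℕ), 4 ≤ D →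
  ∀ (ι : Type) [Fintype ι] (V : ι → LV D), SP D V →
  ∀ v j o, j ∈ Nb V v → o ∈ Nb V v → o ≠ j → ¬ Face V {v, j, o} →
    ∑ s ∈ LK V v j, om s (fun x => cc V o x / cc V o j) = 1 ∧
    ∀ s ∈ LK V v j, (GM s (fun x => cc V o x / cc V o j)).PosDef

/-- the numbers `c` are the same at a vertex -/
def StepI : Prop := ∀ (D : ℕ), 4 ≤ D → ∀ (ι : Type) [Fintype ι] (V V' : ι → LV D), SP D V → SP D V' →
  (∀ S, Face V S ↔ Face V' S) → ∀ v k l, k ∈ Nb V v → l ∈ Nb V v → B (V k) (V l) = B (V' k) (V' l)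

/-- STEP: maximum principle -/
def TaskStep : Prop := Compare → TaskC1 → TaskC2 → TaskC3 → TaskC4 → TaskP1 → TaskP2 →
  (∀ (D : ℕ), 4 ≤ D → ∀ (ι : Type) [Fintype ι] (V : ι → LV D), SP D V →
    ∀ v j, j ∈ Nb V v → PM (D - 2) (LK V v j)) →
  (∀ (D : ℕ), 4 ≤ D → ∀ (ι : Type) [Fintype ι] (V : ι → LV D), SP D V →
    ∀ v j o, j ∈ Nb V v → o ∈ Nb V v → o ≠ j → ¬ Face V {v, j, o} →
    ∑ s ∈ LK V v j, om s (fun x => cc V o x / cc V o j) = 1 ∧
    ∀ s ∈ LK V v j, (GM s (fun x => cc V o x / cc V o j)).PosDef) → StepI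

/-- the Lorentz form of the theorem -/
def MainL : Prop := ∀ (D : ℕ), 4 ≤ D → ∀ (ι : Type) [Fintype ι] (V V' : ι → LV D), SP D V → SP D V' →
  (∀ S, Face V S ↔ Face V' S) → ∃ T : LV D →ₗ[ℝ] LV D, (∀ x y, B (T x) (T y) = B x y) ∧ ∀ i, T (V i) = V' i

/-- GLUE: the local isometries agree -/
def TaskGlue : Prop := TaskC1 → TaskC2 → StepI → MainL

/-! ### Translation -/

/-- homogeneous coordinates -/
def hom {D : ℕ} (x : Fin D → ℝ) : LV D := fun i => Option.elim i (1 : ℝ) x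

/-- the vertex set -/
abbrev EP {D : ℕ} (V : Finset (Fin D → ℝ)) : Set (Fin D → ℝ) :=
  Set.extremePoints ℝ (convexHull ℝ (V : Set (Fin D → ℝ)))

/-- all edges are tangent to the unit sphere (as in the frozen statement) -/
def Tang {D : ℕ} (V : Finset (Fin D → ℝ)) : Prop := ∀ a ∈ V, ∀ b ∈ V, a ≠ b →
  IsExposed ℝ (convexHull ℝ (V : Set (Fin D → ℝ))) (segment ℝ a b) →
    ∃ p ∈ segment ℝ a b, ∑ i, p i ^ 2 = 1 ∧ ∀ t : ℝ, 1 ≤ ∑ i, (a i + t * (b i - a i)) ^ 2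

/-- F1: exposed faces -/
def TaskF1 : Prop := ∀ (D : ℕ) (V : Finset (Fin D → ℝ)) (S : Set (Fin D → ℝ)), S ⊆ EP V → S.Nonempty →
  (IsExposed ℝ (convexHull ℝ (V : Set (Fin D → ℝ))) (convexHull ℝ S) ↔
    Face (fun i : EP V => hom (i : Fin D → ℝ)) {i | (i : Fin D → ℝ) ∈ S})

/-- simplicial: every proper exposed face is a simplex -/
def Simp {D : ℕ} (V : Finset (Fin D → ℝ)) : Prop := ∀ S ⊆ EP V, S ≠ EP V →
  IsExposed ℝ (convexHull ℝ (V : Set (Fin D → ℝ))) (convexHull ℝ S) →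
    AffineIndependent ℝ (fun x : S => (x : Fin D → ℝ))

/-- F2a: the configuration of the homogeneous coordinates is a simplicial cone configuration -/
def TaskF2a : Prop := TaskF1 → ∀ (D : ℕ), 2 ≤ D → ∀ (V : Finset (Fin D → ℝ)),
  (interior (convexHull ℝ (V : Set (Fin D → ℝ)))).Nonempty → Simp V →
  ∃ _ : Fintype (EP V), SC (fun i : EP V => hom (i : Fin D → ℝ))

/-- F2b: vertices lie outside the closed ball, edges have the right product -/
def TaskF2b : Prop := TaskF1 → TaskC2 → ∀ (D : ℕ), 2 ≤ D → ∀ (V : Finset (Fin D → ℝ)) [Fintype (EP V)],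
  (interior (convexHull ℝ (V : Set (Fin D → ℝ)))).Nonempty → Tang V →
  SC (fun i : EP V => hom (i : Fin D → ℝ)) →
  (∀ a ∈ EP V, 1 < ∑ i, a i ^ 2) ∧
  ∀ a b : EP V, a ≠ b → Face (fun i : EP V => hom (i : Fin D → ℝ)) {a, b} →
    B (hom (a : Fin D → ℝ)) (hom (b : Fin D → ℝ)) =
      -(Real.sqrt (∑ i, (a : Fin D → ℝ) i ^ 2 - 1) * Real.sqrt (∑ i, (b : Fin D → ℝ) i ^ 2 - 1))

open Matrix in
/-- the conclusion of the frozen statement -/
def Concl {D : ℕ} (V W : Finset (Fin D → ℝ)) : Prop :=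
  ∃ M : Matrix (Option (Fin D)) (Option (Fin D)) ℝ,
    M.transpose * Matrix.diagonal (fun i => Option.elim i (-1 : ℝ) (fun _ => (1 : ℝ))) * M
        = Matrix.diagonal (fun i => Option.elim i (-1 : ℝ) (fun _ => (1 : ℝ))) ∧
    (∀ x ∈ convexHull ℝ (V : Set (Fin D → ℝ)),
        (M *ᵥ (fun i => Option.elim i (1 : ℝ) x)) none ≠ 0) ∧
    (fun x : Fin D → ℝ => fun j : Fin D =>
        (M *ᵥ (fun i => Option.elim i (1 : ℝ) x)) (some j) /
          (M *ᵥ (fun i => Option.elim i (1 : ℝ) x)) none)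
      '' convexHull ℝ (V : Set (Fin D → ℝ))
      = convexHull ℝ (W : Set (Fin D → ℝ))

/-- F3: from the isometry to the projective map -/
def TaskF3 : Prop := ∀ (D : ℕ) (V W : Finset (Fin D → ℝ)) (f : (Fin D → ℝ) → (Fin D → ℝ)),
  V.Nonempty → Set.BijOn f (EP V) (EP W) →
  ∀ (T : LV D →ₗ[ℝ] LV D), (∀ x y, B (T x) (T y) = B x y) →
  (∀ a ∈ EP V, ∃ c : ℝ, 0 < c ∧ T (hom a) = c • hom (f a)) → Concl V W

/-- the final statement -/
def Final : Prop := ∀ d : ℕ, 3 ≤ d → ∀ V W : Finset (Fin (d + 1) → ℝ),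
  (interior (convexHull ℝ (V : Set (Fin (d + 1) → ℝ)))).Nonempty →
  (interior (convexHull ℝ (W : Set (Fin (d + 1) → ℝ)))).Nonempty →
  Tang V → Tang W → Simp V →
  (∃ f : (Fin (d + 1) → ℝ) → (Fin (d + 1) → ℝ), Set.BijOn f (EP V) (EP W) ∧
    ∀ S ⊆ EP V, (IsExposed ℝ (convexHull ℝ (V : Set (Fin (d + 1) → ℝ))) (convexHull ℝ S) ↔
      IsExposed ℝ (convexHull ℝ (W : Set (Fin (d + 1) → ℝ))) (convexHull ℝ (f '' S)))) →
  Concl V W

/-- FIN: assembly of the translation. `Simp W` follows because dimension and combinatorics of `W` are those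
of `V` (a proper face of `W` with `k` vertices has `2 ^ k` subfaces, hence its vertices are independent). -/
def TaskFin : Prop := MainL → TaskC1 → TaskC2 → TaskF1 → TaskF2a → TaskF2b → TaskF3 → Final

end Pool.Agent.H242R3.ES
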