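import Mathlib
import Pool.Agent.H242R3.ES.Stmts

/-!
# PROJECT H242-ES, part G: the general (non-simplicial) case, full S08421: faces of cones
-/

set_option autoImplicit false
set_option maxHeartbeats 4000000

open MeasureTheory Finset
open scoped Classical

namespace Pool.Agent.H242R3.ES

/-- edge-scribed polytope of dimension `D` in Lorentz form (not necessarily simplicial) -/
structure GQ (D : ℕ) {ι : Type} [Fintype ι] (V : ι → LV D) : Prop where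
  norm : ∀ i, B (V i) (V i) = 1
  tw : ∃ w : LV D, B w w < 0 ∧ ∀ i, B (V i) w < 0
  vert : ∀ i, Face V {i}
  edge : ∀ i j, i ≠ j → Face V {i, j} → B (V i) (V j) = -1
  span : Submodule.span ℝ (Set.range V) = ⊤

/-- the theorem in dimension `D` -/
def MainG (D : ℕ) : Prop := ∀ (ι : Type) [Fintype ι] (V V' : ι → LV D), GQ D V → GQ D V' →
  (∀ S, Face V S ↔ Face V' S) → ∃ T : LV D →ₗ[ℝ] LV D, (∀ x y, B (T x) (T y) = B x y) ∧ ∀ i, T (V i) = V' i

/-- the frozen statement S08421 -/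
def FinalG : Prop := ∀ d : ℕ, 2 ≤ d → ∀ V W : Finset (Fin (d + 1) → ℝ),
  (interior (convexHull ℝ (V : Set (Fin (d + 1) → ℝ)))).Nonempty →
  (interior (convexHull ℝ (W : Set (Fin (d + 1) → ℝ)))).Nonempty →
  Tang V → Tang W →
  (∃ f : (Fin (d + 1) → ℝ) → (Fin (d + 1) → ℝ), Set.BijOn f (EP V) (EP W) ∧
    ∀ S ⊆ EP V, (IsExposed ℝ (convexHull ℝ (V : Set (Fin (d + 1) → ℝ))) (convexHull ℝ S) ↔
      IsExposed ℝ (convexHull ℝ (W : Set (Fin (d + 1) → ℝ))) (convexHull ℝ (f '' S)))) →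
  Concl V W

/-- rank of a set of indices -/
noncomputable def rk {ι E : Type} [AddCommGroup E] [Module ℝ E] (V : ι → E) (S : Set ι) : ℕ :=
  Module.finrank ℝ (Submodule.span ℝ (V '' S))

/-- `S` covers `R` in the face lattice -/
def Cov {ι E : Type} [AddCommGroup E] [Module ℝ E] (V : ι → E) (R S : Set ι) : Prop :=
  Face V R ∧ Face V S ∧ R ⊂ S ∧ rk V S = rk V R + 1

/-- G1: a face of a face is a face -/
def TaskG1 : Prop := ∀ (ι E : Type) [Fintype ι] [AddCommGroup E] [Module ℝ E] [FiniteDimensional ℝ E]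
  (V : ι → E) (S T : Set ι), Face V S → T ⊆ S →
  (∃ l : E →ₗ[ℝ] ℝ, (∀ i ∈ S, 0 ≤ l (V i)) ∧ ∀ i ∈ S, (i ∈ T ↔ l (V i) = 0)) → Face V T

/-- G2: intersections of faces are faces; a face is determined by its span -/
def TaskG2 : Prop := ∀ (ι E : Type) [Fintype ι] [AddCommGroup E] [Module ℝ E] [FiniteDimensional ℝ E]
  (V : ι → E) (S T : Set ι), Face V S → Face V T → Face V (S ∩ T) ∧
  (S ⊂ T → rk V S < rk V T) ∧ (∀ i, i ∈ S ↔ V i ∈ Submodule.span ℝ (V '' S))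

/-- G3: chains of faces can be refined -/
def TaskG3 : Prop := ∀ (ι E : Type) [Fintype ι] [AddCommGroup E] [Module ℝ E] [FiniteDimensional ℝ E]
  (V : ι → E), ∀ R S : Set ι, Face V R → Face V S → R ⊂ S →
  (∃ T, T ⊆ S ∧ Cov V R T) ∧ ∃ T, R ⊆ T ∧ Cov V T S

/-- G4: diamond property -/
def TaskG4 : Prop := ∀ (ι E : Type) [Fintype ι] [AddCommGroup E] [Module ℝ E] [FiniteDimensional ℝ E]
  (V : ι → E), ∀ R S : Set ι, Face V R → Face V S → R ⊂ S → rk V S = rk V R + 2 →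
  ∀ T, Cov V R T → T ⊆ S → ∃! T', (Cov V R T' ∧ T' ⊆ S) ∧ T' ≠ T

/-- G5: modulo a face `R`, a face `S` above `R` is generated by the faces covering `R` in `S` -/
def TaskG5 : Prop := ∀ (ι E : Type) [Fintype ι] [AddCommGroup E] [Module ℝ E] [FiniteDimensional ℝ E]
  (V : ι → E), ∀ R S : Set ι, Face V R → Face V S → R ⊂ S →
  ∀ i ∈ S, ∃ (y : E) (a : ι → ℝ), y ∈ Submodule.span ℝ (V '' R) ∧ (∀ k, 0 ≤ a k) ∧
    (∀ k, a k ≠ 0 → k ∈ S ∧ k ∉ R ∧ ∃ T, Cov V R T ∧ T ⊆ S ∧ k ∈ T) ∧ V i = y + ∑ k, a k • V k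

/-- G6: every face covering a vertex is an edge -/
def TaskG6 : Prop := ∀ (ι E : Type) [Fintype ι] [AddCommGroup E] [Module ℝ E] [FiniteDimensional ℝ E]
  (V : ι → E), (∀ i, Face V {i}) → ∀ (v : ι) (T : Set ι), Cov V {v} T → ∃ k, k ≠ v ∧ T = {v, k}

/-- G7: ranks are combinatorial -/
def TaskG7 : Prop := ∀ (ι E E' : Type) [Fintype ι] [AddCommGroup E] [Module ℝ E] [FiniteDimensional ℝ E]
  [AddCommGroup E'] [Module ℝ E'] [FiniteDimensional ℝ E'] (V : ι → E) (V' : ι → E'),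
  (∀ S, Face V S ↔ Face V' S) → Face V ∅ → ∀ S, Face V S → rk V S = rk V' S

/-- generation at a vertex by its neighbours inside a face -/
def GenV : Prop := ∀ (ι E : Type) [Fintype ι] [AddCommGroup E] [Module ℝ E] [FiniteDimensional ℝ E]
  (V : ι → E), (∀ i, Face V {i}) → ∀ (v : ι) (S : Set ι), Face V S → v ∈ S →
  ∀ i ∈ S, ∃ (y : ℝ) (a : ι → ℝ), (∀ k, 0 ≤ a k) ∧
    (∀ k, a k ≠ 0 → k ∈ S ∧ k ≠ v ∧ Face V {v, k}) ∧ V i = y • V v + ∑ k, a k • V k

/-- G8 -/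
def TaskG8 : Prop := TaskG5 → TaskG6 → GenV

/-- P1 for general polytopes -/
def P1G : Prop := ∀ (D : ℕ) (ι : Type) [Fintype ι] (V : ι → LV D), GQ D V →
  ∀ v k l, k ≠ v → l ≠ v → k ≠ l → Face V {v, k} → Face V {v, l} → B (V k) (V l) < 1

/-- P7: the tangency point of an edge is not in the closed ball of another vertex -/
def P7G : Prop := ∀ (D : ℕ) (ι : Type) [Fintype ι] (V : ι → LV D), GQ D V →
  ∀ i j k, i ≠ j → Face V {i, j} → k ≠ i → k ≠ j → B (V k) (V i + V j) < 0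

def TaskP7 : Prop := P1G → GenV → P7G

/-- TR1: the homogeneous coordinates of the vertices -/
def TR1 : Prop := ∀ (D : ℕ), 2 ≤ D → ∀ (V : Finset (Fin D → ℝ)),
  (interior (convexHull ℝ (V : Set (Fin D → ℝ)))).Nonempty →
  Finite (EP V) ∧ (∀ i : EP V, Face (fun i : EP V => hom (i : Fin D → ℝ)) {i}) ∧
    Submodule.span ℝ (Set.range (fun i : EP V => hom (i : Fin D → ℝ))) = ⊤

/-- TR2: vertices lie outside the closed ball, edges have the right product -/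
def TR2 : Prop := ∀ (D : ℕ), 2 ≤ D → ∀ (V : Finset (Fin D → ℝ)),
  (interior (convexHull ℝ (V : Set (Fin D → ℝ)))).Nonempty → Tang V →
  (∀ a ∈ EP V, 1 < ∑ i, a i ^ 2) ∧
  ∀ a b : EP V, a ≠ b → Face (fun i : EP V => hom (i : Fin D → ℝ)) {a, b} →
    B (hom (a : Fin D → ℝ)) (hom (b : Fin D → ℝ)) =
      -(Real.sqrt (∑ i, (a : Fin D → ℝ) i ^ 2 - 1) * Real.sqrt (∑ i, (b : Fin D → ℝ) i ^ 2 - 1))

def TaskTR1 : Prop := TaskF1 → TR1

def TaskTR2 : Prop := TaskF1 → TR1 → GenV → TR2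

/-- TRANS: the translation for the general case (adapt FIN of the simplicial case) -/
def TaskTrans : Prop := TaskF1 → TaskF3 → TR1 → TR2 → (∀ D, 3 ≤ D → MainG D) → FinalG

end Pool.Agent.H242R3.ES
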