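import Mathlib
import Pool.Agent.H242R3.ES.Stmts
import Pool.Agent.H242R3.ES.StmtsG

/-!
# PROJECT H242-ES, part N: the step from dimension `D - 1` to `D ≥ 4`
-/

set_option autoImplicit false
set_option maxHeartbeats 4000000

open MeasureTheory Finset
open scoped Classical

namespace Pool.Agent.H242R3.ES

/-! ### Gaussian solid angles with general squared lengths `q` -/

noncomputable def gq {ι : Type} (q : ι → ι → ℝ) (F : ι → ℝ) (i k : ι) : ℝ := (F i + F k - q i k) / 2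

noncomputable def GMq {ι : Type} (q : ι → ι → ℝ) (s : Finset ι) (F : ι → ℝ) : Matrix s s ℝ :=
  fun i k => gq q F i k

noncomputable def exq {ι : Type} (q : ι → ι → ℝ) (s : Finset ι) (F : ι → ℝ) (x : s → ℝ) : ℝ :=
  Real.exp (-Real.pi * ∑ i : s, ∑ k : s, x i * gq q F i k * x k)

noncomputable def omq {ι : Type} (q : ι → ι → ℝ) (s : Finset ι) (F : ι → ℝ) : ℝ :=
  Real.sqrt (GMq q s F).det * ∫ x in orth s, exq q s F x

noncomputable def kapq {ι : Type} (q : ι → ι → ℝ) (s : Finset ι) (F : ι → ℝ) (j : s) : ℝ :=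
  Real.sqrt (GMq q s F).det * ((GMq q s F)⁻¹.mulVec (fun _ => 1)) j

noncomputable def IIq {ι : Type} (q : ι → ι → ℝ) (r : Finset ι) (F g : ι → ℝ) : ℝ :=
  ∫ x in orth r, (∑ i : r, g i * x i) * exq q r F x

/-- N1: derivative of the solid angle -/
def TaskN1 : Prop := ∀ (ι : Type) (q : ι → ι → ℝ) (s : Finset ι) (F g : ι → ℝ), (GMq q s F).PosDef →
  HasDerivAt (fun t : ℝ => omq q s (fun i => F i + t * g i))
    (-(1 / 2) * ∑ j : s, kapq q s F j * IIq q (s.erase j) F g) 0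

/-- the ridge coefficient -/
noncomputable def kr {ι : Type} (q : ι → ι → ℝ) (r : Finset ι) (j : ι) (F : ι → ℝ) : ℝ :=
  kapq q (insert j r) F ⟨j, mem_insert_self j r⟩

/-- N2: the sign of the ridge coefficients along a segment -/
def TaskN2 : Prop := ∀ (ι : Type) (q : ι → ι → ℝ) (r : Finset ι) (j j' : ι) (F F' : ι → ℝ), r.Nonempty →
  (∀ i k, q i k = q k i) → (∀ i, q i i = 0) → j ∉ r → j' ∉ r →
  (GMq q (insert j r) F).PosDef → (GMq q (insert j' r) F).PosDef →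
  (GMq q (insert j r) F').PosDef → (GMq q (insert j' r) F').PosDef →
  0 ≤ kr q r j F + kr q r j' F → 0 ≤ kr q r j F' + kr q r j' F' →
  ∀ t : ℝ, 0 ≤ t → t < 1 →
    0 ≤ kr q r j (fun i => (1 - t) * F i + t * F' i) + kr q r j' (fun i => (1 - t) * F i + t * F' i) ∧
    (0 < kr q r j F + kr q r j' F →
      0 < kr q r j (fun i => (1 - t) * F i + t * F' i) + kr q r j' (fun i => (1 - t) * F i + t * F' i))

/-- admissible squared distances -/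
structure Adq {ι : Type} (q : ι → ι → ℝ) (S : Finset (Finset ι)) (F : ι → ℝ) : Prop where
  pd : ∀ s ∈ S, (GMq q s F).PosDef
  conv : ∀ (r : Finset ι) (j j' : ι), j ∉ r → j' ∉ r → j ≠ j' → insert j r ∈ S → insert j' r ∈ S →
    0 ≤ kr q r j F + kr q r j' F

/-- N3: the comparison lemma -/
def CompareQ : Prop := ∀ (ι : Type) (q : ι → ι → ℝ) (m : ℕ), 2 ≤ m → ∀ (S : Finset (Finset ι)), PM m S →
  (∀ i k, q i k = q k i) → (∀ i, q i i = 0) →
  ∀ F F' : ι → ℝ, Adq q S F → Adq q S F' → (∀ s ∈ S, ∀ k ∈ s, F k ≤ F' k) →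
    ∑ s ∈ S, omq q s F = ∑ s ∈ S, omq q s F' →
    ∀ (r : Finset ι) (j j' : ι), j ∉ r → j' ∉ r → j ≠ j' → insert j r ∈ S → insert j' r ∈ S →
      0 < kr q r j F + kr q r j' F → ∀ k ∈ r, F k = F' k

def TaskN3 : Prop := TaskN1 → TaskN2 → CompareQ

/-- N4: the ridge coefficients of vectors in Euclidean space -/
def TaskN4 : Prop := ∀ (ι : Type) (m : ℕ) (u : ι → EuclideanSpace ℝ (Fin m)) (q : ι → ι → ℝ) (F : ι → ℝ)
  (r : Finset ι) (j j' : ι) (n n' ν : EuclideanSpace ℝ (Fin m)), j ∉ r → j' ∉ r →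
  (insert j r).card = m → (insert j' r).card = m →
  LinearIndependent ℝ (fun i : (insert j r : Finset ι) => u i) →
  LinearIndependent ℝ (fun i : (insert j' r : Finset ι) => u i) →
  (∀ i ∈ insert j r, ∀ k ∈ insert j r, gq q F i k = inner ℝ (u i) (u k)) →
  (∀ i ∈ insert j' r, ∀ k ∈ insert j' r, gq q F i k = inner ℝ (u i) (u k)) →
  (∀ i ∈ insert j r, inner ℝ n (u i) = 1) → (∀ i ∈ insert j' r, inner ℝ n' (u i) = 1) →
  (∀ i ∈ r, inner ℝ ν (u i) = 0) → 0 < inner ℝ ν (u j) → inner ℝ ν (u j') < 0 →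
  (0 ≤ inner ℝ (n - n') ν → 0 ≤ kr q r j F + kr q r j' F) ∧
  (0 < inner ℝ (n - n') ν → 0 < kr q r j F + kr q r j' F)

/-! ### Flags at a ray of a cone -/

/-- proper faces strictly above `j` -/
def FA {ι E : Type} [AddCommGroup E] [Module ℝ E] (V : ι → E) (j : ι) : Set (Set ι) :=
  {T | Face V T ∧ j ∈ T ∧ T ≠ {j} ∧ T ≠ Set.univ}

/-- complete flags of proper faces strictly above `j` -/
noncomputable def Fl {ι E : Type} [Fintype ι] [AddCommGroup E] [Module ℝ E] (V : ι → E) (j : ι) (m : ℕ) :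
    Finset (Finset (Set ι)) :=
  Finset.univ.filter fun s => s.card = m ∧ (∀ T ∈ s, T ∈ FA V j) ∧ ∀ T ∈ s, ∀ T' ∈ s, T ⊆ T' ∨ T' ⊆ T

/-- sum of the generators -/
noncomputable def Y {ι E : Type} [Fintype ι] [AddCommGroup E] [Module ℝ E] (V : ι → E) (T : Set ι) : E :=
  ∑ k ∈ Finset.univ.filter (· ∈ T), V k

/-- N5: the flags form a pseudomanifold; `finrank E = m + 2` -/
def FlPM : Prop := ∀ (ι E : Type) [Fintype ι] [AddCommGroup E] [Module ℝ E] [FiniteDimensional ℝ E]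
  (V : ι → E) (j : ι) (m : ℕ), (∀ i, Face V {i}) → Submodule.span ℝ (Set.range V) = ⊤ →
  Module.finrank ℝ E = m + 2 → 1 ≤ m → PM m (Fl V j m) ∧
  (∀ s ∈ Fl V j m, ∀ T ∈ s, 2 ≤ rk V T ∧ rk V T ≤ m + 1) ∧
  (∀ s ∈ Fl V j m, ∃ T ∈ s, rk V T = m + 1 ∧ ∀ T' ∈ s, T' ⊆ T) ∧
  ∀ c : Finset (Set ι), (∀ T ∈ c, T ∈ FA V j) → (∀ T ∈ c, ∀ T' ∈ c, T ⊆ T' ∨ T' ⊆ T) →
    ∃ s ∈ Fl V j m, c ⊆ s

def TaskN5 : Prop := TaskG2 → TaskG3 → TaskG4 → TaskG6 → FlPM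

/-- N6: decomposition along flags, existence -/
def FlEx : Prop := ∀ (ι E : Type) [Fintype ι] [AddCommGroup E] [Module ℝ E] [FiniteDimensional ℝ E]
  (V : ι → E) (j : ι), (∀ i, Face V {i}) → ∀ T : Set ι, Face V T → j ∈ T →
  ∀ (z : E), (∃ (y : ℝ) (a : ι → ℝ), (∀ k, 0 ≤ a k) ∧ (∀ k, a k ≠ 0 → k ∈ T) ∧
    z = y • V j + ∑ k, a k • V k) →
  ∃ (s : Finset (Set ι)) (y : ℝ) (c : Set ι → ℝ), (∀ R ∈ s, Face V R ∧ j ∈ R ∧ R ≠ {j} ∧ R ⊆ T) ∧
    (∀ R ∈ s, ∀ R' ∈ s, R ⊆ R' ∨ R' ⊆ R) ∧ (∀ R, 0 ≤ c R) ∧ z = y • V j + ∑ R ∈ s, c R • Y V R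

/-- N7: decomposition along flags, uniqueness -/
def FlUn : Prop := ∀ (ι E : Type) [Fintype ι] [AddCommGroup E] [Module ℝ E] [FiniteDimensional ℝ E]
  (V : ι → E) (j : ι), (∀ i, Face V {i}) →
  ∀ (s s' : Finset (Set ι)), (∀ R ∈ s, Face V R ∧ j ∈ R ∧ R ≠ {j}) → (∀ R ∈ s', Face V R ∧ j ∈ R ∧ R ≠ {j}) →
  (∀ R ∈ s, ∀ R' ∈ s, R ⊆ R' ∨ R' ⊆ R) → (∀ R ∈ s', ∀ R' ∈ s', R ⊆ R' ∨ R' ⊆ R) →
  ∀ (y y' : ℝ) (c c' : Set ι → ℝ), (∀ R ∈ s, 0 < c R) → (∀ R ∈ s', 0 ≤ c' R) →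
  y • V j + ∑ R ∈ s, c R • Y V R = y' • V j + ∑ R ∈ s', c' R • Y V R →
  s ⊆ s' ∧ (∀ R ∈ s, c R = c' R) ∧ ∀ R ∈ s', R ∉ s → c' R = 0

/-- `o` is interior relative to `j` -/
def Opp {ι E : Type} [AddCommGroup E] [Module ℝ E] (V : ι → E) (j : ι) (o : E) : Prop :=
  ∀ l : E →ₗ[ℝ] ℝ, (∀ i, 0 ≤ l (V i)) → l (V j) = 0 → l ≠ 0 → 0 < l o

/-- common hypotheses: `p` has kernel spanned by `V j` and `o` -/
structure Set8 {ι E : Type} [Fintype ι] [AddCommGroup E] [Module ℝ E]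
    (V : ι → E) (j : ι) (o : E) (m : ℕ) (p : E →ₗ[ℝ] EuclideanSpace ℝ (Fin m)) : Prop where
  vert : ∀ i, Face V {i}
  span : Submodule.span ℝ (Set.range V) = ⊤
  fin : Module.finrank ℝ E = m + 2
  one : 1 ≤ m
  opp : Opp V j o
  surj : Function.Surjective p
  ker : LinearMap.ker p = Submodule.span ℝ {V j, o}

/-- N8a: the vectors of a flag are independent -/
def FlInd : Prop := ∀ (ι E : Type) [Fintype ι] [AddCommGroup E] [Module ℝ E] [FiniteDimensional ℝ E]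
  (V : ι → E) (j : ι) (o : E) (m : ℕ) (p : E →ₗ[ℝ] EuclideanSpace ℝ (Fin m)), Set8 V j o m p →
  ∀ s ∈ Fl V j m, LinearIndependent ℝ (fun T : s => p (Y V T))

def TaskN8a : Prop := TaskG2 → FlPM → FlInd

/-- N8b: the cones of the flags cover space -/
def FlCov : Prop := ∀ (ι E : Type) [Fintype ι] [AddCommGroup E] [Module ℝ E] [FiniteDimensional ℝ E]
  (V : ι → E) (j : ι) (o : E) (m : ℕ) (p : E →ₗ[ℝ] EuclideanSpace ℝ (Fin m)), Set8 V j o m p →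
  ∀ y, ∃ s ∈ Fl V j m, ∃ x : Set ι → ℝ, (∀ T, 0 ≤ x T) ∧ y = ∑ T ∈ s, x T • p (Y V T)

def TaskN8b : Prop := TaskG2 → FlPM → FlEx → FlCov

/-- N8c: the cones of the flags overlap in null sets -/
def FlDis : Prop := ∀ (ι E : Type) [Fintype ι] [AddCommGroup E] [Module ℝ E] [FiniteDimensional ℝ E]
  (V : ι → E) (j : ι) (o : E) (m : ℕ) (p : E →ₗ[ℝ] EuclideanSpace ℝ (Fin m)), Set8 V j o m p →
  ∀ s ∈ Fl V j m, ∀ s' ∈ Fl V j m, s ≠ s' → ∀ x x' : Set ι → ℝ, (∀ T, 0 ≤ x T) → (∀ T, 0 ≤ x' T) →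
    ∑ T ∈ s, x T • p (Y V T) = ∑ T ∈ s', x' T • p (Y V T) → ∃ T ∈ s, x T = 0

def TaskN8c : Prop := FlPM → FlUn → FlDis

/-- N8d: tiling of space by the flags -/
def FlTile : Prop := ∀ (ι E : Type) [Fintype ι] [AddCommGroup E] [Module ℝ E] [FiniteDimensional ℝ E]
  (V : ι → E) (j : ι) (o : E) (m : ℕ) (p : E →ₗ[ℝ] EuclideanSpace ℝ (Fin m)), Set8 V j o m p →
  ∀ (d : Set ι → ℝ), (∀ s ∈ Fl V j m, ∀ T ∈ s, 0 < d T) →
  (∀ s ∈ Fl V j m, LinearIndependent ℝ (fun T : s => d T • p (Y V T))) ∧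
  ∑ s ∈ Fl V j m, (Real.sqrt (GU s (fun T => d T • p (Y V T))).det *
    ∫ x in {x : s → ℝ | ∀ i, 0 ≤ x i},
      Real.exp (-Real.pi * ∑ i : s, ∑ k : s, x i * inner ℝ (d i • p (Y V i)) (d k • p (Y V k)) * x k)) = 1

def TaskN8d : Prop := FlInd → FlCov → FlDis → FlTile

/-- N10c: separation of the two flags through a ridge inside a facet -/
def FlSep : Prop := ∀ (ι E : Type) [Fintype ι] [AddCommGroup E] [Module ℝ E] [FiniteDimensional ℝ E]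
  (V : ι → E) (j : ι) (o : E) (m : ℕ) (p : E →ₗ[ℝ] EuclideanSpace ℝ (Fin m)), Set8 V j o m p →
  ∀ (r : Finset (Set ι)) (T T' : Set ι), T ∉ r → T' ∉ r → T ≠ T' → insert T r ∈ Fl V j m →
    insert T' r ∈ Fl V j m → rk V T < m + 1 →
    ∃ l : E →ₗ[ℝ] ℝ, l (V j) = 0 ∧ l o = 0 ∧ (∀ R ∈ r, l (Y V R) = 0) ∧ 0 < l (Y V T) ∧ l (Y V T') < 0

def TaskN10c : Prop := TaskG2 → TaskG3 → TaskG4 → TaskG6 → FlPM → FlInd → FlSep

/-! ### Lorentz part: inscribed cones -/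

/-- null configurations (inscribed polytopes with scaled vertices) -/
structure NC (n : ℕ) {ι : Type} [Fintype ι] (X : ι → LV n) : Prop where
  null : ∀ i, B (X i) (X i) = 0
  neg : ∀ i j, i ≠ j → B (X i) (X j) < 0
  vert : ∀ i, Face X {i}
  span : Submodule.span ℝ (Set.range X) = ⊤

/-- N9: projection along two null vectors -/
def TaskN9 : Prop := ∀ (m : ℕ) (a b : LV (m + 1)), B a a = 0 → B b b = 0 → B a b < 0 →
  ∃ p : LV (m + 1) →ₗ[ℝ] EuclideanSpace ℝ (Fin m), Function.Surjective p ∧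
    LinearMap.ker p = Submodule.span ℝ {a, b} ∧
    ∀ x y, inner ℝ (p x) (p y) = B x y - (B x a * B y b + B x b * B y a) / B a b

/-- squared distances from the apex, with base `o` and centre `j` -/
noncomputable def Fq {n : ℕ} {ι : Type} [Fintype ι] (X : ι → LV n) (j o : ι) (T : Set ι) : ℝ :=
  B (Y X T) (Y X T) / B (Y X T) (X j) ^ 2 + 2 * B (Y X T) (X o) / (B (Y X T) (X j) * B (X j) (X o)) * (-1)

/-- mutual squared distances -/
noncomputable def qq {n : ℕ} {ι : Type} [Fintype ι] (X : ι → LV n) (j : ι) (T T' : Set ι) : ℝ :=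
  B (Y X T) (Y X T) / B (Y X T) (X j) ^ 2 + B (Y X T') (Y X T') / B (Y X T') (X j) ^ 2 -
    2 * B (Y X T) (Y X T') / (B (Y X T) (X j) * B (Y X T') (X j))

/-- `j` and `o` are in a common proper face -/
def Com {n : ℕ} {ι : Type} (X : ι → LV n) (j o : ι) : Prop :=
  ∃ S, Face X S ∧ S ≠ Set.univ ∧ j ∈ S ∧ o ∈ S

/-- N10a: the flags of an inscribed cone: total angle one -/
def NCa : Prop := ∀ (m : ℕ), 2 ≤ m → ∀ (ι : Type) [Fintype ι] (X : ι → LV (m + 1)), NC (m + 1) X →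
  ∀ j o, ¬ Com X j o →
    (∀ s ∈ Fl X j m, (GMq (qq X j) s (Fq X j o)).PosDef) ∧
    ∑ s ∈ Fl X j m, omq (qq X j) s (Fq X j o) = 1

def TaskN10a : Prop := FlPM → FlTile → TaskN9 → NCa

/-- N10b: the flags of an inscribed cone: convexity -/
def NCb : Prop := ∀ (m : ℕ), 2 ≤ m → ∀ (ι : Type) [Fintype ι] (X : ι → LV (m + 1)), NC (m + 1) X →
  ∀ j o, ¬ Com X j o → ∀ (r : Finset (Set ι)) (T T' : Set ι), T ∉ r → T' ∉ r → T ≠ T' →
    insert T r ∈ Fl X j m → insert T' r ∈ Fl X j m →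
    0 ≤ kr (qq X j) r T (Fq X j o) + kr (qq X j) r T' (Fq X j o) ∧
    (rk X T = m + 1 → 0 < kr (qq X j) r T (Fq X j o) + kr (qq X j) r T' (Fq X j o))

def TaskN10b : Prop := TaskG2 → FlPM → FlInd → FlSep → TaskN4 → TaskN9 → NCb

/-- rigidity of inscribed cones with given geometry of the proper faces -/
def StepV (n : ℕ) : Prop := ∀ (ι : Type) [Fintype ι] (X X' : ι → LV n), NC n X → NC n X' →
  (∀ S, Face X S ↔ Face X' S) →
  (∀ S, Face X S → S ≠ Set.univ → ∀ i ∈ S, ∀ j ∈ S, B (X i) (X j) = B (X' i) (X' j)) →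
  ∀ i j, B (X i) (X j) = B (X' i) (X' j)

/-- N11: one step of the maximum principle -/
def StepMin : Prop := ∀ (m : ℕ), 2 ≤ m → ∀ (ι : Type) [Fintype ι] (X X' : ι → LV (m + 1)),
  NC (m + 1) X → NC (m + 1) X' → (∀ S, Face X S ↔ Face X' S) →
  (∀ S, Face X S → S ≠ Set.univ → ∀ i ∈ S, ∀ j ∈ S, B (X i) (X j) = B (X' i) (X' j)) →
  ∀ (j o : ι) (c : ℝ), ¬ Com X j o → B (X' j) (X' o) = c * B (X j) (X o) →
    (∀ k, B (X' k) (X' o) ≤ c * B (X k) (X o)) →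
    ∀ k, k ≠ j → Face X {j, k} → B (X' k) (X' o) = c * B (X k) (X o)

def TaskN11 : Prop := CompareQ → FlPM → NCa → NCb → TaskG2 → TaskG7 → StepMin

/-- N12: the maximum principle -/
def TaskN12 : Prop := StepMin → GenV → ∀ m : ℕ, 2 ≤ m → StepV (m + 1)

/-! ### The induction step -/

/-- N13: orthogonal projection along a unit spacelike vector -/
def ProjV : Prop := ∀ (n : ℕ) (v : LV (n + 1)), B v v = 1 →
  ∃ p : LV (n + 1) →ₗ[ℝ] LV n, Function.Surjective p ∧ LinearMap.ker p = Submodule.span ℝ {v} ∧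
    ∀ x y, B (p x) (p y) = B x y - B x v * B y v

/-- the geometry of the proper faces is the same -/
def FacGram (D : ℕ) : Prop := ∀ (ι : Type) [Fintype ι] (V V' : ι → LV D), GQ D V → GQ D V' →
  (∀ S, Face V S ↔ Face V' S) →
  ∀ S, Face V S → S ≠ Set.univ → ∀ i ∈ S, ∀ j ∈ S, B (V i) (V j) = B (V' i) (V' j)

/-- the geometry at the vertices is the same -/
def VtxGram (D : ℕ) : Prop := ∀ (ι : Type) [Fintype ι] (V V' : ι → LV D), GQ D V → GQ D V' →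
  (∀ S, Face V S ↔ Face V' S) →
  ∀ v i j, i ≠ v → j ≠ v → Face V {v, i} → Face V {v, j} → B (V i) (V j) = B (V' i) (V' j)

def TaskN14 : Prop := TaskG1 → TaskG2 → TaskG3 → TaskG7 → GenV → P7G → ProjV →
  ∀ D, 3 ≤ D → MainG D → FacGram (D + 1)

def TaskN15 : Prop := P1G → GenV → ProjV → ∀ D, 3 ≤ D → StepV D → FacGram (D + 1) → VtxGram (D + 1)

def TaskN16 : Prop := TaskG2 → TaskG3 → TaskG5 → GenV → P7G → ∀ D, 4 ≤ D → FacGram D → VtxGram D → MainG D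

end Pool.Agent.H242R3.ES
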