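import Mathlib
import Pool.Agent.H242R3.ES.Stmts

set_option autoImplicit false
open scoped Classical

namespace Pool.Agent.H242R3.ES

theorem final_of (hL1 : TaskL1) (hL2 : TaskL2) (hL3 : TaskL3) (hTL : TaskTL) (hC1 : TaskC1)
    (hC2 : TaskC2) (hC3 : TaskC3) (hC4 : TaskC4) (hP1 : TaskP1) (hP2 : TaskP2) (hP3 : TaskP3)
    (hPM : TaskPM) (hSum : TaskSum) (hStep : TaskStep) (hGlue : TaskGlue) (hF1 : TaskF1)
    (hF2a : TaskF2a) (hF2b : TaskF2b) (hF3 : TaskF3) (hFin : TaskFin) : Final := by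
  have hstep : StepI := hStep (hL3 hL1 hL2) hC1 hC2 hC3 hC4 hP1 hP2 (hPM hC1 hC4)
    (hSum hTL hC1 hC2 hC3 hP1 hP3)
  exact hFin (hGlue hC1 hC2 hstep) hC1 hC2 hF1 hF2a hF2b hF3

end Pool.Agent.H242R3.ES
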