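import Mathlib
import Pool.Agent.H242R3.ES.Stmts
import Pool.Agent.H242R3.ES.StmtsG

/-!
# PROJECT H242-ES, part K: dimension 3 (uniqueness in the midsphere theorem)
-/

set_option autoImplicit false
set_option maxHeartbeats 4000000

open MeasureTheory Finset
open scoped Classical

namespace Pool.Agent.H242R3.ES

/-- sum of the generators in a set -/
noncomputable def SY {ι E : Type} [Fintype ι] [AddCommGroup E] [Module ℝ E] (V : ι → E) (T : Set ι) : E :=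
  ∑ k ∈ Finset.univ.filter (· ∈ T), V k

/-- K0: the plane angle as a Gaussian integral -/
def PhiInt : Prop := ∀ c : ℝ, -1 < c → c < 1 →
  Real.sqrt (1 - c ^ 2) * ∫ x in {x : Fin 2 → ℝ | ∀ i, 0 ≤ x i},
    Real.exp (-Real.pi * (x 0 ^ 2 + x 1 ^ 2 + 2 * c * (x 0 * x 1))) = Real.arccos c / (2 * Real.pi)

/-- edges: faces of rank two -/
def Ed {ι : Type} (V : ι → LV 3) (e : Set ι) : Prop := Face V e ∧ rk V e = 2

/-- facets: faces of rank three -/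
def Fc {ι : Type} (V : ι → LV 3) (F : Set ι) : Prop := Face V F ∧ rk V F = 3

/-- normals of the facets -/
def NrmP {ι : Type} (V : ι → LV 3) (N : Set ι → LV 3) : Prop :=
  ∀ F, Fc V F → B (N F) (N F) = 1 ∧ ∀ i, B (V i) (N F) ≤ 0 ∧ (B (V i) (N F) = 0 ↔ i ∈ F)

/-- K1: edges -/
def EdgeB : Prop := ∀ (ι : Type) [Fintype ι] (V : ι → LV 3), GQ 3 V →
  (∀ e, Ed V e ↔ ∃ i j, i ≠ j ∧ e = {i, j} ∧ Face V {i, j}) ∧
  (∀ i j, i ≠ j → SY V {i, j} = V i + V j) ∧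
  (∀ e, Ed V e → B (SY V e) (SY V e) = 0 ∧ ∀ i, B (V i) (SY V e) ≤ 0 ∧ (B (V i) (SY V e) = 0 ↔ i ∈ e)) ∧
  (∀ e f, Ed V e → Ed V f → e ≠ f → B (SY V e) (SY V f) < 0) ∧
  ∀ e, Ed V e → ∃ F G, Fc V F ∧ Fc V G ∧ F ≠ G ∧ e = F ∩ G ∧ ∀ H, Fc V H → e ⊆ H → H = F ∨ H = G

def TaskK1 : Prop := TaskG2 → TaskG3 → TaskG4 → TaskG6 → P7G → EdgeB

/-- K2: normals exist -/
def Nrm : Prop := ∀ (ι : Type) [Fintype ι] (V : ι → LV 3), GQ 3 V → ∃ N, NrmP V N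

def TaskK2 : Prop := EdgeB → TaskG3 → P7G → Nrm

/-- K3: sum of the normals at an edge -/
def NSum : Prop := ∀ (ι : Type) [Fintype ι] (V : ι → LV 3), GQ 3 V → ∀ N, NrmP V N →
  ∀ F G, Fc V F → Fc V G → F ≠ G → Ed V (F ∩ G) → ∃ c : ℝ, 0 < c ∧ N F + N G = c • SY V (F ∩ G)

def TaskK3 : Prop := EdgeB → NSum

/-- K4: description of a cone by its facets -/
def HRep : Prop := ∀ (ι E : Type) [Fintype ι] [AddCommGroup E] [Module ℝ E] [FiniteDimensional ℝ E]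
  (V : ι → E) (S : Set ι), Face V S → Face V ∅ → S.Nonempty → ∀ y ∈ Submodule.span ℝ (V '' S),
  (∀ T, Cov V T S → ∀ l : E →ₗ[ℝ] ℝ, (∀ i ∈ S, 0 ≤ l (V i)) → (∀ i ∈ S, (i ∈ T ↔ l (V i) = 0)) → 0 ≤ l y) →
  ∃ a : ι → ℝ, (∀ i, 0 ≤ a i) ∧ (∀ i, a i ≠ 0 → i ∈ S) ∧ y = ∑ i, a i • V i

def TaskK4 : Prop := TaskG1 → TaskG2 → TaskG3 → HRep

/-- K5: dual descriptions at a vertex and at a facet -/
def RV : Prop := ∀ (ι : Type) [Fintype ι] (V : ι → LV 3), GQ 3 V → ∀ N, NrmP V N → ∀ v y, B y (V v) = 0 →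
  (∀ e, Ed V e → v ∈ e → B y (SY V e) ≤ 0) →
  ∃ a : Set ι → ℝ, (∀ F, 0 ≤ a F) ∧ (∀ F, a F ≠ 0 → Fc V F ∧ v ∈ F) ∧ y = ∑ F, a F • N F

def RN : Prop := ∀ (ι : Type) [Fintype ι] (V : ι → LV 3), GQ 3 V → ∀ N, NrmP V N → ∀ F, Fc V F →
  ∀ y, B y (N F) = 0 → (∀ e, Ed V e → e ⊆ F → B y (SY V e) ≤ 0) →
  ∃ a : ι → ℝ, (∀ i, 0 ≤ a i) ∧ (∀ i, a i ≠ 0 → i ∈ F) ∧ y = ∑ i, a i • V i

def TaskK5a : Prop := EdgeB → HRep → GenV → RV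

def TaskK5b : Prop := EdgeB → HRep → RN

/-- a configuration of vertices, facets and edges which is symmetric under duality -/
structure DP {ι κ ε : Type} [Fintype ι] [Fintype κ] [Fintype ε] (V : ι → LV 3) (N : κ → LV 3)
    (X : ε → LV 3) : Prop where
  nV : ∀ i, B (V i) (V i) = 1
  nN : ∀ F, B (N F) (N F) = 1
  nX : ∀ e, B (X e) (X e) = 0
  xx : ∀ e f, e ≠ f → B (X e) (X f) < 0
  vn : ∀ i F, B (V i) (N F) ≤ 0
  vx : ∀ i e, B (V i) (X e) ≤ 0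
  nx : ∀ F e, B (N F) (X e) ≤ 0
  sV : ∀ e, ∃ i j, i ≠ j ∧ (∀ k, B (V k) (X e) = 0 ↔ k = i ∨ k = j) ∧ ∃ c : ℝ, 0 < c ∧ V i + V j = c • X e
  sN : ∀ e, ∃ i j, i ≠ j ∧ (∀ k, B (N k) (X e) = 0 ↔ k = i ∨ k = j) ∧ ∃ c : ℝ, 0 < c ∧ N i + N j = c • X e
  fl : ∀ i F, B (V i) (N F) = 0 → ∃ e f, e ≠ f ∧ ∀ g, (B (V i) (X g) = 0 ∧ B (N F) (X g) = 0) ↔ g = e ∨ g = f
  rV : ∀ i y, B y (V i) = 0 → (∀ e, B (V i) (X e) = 0 → B y (X e) ≤ 0) →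
    ∃ a : κ → ℝ, (∀ F, 0 ≤ a F) ∧ (∀ F, a F ≠ 0 → B (V i) (N F) = 0) ∧ y = ∑ F, a F • N F
  rN : ∀ F y, B y (N F) = 0 → (∀ e, B (N F) (X e) = 0 → B y (X e) ≤ 0) →
    ∃ a : ι → ℝ, (∀ i, 0 ≤ a i) ∧ (∀ i, a i ≠ 0 → B (V i) (N F) = 0) ∧ y = ∑ i, a i • V i

/-- K6: an edge-scribed 3-polytope gives a dual pair -/
def DPC : Prop := ∀ (ι : Type) [Fintype ι] (V : ι → LV 3), GQ 3 V → ∀ N, NrmP V N →
  DP V (fun F : {F : Set ι // Fc V F} => N F) (fun e : {e : Set ι // Ed V e} => SY V e) ∧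
  ∀ F e, Fc V F → Ed V e → (B (N F) (SY V e) = 0 ↔ e ⊆ F)

def TaskK6 : Prop := TaskG2 → TaskG3 → TaskG4 → TaskG6 → EdgeB → NSum → RV → RN → DPC

/-- K7: linear algebra -/
def K7 : Prop := ∀ (a n p q x : LV 3), B a a = 1 → B n n = 1 → B a n = 0 → B a p = 0 → B a q = 0 →
  B n p = 0 → B n q = 0 → B p p = 0 → B q q = 0 → B p q ≠ 0 →
  B x x * B p q = (B a x ^ 2 + B n x ^ 2) * B p q + 2 * (B p x * B q x)

/-- K8: angle sums -/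
def AngA : Prop := ∀ (ι κ ε : Type) [Fintype ι] [Fintype κ] [Fintype ε] (V : ι → LV 3) (N : κ → LV 3)
  (X : ε → LV 3), DP V N X → ∀ (v : ι) (o : ε), B (V v) (X o) ≠ 0 →
  (∀ F, B (V v) (N F) = 0 → B (N F) (X o) ≠ 0) →
  ∑ F ∈ Finset.univ.filter (fun F => B (V v) (N F) = 0), Real.arctan (B (V v) (X o) / B (N F) (X o)) = Real.pi

def AngB : Prop := ∀ (ι κ ε : Type) [Fintype ι] [Fintype κ] [Fintype ε] (V : ι → LV 3) (N : κ → LV 3)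
  (X : ε → LV 3), DP V N X → ∀ (v : ι) (o : ε), B (V v) (X o) ≠ 0 →
  (∃ F, B (V v) (N F) = 0 ∧ B (N F) (X o) = 0) →
  ∑ F ∈ Finset.univ.filter (fun F => B (V v) (N F) = 0), Real.arctan (B (V v) (X o) / B (N F) (X o)) =
    Real.pi / 2

def TaskK8a : Prop := TaskTL → PhiInt → K7 → AngA

def TaskK8b : Prop := TaskTL → PhiInt → K7 → AngB

/-- angle sums for the polytope -/
def AngV : Prop := ∀ (ι : Type) [Fintype ι] (V : ι → LV 3), GQ 3 V → ∀ N, NrmP V N → ∀ o, Ed V o →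
  ∀ v, v ∉ o → ∑ F ∈ Finset.univ.filter (fun F => Fc V F ∧ v ∈ F),
    Real.arctan (B (V v) (SY V o) / B (N F) (SY V o)) =
      if (∃ F, Fc V F ∧ v ∈ F ∧ o ⊆ F) then Real.pi / 2 else Real.pi

def AngF : Prop := ∀ (ι : Type) [Fintype ι] (V : ι → LV 3), GQ 3 V → ∀ N, NrmP V N → ∀ o, Ed V o →
  ∀ F, Fc V F → ¬ o ⊆ F → ∑ v ∈ Finset.univ.filter (fun v => v ∈ F),
    Real.arctan (B (N F) (SY V o) / B (V v) (SY V o)) =
      if (∃ v, v ∈ F ∧ v ∈ o) then Real.pi / 2 else Real.pi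

def TaskK9 : Prop := EdgeB → DPC → AngA → AngB → AngV ∧ AngF

/-! ### connectivity -/

/-- connectivity of the graph outside a face -/
def CConn : Prop := ∀ (ι E : Type) [Fintype ι] [AddCommGroup E] [Module ℝ E] [FiniteDimensional ℝ E]
  (V : ι → E), (∀ i, Face V {i}) → Face V ∅ → ∀ R, Face V R → ∀ M : Set ι, (∃ i ∈ M, i ∉ R) →
  (∀ i k, i ∈ M → i ∉ R → k ∉ R → k ≠ i → Face V {i, k} → k ∈ M) → ∀ i, i ∉ R → i ∈ M

/-- connectivity of the graph of a face -/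
def SConn : Prop := ∀ (ι E : Type) [Fintype ι] [AddCommGroup E] [Module ℝ E] [FiniteDimensional ℝ E]
  (V : ι → E), (∀ i, Face V {i}) → Face V ∅ → ∀ S, Face V S → ∀ M : Set ι, (∃ i ∈ M, i ∈ S) →
  (∀ i k, i ∈ M → i ∈ S → k ∈ S → k ≠ i → Face V {i, k} → k ∈ M) → S ⊆ M

/-- connectivity at a vertex -/
def VConn : Prop := ∀ (ι E : Type) [Fintype ι] [AddCommGroup E] [Module ℝ E] [FiniteDimensional ℝ E]
  (V : ι → E), (∀ i, Face V {i}) → ∀ v (M : Set ι), (∃ w ∈ M, w ≠ v ∧ Face V {v, w}) →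
  (∀ w u T, w ∈ M → w ≠ v → u ≠ v → Face V {v, w} → Face V {v, u} → Face V T → rk V T = 3 →
    v ∈ T → w ∈ T → u ∈ T → u ∈ M) → ∀ u, u ≠ v → Face V {v, u} → u ∈ M

def TaskK10a : Prop := GenV → CConn ∧ SConn

def TaskK10b : Prop := TaskG2 → TaskG5 → GenV → VConn

/-- connectivity of vertices and facets away from an edge -/
def ConnK : Prop := ∀ (ι : Type) [Fintype ι] (V : ι → LV 3), GQ 3 V → ∀ o, Ed V o →
  ∀ (M : Set ι) (M' : Set (Set ι)),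
  (∀ i F, Fc V F → i ∈ F → i ∉ o → ¬ o ⊆ F → (i ∈ M ↔ F ∈ M')) →
  ((∃ i ∈ M, i ∉ o) ∨ (∃ F ∈ M', Fc V F ∧ ¬ o ⊆ F)) →
  (∀ i, i ∉ o → i ∈ M) ∧ ∀ F, Fc V F → ¬ o ⊆ F → F ∈ M'

def TaskK11 : Prop := TaskG2 → TaskG3 → EdgeB → CConn → ConnK

/-- maximum principle -/
def MaxP : Prop := ∀ (ι : Type) [Fintype ι] (V V' : ι → LV 3), GQ 3 V → GQ 3 V' →
  (∀ S, Face V S ↔ Face V' S) → ∀ N N', NrmP V N → NrmP V' N' → ∀ o, Ed V o → ∃ c : ℝ, 0 < c ∧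
    (∀ i, B (V' i) (SY V' o) = c * B (V i) (SY V o)) ∧
    ∀ F, Fc V F → B (N' F) (SY V' o) = c * B (N F) (SY V o)

def TaskK12 : Prop := TaskG7 → EdgeB → DPC → AngV → AngF → ConnK → MaxP

/-- gluing -/
def KGlue : Prop := ∀ (ι : Type) [Fintype ι] (V V' : ι → LV 3), GQ 3 V → GQ 3 V' →
  (∀ S, Face V S ↔ Face V' S) → ∀ N N', NrmP V N → NrmP V' N' →
  (∀ v w u F, Fc V F → v ∈ F → w ∈ F → u ∈ F → w ≠ v → u ≠ v → Face V {v, w} → Face V {v, u} →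
    B (V w) (V u) = B (V' w) (V' u)) →
  (∀ F G, Fc V F → Fc V G → F ≠ G → Ed V (F ∩ G) →
    ∃ c : ℝ, N F + N G = c • SY V (F ∩ G) ∧ N' F + N' G = c • SY V' (F ∩ G)) →
  ∃ T : LV 3 →ₗ[ℝ] LV 3, (∀ x y, B (T x) (T y) = B x y) ∧ ∀ i, T (V i) = V' i

def TaskK13 : Prop := TaskG2 → TaskG3 → TaskG4 → TaskG6 → TaskG7 → GenV → EdgeB → CConn → SConn → VConn → KGlue

/-- assembly of dimension 3 -/
def TaskK14 : Prop := TaskG2 → TaskG3 → TaskG7 → EdgeB → Nrm → NSum → K7 → DPC → MaxP → KGlue → MainG 3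

end Pool.Agent.H242R3.ES
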