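import Mathlib
import Pool.Agent.H242R3.ES.Stmts
import Pool.Agent.H242R3.ES.StmtsG
import Pool.Agent.H242R3.ES.StmtsN
import Pool.Agent.H242R3.ES.StmtsK

set_option autoImplicit false
open scoped Classical

namespace Pool.Agent.H242R3.ES

/-- part N: rigidity of inscribed cones -/
theorem stepV_of (hG2 : TaskG2) (hG3 : TaskG3) (hG4 : TaskG4) (hG6 : TaskG6) (hG7 : TaskG7) (hGenV : GenV)
    (hN1 : TaskN1) (hN2 : TaskN2) (hN3 : TaskN3) (hN4 : TaskN4) (hN5 : TaskN5) (hN6 : FlEx) (hN7 : FlUn)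
    (hN8a : TaskN8a) (hN8b : TaskN8b) (hN8c : TaskN8c) (hN8d : TaskN8d) (hN9 : TaskN9)
    (hN10a : TaskN10a) (hN10b : TaskN10b) (hN10c : TaskN10c) (hN11 : TaskN11) (hN12 : TaskN12) :
    ∀ m : ℕ, 2 ≤ m → StepV (m + 1) := by
  have hcmp : CompareQ := hN3 hN1 hN2
  have hpm : FlPM := hN5 hG2 hG3 hG4 hG6
  have hind : FlInd := hN8a hG2 hpm
  have hcov : FlCov := hN8b hG2 hpm hN6
  have hdis : FlDis := hN8c hpm hN7
  have htile : FlTile := hN8d hind hcov hdis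
  have hsep : FlSep := hN10c hG2 hG3 hG4 hG6 hpm hind
  have ha : NCa := hN10a hpm htile hN9
  have hb : NCb := hN10b hG2 hpm hind hsep hN4 hN9
  exact hN12 (hN11 hcmp hpm ha hb hG2 hG7) hGenV

/-- part K: dimension three -/
theorem main3_of (hG1 : TaskG1) (hG2 : TaskG2) (hG3 : TaskG3) (hG4 : TaskG4) (hG5 : TaskG5) (hG6 : TaskG6)
    (hG7 : TaskG7) (hGenV : GenV) (hP7 : P7G) (hTL : TaskTL) (hK0 : PhiInt) (hK1 : TaskK1) (hK2 : TaskK2)
    (hK3 : TaskK3) (hK4 : TaskK4) (hK5a : TaskK5a) (hK5b : TaskK5b) (hK6 : TaskK6) (hK7 : K7)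
    (hK8a : TaskK8a) (hK8b : TaskK8b) (hK9 : TaskK9) (hK10a : TaskK10a) (hK10b : TaskK10b)
    (hK11 : TaskK11) (hK12 : TaskK12) (hK13 : TaskK13) (hK14 : TaskK14) : MainG 3 := by
  have hE : EdgeB := hK1 hG2 hG3 hG4 hG6 hP7
  have hN : Nrm := hK2 hE hG3 hP7
  have hNS : NSum := hK3 hE
  have hH : HRep := hK4 hG1 hG2 hG3
  have hrv : RV := hK5a hE hH hGenV
  have hrn : RN := hK5b hE hH
  have hD : DPC := hK6 hG2 hG3 hG4 hG6 hE hNS hrv hrn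
  have hA := hK9 hE hD (hK8a hTL hK0 hK7) (hK8b hTL hK0 hK7)
  have hcs := hK10a hGenV
  have hV : VConn := hK10b hG2 hG5 hGenV
  have hC : ConnK := hK11 hG2 hG3 hE hcs.1
  have hM : MaxP := hK12 hG7 hE hD hA.1 hA.2 hC
  exact hK14 hG2 hG3 hG7 hE hN hNS hK7 hD hM (hK13 hG2 hG3 hG4 hG6 hG7 hGenV hE hcs.1 hcs.2 hV)

/-- the induction on the dimension -/
theorem main_of (hG1 : TaskG1) (hG2 : TaskG2) (hG3 : TaskG3) (hG5 : TaskG5)
    (hG7 : TaskG7) (hGenV : GenV) (hP1 : P1G) (hP7 : P7G) (h3 : MainG 3)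
    (hS : ∀ m : ℕ, 2 ≤ m → StepV (m + 1)) (hN13 : ProjV) (hN14 : TaskN14) (hN15 : TaskN15)
    (hN16 : TaskN16) : ∀ D, 3 ≤ D → MainG D := by
  intro D hD
  induction D, hD using Nat.le_induction with
  | base => exact h3
  | succ D hD ih =>
    have hF : FacGram (D + 1) := hN14 hG1 hG2 hG3 hG7 hGenV hP7 hN13 D hD ih
    have hSt : StepV D := by
      obtain ⟨m, rfl⟩ : ∃ m, D = m + 1 := ⟨D - 1, by omega⟩
      exact hS m (by omega)
    exact hN16 hG2 hG3 hG5 hGenV hP7 (D + 1) (by omega) hF (hN15 hP1 hGenV hN13 D hD hSt hF)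

end Pool.Agent.H242R3.ES
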