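import Pool.Agent.H242R3.ES.Stmts

/-! Task C3 (helper798): every proper face is contained in a facet. -/

set_option autoImplicit false

open scoped Classical

namespace Pool.Agent.H242R3.ES.C3H798

open Pool.Agent.H242R3.ES

/-- enlarging a face which is not a facet, one-sided version -/
lemma step {ι E : Type} [Fintype ι] [AddCommGroup E] [Module ℝ E]
    (V : ι → E) (S : Set ι) (l m : E →ₗ[ℝ] ℝ) (hl0 : ∀ i, 0 ≤ l (V i))
    (hlS : ∀ i, i ∈ S ↔ l (V i) = 0) (hmS : ∀ i ∈ S, m (V i) = 0) (hneg : ∃ i, m (V i) < 0) :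
    ∃ t : ℝ, 0 < t ∧ (∀ i, 0 ≤ (l + t • m) (V i)) ∧ (∀ i ∈ S, (l + t • m) (V i) = 0) ∧
      ∃ i, i ∉ S ∧ (l + t • m) (V i) = 0 := by
  obtain ⟨i1, hi1⟩ := hneg
  have hne : (Finset.univ.filter fun i => m (V i) < 0).Nonempty :=
    ⟨i1, Finset.mem_filter.mpr ⟨Finset.mem_univ _, hi1⟩⟩
  obtain ⟨i0, hi0, hmin⟩ := Finset.exists_min_image _ (fun i => l (V i) / (-(m (V i)))) hne
  rw [Finset.mem_filter] at hi0
  have hm0 : 0 < -(m (V i0)) := by linarith [hi0.2]
  have hi0S : i0 ∉ S := fun h => by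
    have := hmS i0 h
    linarith
  have hl0' : 0 < l (V i0) := lt_of_le_of_ne (hl0 i0) (fun h => hi0S ((hlS i0).mpr h.symm))
  refine ⟨l (V i0) / (-(m (V i0))), div_pos hl0' hm0, ?_, ?_, i0, hi0S, ?_⟩
  · intro i
    simp only [LinearMap.add_apply, LinearMap.smul_apply, smul_eq_mul]
    rcases lt_or_ge (m (V i)) 0 with h | h
    · have h1 := hmin i (Finset.mem_filter.mpr ⟨Finset.mem_univ _, h⟩)
      have h2 : 0 < -(m (V i)) := by linarith
      rw [le_div_iff₀ h2] at h1
      linarith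
    · have h1 : 0 ≤ l (V i0) / (-(m (V i0))) := (div_pos hl0' hm0).le
      have h2 := hl0 i
      have h3 := mul_nonneg h1 h
      linarith
  · intro i hi
    simp only [LinearMap.add_apply, LinearMap.smul_apply, smul_eq_mul]
    rw [(hlS i).mp hi, hmS i hi]
    ring
  · simp only [LinearMap.add_apply, LinearMap.smul_apply, smul_eq_mul]
    have h1 : l (V i0) / (-(m (V i0))) * (-(m (V i0))) = l (V i0) := div_mul_cancel₀ _ hm0.ne'
    linarith

theorem t : TaskC3 := by
  intro ι E _ _ _ _ V hSC R hR hRu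
  obtain ⟨S, hSmax⟩ := Set.Finite.exists_maximal
    (s := {S : Set ι | Face V S ∧ S ≠ Set.univ ∧ R ⊆ S}) (Set.toFinite _) ⟨R, hR, hRu, le_rfl⟩
  obtain ⟨⟨hSf, hSu, hRS⟩, hmax⟩ := hSmax
  have hli := hSC.simp S hSf hSu
  refine ⟨S.toFinset, by rwa [Set.coe_toFinset], by rwa [Set.coe_toFinset],
    by rwa [Set.coe_toFinset], ?_⟩
  obtain ⟨l, hl0, hlS⟩ := hSf
  set W := Submodule.span ℝ (Set.range (fun i : S => V i)) with hW
  have hWdim : Module.finrank ℝ W = Fintype.card S := finrank_span_eq_card hli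
  have hcard : S.toFinset.card = Fintype.card S := Set.toFinset_card S
  rw [hcard, ← hWdim]
  have hlne : l ≠ 0 := by
    rintro rfl
    apply hSu
    ext i
    simp [hlS i]
  have hlW : l ∈ W.dualAnnihilator := by
    rw [Submodule.mem_dualAnnihilator]
    intro w hw
    rw [hW] at hw
    induction hw using Submodule.span_induction with
    | mem x hx =>
      obtain ⟨i, rfl⟩ := hx
      exact (hlS i).mp i.2
    | zero => simp
    | add x y _ _ hx hy => rw [map_add, hx, hy, add_zero]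
    | smul c x _ hx => rw [map_smul, hx, smul_zero]
  have hsum := Subspace.finrank_add_finrank_dualAnnihilator_eq W
  have h1 : Module.finrank ℝ (Submodule.span ℝ {l} : Submodule ℝ (Module.Dual ℝ E)) = 1 :=
    finrank_span_singleton hlne
  have hle : (Submodule.span ℝ {l} : Submodule ℝ (Module.Dual ℝ E)) ≤ W.dualAnnihilator := by
    rw [Submodule.span_singleton_le_iff_mem]
    exact hlW
  have h2 : 1 ≤ Module.finrank ℝ W.dualAnnihilator := by
    rw [← h1]
    exact Submodule.finrank_mono hle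
  by_contra hcon
  have h3 : ∃ m ∈ W.dualAnnihilator, m ∉ (Submodule.span ℝ {l} : Submodule ℝ (Module.Dual ℝ E)) := by
    by_contra hno
    push Not at hno
    have h4 : W.dualAnnihilator ≤ (Submodule.span ℝ {l} : Submodule ℝ (Module.Dual ℝ E)) := hno
    have h5 := Submodule.finrank_mono h4
    omega
  obtain ⟨m, hmW, hml⟩ := h3
  have hm0 : ∀ i ∈ S, m (V i) = 0 := by
    intro i hi
    rw [Submodule.mem_dualAnnihilator] at hmW
    exact hmW _ (Submodule.subset_span ⟨⟨i, hi⟩, rfl⟩)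
  -- a functional vanishing on all `V i` is zero
  have hspan : ∀ f : E →ₗ[ℝ] ℝ, (∀ i, f (V i) = 0) → f = 0 := by
    intro f hf
    apply LinearMap.ext_on_range (v := V) hSC.span
    intro i
    rw [hf i, LinearMap.zero_apply]
  have hmne : m ≠ 0 := by
    rintro rfl
    exact hml (Submodule.zero_mem _)
  -- reduce to the one-sided version
  have key : ∃ m' : E →ₗ[ℝ] ℝ, (∀ i ∈ S, m' (V i) = 0) ∧
      m' ∉ (Submodule.span ℝ {l} : Submodule ℝ (Module.Dual ℝ E)) ∧ ∃ i, m' (V i) < 0 := by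
    have h6 : ∃ i, m (V i) ≠ 0 := by
      by_contra hno
      push Not at hno
      exact hmne (hspan m hno)
    obtain ⟨i, hi⟩ := h6
    rcases lt_or_gt_of_ne hi with h | h
    · exact ⟨m, hm0, hml, i, h⟩
    · refine ⟨-m, fun j hj => by simp [hm0 j hj], fun h' => hml ?_, i, by simpa using h⟩
      have := Submodule.neg_mem _ h'
      rwa [neg_neg] at this
  obtain ⟨m', hm'S, hm'l, hneg⟩ := key
  obtain ⟨t, ht, ha, hb, i, hiS, hi⟩ := step V S l m' hl0 hlS hm'S hneg
  have hfne : l + t • m' ≠ 0 := by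
    intro h
    apply hm'l
    rw [Submodule.mem_span_singleton]
    refine ⟨-(t⁻¹), ?_⟩
    have h7 : l = -(t • m') := eq_neg_of_add_eq_zero_left h
    rw [h7, smul_neg, neg_smul, neg_neg, smul_smul, inv_mul_cancel₀ ht.ne', one_smul]
  have hS' : {j | (l + t • m') (V j) = 0} ∈ {S : Set ι | Face V S ∧ S ≠ Set.univ ∧ R ⊆ S} := by
    refine ⟨⟨l + t • m', ha, fun j => Iff.rfl⟩, ?_, ?_⟩
    · intro h
      apply hfne
      apply hspan
      intro j
      have : j ∈ {j | (l + t • m') (V j) = 0} := by rw [h]; trivial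
      exact this
    · intro j hj
      exact hb j (hRS hj)
  have h8 := hmax hS' (fun j hj => hb j hj)
  exact hiS (h8 hi)

end Pool.Agent.H242R3.ES.C3H798
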