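import Pool.Agent.H242R3.ES.Stmts

set_option autoImplicit false

open Set

namespace Pool.Agent.H242R3.ES.F2aT

theorem ep_sub {D : ℕ} (V : Finset (Fin D → ℝ)) : EP V ⊆ (V : Set (Fin D → ℝ)) :=
  extremePoints_convexHull_subset

theorem hom_none {D : ℕ} (x : Fin D → ℝ) : hom x none = 1 := rfl
theorem hom_some {D : ℕ} (x : Fin D → ℝ) (i : Fin D) : hom x (some i) = x i := rfl

theorem vert {D : ℕ} (V : Finset (Fin D → ℝ)) (i : EP V) :
    Face (fun i : EP V => hom (i : Fin D → ℝ)) {i} := by
  classical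
  have hx := i.2
  have h1 : (i : Fin D → ℝ) ∉ convexHull ℝ ((V : Set (Fin D → ℝ)) \ {(i : Fin D → ℝ)}) := by
    have h2 := ((convex_convexHull ℝ (V : Set (Fin D → ℝ))).mem_extremePoints_iff_mem_sdiff_convexHull_sdiff).1 hx
    intro h3
    apply h2.2
    exact convexHull_mono (sdiff_subset_sdiff_left (subset_convexHull ℝ _)) h3
  have hfin : ((V : Set (Fin D → ℝ)) \ {(i : Fin D → ℝ)}).Finite := V.finite_toSet.subset sdiff_subset
  have hcl : IsClosed (convexHull ℝ ((V : Set (Fin D → ℝ)) \ {(i : Fin D → ℝ)})) :=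
    hfin.isClosed_convexHull ℝ
  obtain ⟨f, u, hfu, hux⟩ := geometric_hahn_banach_closed_point (convex_convexHull ℝ _) hcl h1
  let L : LV D →ₗ[ℝ] ℝ := (f (i : Fin D → ℝ)) • (LinearMap.proj none : LV D →ₗ[ℝ] ℝ) -
    (f : (Fin D → ℝ) →ₗ[ℝ] ℝ).comp (LinearMap.funLeft ℝ ℝ (some : Fin D → Option (Fin D)))
  have hL : ∀ y : Fin D → ℝ, L (hom y) = f (i : Fin D → ℝ) - f y := by
    intro y
    simp only [L, LinearMap.sub_apply, LinearMap.smul_apply, LinearMap.proj_apply, hom_none,
      smul_eq_mul, mul_one, LinearMap.comp_apply]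
    rfl
  have hlt : ∀ j : EP V, j ≠ i → f (j : Fin D → ℝ) < f (i : Fin D → ℝ) := by
    intro j hj
    refine lt_trans (hfu _ (subset_convexHull ℝ _ ⟨ep_sub V j.2, ?_⟩)) hux
    intro h
    exact hj (Subtype.ext h)
  refine ⟨L, fun j => ?_, fun j => ?_⟩
  · rw [hL]
    by_cases h : j = i
    · rw [h, sub_self]
    · exact (sub_pos.2 (hlt j h)).le
  · rw [hL, mem_singleton_iff]
    constructor
    · rintro rfl; exact sub_self _
    · intro h
      by_contra hne
      exact (sub_pos.2 (hlt j hne)).ne' h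

theorem span {D : ℕ} (V : Finset (Fin D → ℝ))
    (hint : (interior (convexHull ℝ (V : Set (Fin D → ℝ)))).Nonempty) :
    Submodule.span ℝ (Set.range fun i : EP V => hom (i : Fin D → ℝ)) = ⊤ := by
  by_contra hne
  obtain ⟨φ, hφ0, hφ⟩ := Submodule.exists_le_ker_of_lt_top _ (lt_top_iff_ne_top.2 hne)
  apply hφ0
  -- the affine function
  let ψ : (Fin D → ℝ) →ₗ[ℝ] ℝ := φ.comp
    (LinearMap.pi fun o : Option (Fin D) => Option.elim o 0 fun i => LinearMap.proj i)
  have hψ : ∀ y : Fin D → ℝ, φ (hom y) = φ (hom 0) + ψ y := by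
    intro y
    have : hom y = hom 0 + (LinearMap.pi fun o : Option (Fin D) =>
        Option.elim o (0 : (Fin D → ℝ) →ₗ[ℝ] ℝ) fun i => LinearMap.proj i) y := by
      funext o
      cases o with
      | none => simp [hom]
      | some i => simp [hom]
    rw [this, map_add]; rfl
  have hψc : Continuous ψ := LinearMap.continuous_of_finiteDimensional ψ
  have hcompact : IsCompact (convexHull ℝ (V : Set (Fin D → ℝ))) :=
    V.finite_toSet.isCompact_convexHull ℝ
  have hKM := closure_convexHull_extremePoints hcompact (convex_convexHull ℝ _)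
  have hzero : ∀ y ∈ convexHull ℝ (V : Set (Fin D → ℝ)), φ (hom 0) + ψ y = 0 := by
    have hcl : IsClosed {y : Fin D → ℝ | φ (hom 0) + ψ y = 0} :=
      isClosed_eq (by fun_prop) continuous_const
    have hcv : Convex ℝ {y : Fin D → ℝ | φ (hom 0) + ψ y = 0} := by
      intro x hx y hy a b _ _ hab
      simp only [mem_ofPred_eq] at hx hy ⊢
      rw [map_add, map_smul, map_smul, smul_eq_mul, smul_eq_mul]
      linear_combination a * hx + b * hy - (φ (hom 0)) * hab
    have hsub : (convexHull ℝ (V : Set (Fin D → ℝ))).extremePoints ℝ ⊆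
        {y : Fin D → ℝ | φ (hom 0) + ψ y = 0} := by
      intro y hy
      show φ (hom 0) + ψ y = 0
      rw [← hψ]
      exact hφ (Submodule.subset_span ⟨⟨y, hy⟩, rfl⟩)
    intro y hy
    rw [← hKM] at hy
    exact (closure_minimal (convexHull_min hsub hcv) hcl) hy
  obtain ⟨y0, hy0⟩ := hint
  have hy0' := hzero y0 (interior_subset hy0)
  have hψ0 : ψ = 0 := by
    ext v
    simp only [LinearMap.comp_apply, LinearMap.zero_comp, LinearMap.zero_apply]
    have hlim : Filter.Tendsto (fun t : ℝ => y0 + t • LinearMap.single ℝ (fun _ : Fin D => ℝ) v 1)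
        (nhds 0) (nhds y0) := by
      have : Continuous fun t : ℝ => y0 + t • LinearMap.single ℝ (fun _ : Fin D => ℝ) v 1 := by
        fun_prop
      simpa using this.tendsto 0
    have hev := hlim.eventually (isOpen_interior.mem_nhds hy0)
    obtain ⟨ε, hε, hball⟩ := Metric.eventually_nhds_iff.1 hev
    have h1 := hzero _ (interior_subset (hball (y := ε / 2) (by
      rw [Real.dist_eq, sub_zero, abs_of_pos (by linarith)]; linarith)))
    rw [map_add, map_smul, smul_eq_mul] at h1
    have h2 : ε / 2 * ψ (LinearMap.single ℝ (fun _ : Fin D => ℝ) v 1) = 0 := by linarith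
    rcases mul_eq_zero.1 h2 with h3 | h3
    · linarith
    · exact h3
  have hc0 : φ (hom 0) = 0 := by
    rw [hψ0, LinearMap.zero_apply, add_zero] at hy0'
    exact hy0'
  -- hence φ = 0
  apply LinearMap.ext
  intro h
  have hdec : h = h none • hom (0 : Fin D → ℝ) + (LinearMap.pi fun o : Option (Fin D) =>
        Option.elim o (0 : (Fin D → ℝ) →ₗ[ℝ] ℝ) fun i => LinearMap.proj i) (fun i => h (some i)) := by
    funext o
    cases o with
    | none => simp [hom]
    | some i => simp [hom]
  rw [hdec, map_add, map_smul, hc0, smul_zero, zero_add, LinearMap.zero_apply]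
  exact congrArg (fun g : (Fin D → ℝ) →ₗ[ℝ] ℝ => g fun i => h (some i)) hψ0

theorem simp' {D : ℕ} (hF1 : TaskF1) (V : Finset (Fin D → ℝ)) (hS : Simp V) (S : Set (EP V))
    (hf : Face (fun i : EP V => hom (i : Fin D → ℝ)) S) (hne : S ≠ univ) :
    LinearIndependent ℝ (fun i : S => hom ((i : EP V) : Fin D → ℝ)) := by
  rcases S.eq_empty_or_nonempty with h0 | h0
  · subst h0
    exact linearIndependent_empty_type
  let S' : Set (Fin D → ℝ) := Subtype.val '' S
  have h1 : S' ⊆ EP V := by rintro _ ⟨i, -, rfl⟩; exact i.2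
  have h2 : S'.Nonempty := h0.image _
  have h3 : {i : EP V | (i : Fin D → ℝ) ∈ S'} = S := by
    ext i
    constructor
    · rintro ⟨j, hj, hji⟩
      have : j = i := Subtype.ext hji
      rwa [this] at hj
    · intro hi; exact ⟨i, hi, rfl⟩
  have h4 : IsExposed ℝ (convexHull ℝ (V : Set (Fin D → ℝ))) (convexHull ℝ S') := by
    rw [hF1 D V S' h1 h2, h3]; exact hf
  have h5 : S' ≠ EP V := by
    intro h
    apply hne
    rw [← h3, h]
    ext i
    simp
  have h6 := hS S' h1 h5 h4
  let e : S ↪ S' := ⟨fun i => ⟨((i : EP V) : Fin D → ℝ), ⟨i, i.2, rfl⟩⟩, fun a b hab => by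
    have := congrArg (fun x : S' => (x : Fin D → ℝ)) hab
    exact Subtype.ext (Subtype.ext this)⟩
  have h7 := h6.comp_embedding e
  rw [affineIndependent_iff] at h7
  rw [linearIndependent_iff']
  intro s g hg i hi
  refine h7 s g ?_ ?_ i hi
  · have := congrFun hg none
    simpa [Finset.sum_apply, hom] using this
  · funext k
    have := congrFun hg (some k)
    have h8 : ∑ c ∈ s, g c * ((c : EP V) : Fin D → ℝ) k = 0 := by
      simpa [Finset.sum_apply, hom] using this
    rw [Finset.sum_apply]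
    exact h8

theorem main : TaskF2a := by
  intro hF1 D _ V hint hS
  let _ : Fintype (EP V) := (V.finite_toSet.subset (ep_sub V)).fintype
  exact ⟨inferInstance, ⟨vert V, span V hint, fun S hf hne => simp' hF1 V hS S hf hne⟩⟩

end Pool.Agent.H242R3.ES.F2aT

namespace Pool.Agent.H242R3.ES.F2a

theorem t : TaskF2a := Pool.Agent.H242R3.ES.F2aT.main

end Pool.Agent.H242R3.ES.F2a
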