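import Mathlib
import Pool.Agent.H242R3.ES.Stmts

set_option autoImplicit false

/-! # Task F3 of the project H242-ES (by helper861) -/

open Finset Matrix
open scoped Classical

namespace Pool.Agent.H242R3.ES

namespace F3

/-- signature -/
def sgn {D : ℕ} (i : Option (Fin D)) : ℝ := Option.elim i (-1 : ℝ) (fun _ => (1 : ℝ))

lemma B_eq {D : ℕ} (x y : LV D) : B x y = ∑ k, x k * sgn k * y k := by
  rw [Fintype.sum_option, B]
  simp only [sgn, Option.elim]
  have : ∀ i : Fin D, x (some i) * 1 * y (some i) = x (some i) * y (some i) := fun i => by ring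
  rw [Finset.sum_congr rfl fun i _ => this i]
  ring

lemma lorentz {D : ℕ} (T : LV D →ₗ[ℝ] LV D) (hT : ∀ x y, B (T x) (T y) = B x y) :
    (LinearMap.toMatrix' T).transpose * Matrix.diagonal (fun i => Option.elim i (-1 : ℝ)
      (fun _ => (1 : ℝ))) * (LinearMap.toMatrix' T)
        = Matrix.diagonal (fun i => Option.elim i (-1 : ℝ) (fun _ => (1 : ℝ))) := by
  have h0 : (fun i : Option (Fin D) => Option.elim i (-1 : ℝ) (fun _ => (1 : ℝ))) = sgn := rfl
  rw [h0]
  ext i j
  rw [Matrix.mul_apply]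
  have h1 : ∀ k : Option (Fin D), ((LinearMap.toMatrix' T).transpose * Matrix.diagonal sgn :
      Matrix (Option (Fin D)) (Option (Fin D)) ℝ) i k *
      (LinearMap.toMatrix' T) k j = T (Pi.single i 1) k * sgn k * T (Pi.single j 1) k := by
    intro k
    rw [Matrix.mul_diagonal, Matrix.transpose_apply, LinearMap.toMatrix'_apply,
      LinearMap.toMatrix'_apply]
  rw [Finset.sum_congr rfl fun k _ => h1 k, ← B_eq, hT, B_eq, Matrix.diagonal_apply]
  rw [Finset.sum_eq_single i]
  · by_cases h : i = j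
    · subst h; simp
    · simp [h]
  · intro k _ hk
    simp [hk, Pi.single_apply]
  · intro h
    exact absurd (Finset.mem_univ _) h

lemma hull {D : ℕ} (V : Finset (Fin D → ℝ)) :
    convexHull ℝ (V : Set (Fin D → ℝ)) = convexHull ℝ (EP V) := by
  have h1 : (EP V).Finite := V.finite_toSet.subset extremePoints_convexHull_subset
  have h2 := closure_convexHull_extremePoints
    (V.finite_toSet.isCompact_convexHull (𝕜 := ℝ)) (convex_convexHull ℝ (V : Set (Fin D → ℝ)))
  rw [← h2]
  exact (h1.isCompact_convexHull (𝕜 := ℝ)).isClosed.closure_eq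

lemma hom_sum {D : ℕ} (S : Finset (Fin D → ℝ)) (w : (Fin D → ℝ) → ℝ) (hw : ∑ a ∈ S, w a = 1) :
    hom (∑ a ∈ S, w a • a) = ∑ a ∈ S, w a • hom a := by
  ext i
  rw [Finset.sum_apply]
  cases i with
  | none =>
    simp only [hom, Option.elim, Pi.smul_apply, smul_eq_mul, mul_one]
    exact hw.symm
  | some j =>
    simp only [hom, Option.elim, Pi.smul_apply, smul_eq_mul, Finset.sum_apply]

end F3

open F3 in
theorem F3.t : TaskF3 := by
  intro D V W f hV hf T hT hc
  have hVf : (EP V).Finite := V.finite_toSet.subset extremePoints_convexHull_subset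
  have hWf : (EP W).Finite := W.finite_toSet.subset extremePoints_convexHull_subset
  obtain ⟨S, hS⟩ : ∃ S : Finset (Fin D → ℝ), (S : Set (Fin D → ℝ)) = EP V :=
    ⟨hVf.toFinset, hVf.coe_toFinset⟩
  have hSW : ((S.image f : Finset (Fin D → ℝ)) : Set (Fin D → ℝ)) = EP W := by
    rw [Finset.coe_image, hS]
    exact hf.image_eq
  have hinj : Set.InjOn f (S : Set (Fin D → ℝ)) := by rw [hS]; exact hf.injOn
  have hc' : ∀ a, ∃ c : ℝ, a ∈ S → 0 < c ∧ T (hom a) = c • hom (f a) := by
    intro a
    by_cases ha : a ∈ S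
    · obtain ⟨c, h1, h2⟩ := hc a (by rw [← hS]; exact ha)
      exact ⟨c, fun _ => ⟨h1, h2⟩⟩
    · exact ⟨0, fun h => absurd h ha⟩
  choose c hc using hc'
  -- the value at a convex combination
  have hval : ∀ w : (Fin D → ℝ) → ℝ, ∑ a ∈ S, w a = 1 →
      T (hom (∑ a ∈ S, w a • a)) = ∑ a ∈ S, (w a * c a) • hom (f a) := by
    intro w hw
    rw [hom_sum S w hw, map_sum]
    refine Finset.sum_congr rfl fun a ha => ?_
    rw [map_smul, (hc a ha).2, smul_smul]
  have hnone : ∀ w : (Fin D → ℝ) → ℝ, ∑ a ∈ S, w a = 1 →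
      T (hom (∑ a ∈ S, w a • a)) none = ∑ a ∈ S, w a * c a := by
    intro w hw
    rw [hval w hw, Finset.sum_apply]
    refine Finset.sum_congr rfl fun a _ => ?_
    simp [hom]
  have hsome : ∀ w : (Fin D → ℝ) → ℝ, ∑ a ∈ S, w a = 1 → ∀ j,
      T (hom (∑ a ∈ S, w a • a)) (some j) = ∑ a ∈ S, w a * c a * f a j := by
    intro w hw j
    rw [hval w hw, Finset.sum_apply]
    refine Finset.sum_congr rfl fun a _ => ?_
    simp [hom]
  have hpos : ∀ w : (Fin D → ℝ) → ℝ, (∀ a ∈ S, 0 ≤ w a) → ∑ a ∈ S, w a = 1 →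
      0 < ∑ a ∈ S, w a * c a := by
    intro w hw0 hw
    have h1 : ∃ a ∈ S, w a ≠ 0 := by
      by_contra hcon
      push Not at hcon
      rw [Finset.sum_eq_zero hcon] at hw
      exact zero_ne_one hw
    obtain ⟨a, ha, hwa⟩ := h1
    exact Finset.sum_pos' (fun b hb => mul_nonneg (hw0 b hb) (hc b hb).1.le)
      ⟨a, ha, mul_pos (lt_of_le_of_ne (hw0 a ha) (Ne.symm hwa)) (hc a ha).1⟩
  have hmul : ∀ x : Fin D → ℝ, (LinearMap.toMatrix' T) *ᵥ
      (fun i : Option (Fin D) => Option.elim i (1 : ℝ) x) = T (hom x) := fun x =>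
    LinearMap.toMatrix'_mulVec T (hom x)
  refine ⟨LinearMap.toMatrix' T, lorentz T hT, ?_, ?_⟩
  · intro x hx
    rw [hull V, ← hS, Finset.mem_convexHull'] at hx
    obtain ⟨w, hw0, hw1, rfl⟩ := hx
    rw [hmul, hnone w hw1]
    exact (hpos w hw0 hw1).ne'
  · ext y
    simp only [Set.mem_image, hmul]
    constructor
    · rintro ⟨x, hx, rfl⟩
      rw [hull V, ← hS, Finset.mem_convexHull'] at hx
      obtain ⟨w, hw0, hw1, rfl⟩ := hx
      set N := ∑ a ∈ S, w a * c a with hN
      have hNp : 0 < N := hpos w hw0 hw1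
      have hy : (fun j : Fin D => T (hom (∑ a ∈ S, w a • a)) (some j) /
          T (hom (∑ a ∈ S, w a • a)) none) = ∑ a ∈ S, (w a * c a / N) • f a := by
        ext j
        rw [hnone w hw1, hsome w hw1, Finset.sum_apply, ← hN, Finset.sum_div]
        refine Finset.sum_congr rfl fun a _ => ?_
        rw [Pi.smul_apply, smul_eq_mul]
        ring
      rw [hy, hull W]
      refine (convex_convexHull ℝ _).sum_mem ?_ ?_ ?_
      · intro a ha
        exact div_nonneg (mul_nonneg (hw0 a ha) (hc a ha).1.le) hNp.le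
      · rw [← Finset.sum_div, ← hN, div_self hNp.ne']
      · intro a ha
        apply subset_convexHull
        rw [← hSW]
        exact Finset.mem_coe.2 (Finset.mem_image_of_mem f ha)
    · intro hy
      rw [hull W, ← hSW, Finset.mem_convexHull'] at hy
      obtain ⟨v, hv0, hv1, hy⟩ := hy
      rw [Finset.sum_image hinj] at hv1 hy
      have hv0' : ∀ a ∈ S, 0 ≤ v (f a) := fun a ha => hv0 _ (Finset.mem_image_of_mem f ha)
      set K := ∑ a ∈ S, v (f a) / c a with hK
      have hKp : 0 < K := by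
        have h1 : ∃ a ∈ S, v (f a) ≠ 0 := by
          by_contra hcon
          push Not at hcon
          rw [Finset.sum_eq_zero hcon] at hv1
          exact zero_ne_one hv1
        obtain ⟨a, ha, hva⟩ := h1
        exact Finset.sum_pos' (fun b hb => div_nonneg (hv0' b hb) (hc b hb).1.le)
          ⟨a, ha, div_pos (lt_of_le_of_ne (hv0' a ha) (Ne.symm hva)) (hc a ha).1⟩
      let w : (Fin D → ℝ) → ℝ := fun a => v (f a) / c a / K
      have hw0 : ∀ a ∈ S, 0 ≤ w a := fun a ha =>
        div_nonneg (div_nonneg (hv0' a ha) (hc a ha).1.le) hKp.le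
      have hw1 : ∑ a ∈ S, w a = 1 := by
        show ∑ a ∈ S, v (f a) / c a / K = 1
        rw [← Finset.sum_div, ← hK, div_self hKp.ne']
      have hwc : ∀ a ∈ S, w a * c a = v (f a) / K := by
        intro a ha
        have := (hc a ha).1.ne'
        show v (f a) / c a / K * c a = v (f a) / K
        field_simp
      have hN : ∑ a ∈ S, w a * c a = 1 / K := by
        rw [Finset.sum_congr rfl hwc, ← Finset.sum_div, hv1]
      refine ⟨∑ a ∈ S, w a • a, ?_, ?_⟩
      · rw [hull V, ← hS, Finset.mem_convexHull']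
        exact ⟨w, hw0, hw1, rfl⟩
      · rw [← hy]
        ext j
        rw [hnone w hw1, hsome w hw1, Finset.sum_apply, hN]
        have h1 : ∀ a ∈ S, w a * c a * f a j = v (f a) * f a j / K := by
          intro a ha
          rw [hwc a ha]
          ring
        rw [Finset.sum_congr rfl h1, ← Finset.sum_div]
        have h2 : ∀ a ∈ S, (v (f a) • f a) j = v (f a) * f a j := fun a _ => by
          rw [Pi.smul_apply, smul_eq_mul]
        rw [Finset.sum_congr rfl h2]
        field_simp

end Pool.Agent.H242R3.ES
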