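import Pool.Agent.H242R3.ES.StmtsG

/-! Task G8 (helper247): generation at a vertex by its neighbours inside a face. -/

set_option autoImplicit false

open scoped Classical

namespace Pool.Agent.H242R3.ES.G8H247

open Pool.Agent.H242R3.ES

theorem t : TaskG8 := by
  intro h5 h6 ι E _ _ _ _ V hvert v S hS hvS i hiS
  rcases eq_or_ssubset_of_subset (Set.singleton_subset_iff.2 hvS) with h | h
  · have hi : i = v := by
      rw [← h] at hiS
      exact hiS
    subst hi
    exact ⟨1, fun _ => 0, fun _ => le_rfl, fun k hk => absurd rfl hk, by simp⟩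
  · obtain ⟨y, a, hy, ha, hk, hsum⟩ := h5 ι E V {v} S (hvert v) hS h i hiS
    rw [Set.image_singleton, Submodule.mem_span_singleton] at hy
    obtain ⟨c, rfl⟩ := hy
    refine ⟨c, a, ha, fun k hak => ?_, hsum⟩
    obtain ⟨hkS, hkv, T, hT, -, hkT⟩ := hk k hak
    obtain ⟨k', hk', rfl⟩ := h6 ι E V hvert v T hT
    have hkv' : k ≠ v := fun h => hkv h
    have : k = k' := by
      rcases hkT with h | h
      · exact absurd h hkv'
      · exact h
    subst this
    exact ⟨hkS, hkv', hT.2.1⟩

end Pool.Agent.H242R3.ES.G8H247
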