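import Pool.Agent.H242R3.ES.StmtsK

/-! Task K0 (helper247): the plane angle as a Gaussian integral. -/

set_option autoImplicit false

open MeasureTheory Set Filter Topology

namespace Pool.Agent.H242R3.ES.K0H247

/-- the positive quadratic polynomial -/
theorem q_pos {c : ℝ} (h1 : -1 < c) (h2 : c < 1) (t : ℝ) : 0 < t ^ 2 + 2 * c * t + 1 := by
  nlinarith [sq_nonneg (t + c), mul_pos (by linarith : (0:ℝ) < 1 - c) (by linarith : (0:ℝ) < 1 + c)]

theorem int1 {b : ℝ} (hb : 0 < b) :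
    ∫ x in Ioi (0 : ℝ), x * Real.exp (-b * x ^ 2) = 1 / (2 * b) := by
  have hderiv : ∀ x ∈ Ici (0 : ℝ), HasDerivAt (fun x : ℝ => -(1 / (2 * b)) * Real.exp (-b * x ^ 2))
      (x * Real.exp (-b * x ^ 2)) x := by
    intro x _
    have h1 : HasDerivAt (fun x : ℝ => -b * x ^ 2) (-b * (2 * x)) x := by
      have := (hasDerivAt_pow 2 x).const_mul (-b)
      simpa using this
    have h2 := (h1.exp).const_mul (-(1 / (2 * b)))
    refine h2.congr_deriv ?_
    field_simp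
  have hlim : Tendsto (fun x : ℝ => -(1 / (2 * b)) * Real.exp (-b * x ^ 2)) atTop (𝓝 0) := by
    have h1 : Tendsto (fun x : ℝ => -b * x ^ 2) atTop atBot := by
      have h2 : Tendsto (fun x : ℝ => x ^ 2) atTop atTop := tendsto_pow_atTop (by norm_num)
      exact h2.const_mul_atTop_of_neg (by linarith)
    have h3 := (Real.tendsto_exp_atBot.comp h1).const_mul (-(1 / (2 * b)))
    simpa using h3
  have := integral_Ioi_of_hasDerivAt_of_nonneg' hderiv
    (fun x hx => mul_nonneg (le_of_lt hx) (Real.exp_pos _).le) hlim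
  rw [this]
  simp

theorem main {c : ℝ} (hc1 : -1 < c) (hc2 : c < 1) :
    IntegrableOn (fun t : ℝ => 1 / (2 * (Real.pi * (t ^ 2 + 2 * c * t + 1)))) (Ioi 0) ∧
    ∫ t in Ioi (0 : ℝ), 1 / (2 * (Real.pi * (t ^ 2 + 2 * c * t + 1))) =
      Real.arccos c / (2 * Real.pi) / Real.sqrt (1 - c ^ 2) := by
  have hs2 : 0 < 1 - c ^ 2 := by nlinarith
  set s := Real.sqrt (1 - c ^ 2) with hs
  have hspos : 0 < s := Real.sqrt_pos.2 hs2
  have hss : s ^ 2 = 1 - c ^ 2 := Real.sq_sqrt hs2.le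
  have hpi := Real.pi_pos
  have hderiv : ∀ t ∈ Ici (0 : ℝ), HasDerivAt
      (fun t : ℝ => 1 / (2 * Real.pi * s) * Real.arctan ((t + c) / s))
      (1 / (2 * (Real.pi * (t ^ 2 + 2 * c * t + 1)))) t := by
    intro t _
    have h1 : HasDerivAt (fun t : ℝ => (t + c) / s) (1 / s) t :=
      ((hasDerivAt_id t).add_const c).div_const s
    have h2 := (h1.arctan).const_mul (1 / (2 * Real.pi * s))
    refine h2.congr_deriv ?_
    have hq := q_pos hc1 hc2 t
    have h3 : 1 + ((t + c) / s) ^ 2 = (t ^ 2 + 2 * c * t + 1) / s ^ 2 := by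
      rw [div_pow, eq_div_iff (by positivity), add_mul, div_mul_cancel₀ _ (by positivity), hss]
      ring
    rw [h3]
    field_simp
  have hlim : Tendsto (fun t : ℝ => 1 / (2 * Real.pi * s) * Real.arctan ((t + c) / s)) atTop
      (𝓝 (1 / (2 * Real.pi * s) * (Real.pi / 2))) := by
    apply Tendsto.const_mul
    have h1 : Tendsto (fun t : ℝ => (t + c) / s) atTop atTop :=
      (tendsto_atTop_add_const_right _ _ tendsto_id).atTop_div_const hspos
    exact (Real.tendsto_arctan_atTop.mono_right nhdsWithin_le_nhds).comp h1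
  have hnn : ∀ t ∈ Ioi (0 : ℝ), 0 ≤ 1 / (2 * (Real.pi * (t ^ 2 + 2 * c * t + 1))) := by
    intro t _
    have hq := q_pos hc1 hc2 t
    positivity
  refine ⟨integrableOn_Ioi_deriv_of_nonneg' hderiv hnn hlim, ?_⟩
  rw [integral_Ioi_of_hasDerivAt_of_nonneg' hderiv hnn hlim, Real.arccos_eq_pi_div_two_sub_arcsin,
    Real.arcsin_eq_arctan ⟨hc1, hc2⟩, zero_add]
  rw [← hs]
  field_simp

theorem t : PhiInt := by
  intro c hc1 hc2
  have hpi := Real.pi_pos
  have hs2 : 0 < 1 - c ^ 2 := by nlinarith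
  have hspos : 0 < Real.sqrt (1 - c ^ 2) := Real.sqrt_pos.2 hs2
  let F : ℝ × ℝ → ℝ := fun z => Real.exp (-Real.pi * (z.1 ^ 2 + z.2 ^ 2 + 2 * c * (z.1 * z.2)))
  have hFint : Integrable F (volume.prod volume) := by
    have hk : 0 < Real.pi * (1 - |c|) := mul_pos hpi (by rw [sub_pos, abs_lt]; exact ⟨hc1, hc2⟩)
    have h1 := (integrable_exp_neg_mul_sq hk).mul_prod (integrable_exp_neg_mul_sq hk)
    refine h1.mono' (Continuous.aestronglyMeasurable (by fun_prop)) ?_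
    refine Eventually.of_forall (fun z => ?_)
    rw [Real.norm_eq_abs, abs_of_pos (Real.exp_pos _), ← Real.exp_add]
    apply Real.exp_le_exp.2
    have h2 : -(|c| * (z.1 ^ 2 + z.2 ^ 2)) ≤ 2 * c * (z.1 * z.2) := by
      have h3 : |2 * c * (z.1 * z.2)| ≤ |c| * (z.1 ^ 2 + z.2 ^ 2) := by
        rw [abs_mul, abs_mul, abs_two, abs_mul]
        have h4 : 2 * (|z.1| * |z.2|) ≤ z.1 ^ 2 + z.2 ^ 2 := by
          nlinarith [sq_nonneg (|z.1| - |z.2|), sq_abs z.1, sq_abs z.2]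
        nlinarith [abs_nonneg c]
      exact (abs_le.1 h3).1
    nlinarith
  -- reduction to the plane
  have hset : {x : Fin 2 → ℝ | ∀ i, 0 ≤ x i} =
      (MeasurableEquiv.finTwoArrow : (Fin 2 → ℝ) ≃ᵐ ℝ × ℝ) ⁻¹' (Ici 0 ×ˢ Ici 0) := by
    ext x
    simp [Fin.forall_fin_two, MeasurableEquiv.finTwoArrow]
  have h1 : ∫ x in {x : Fin 2 → ℝ | ∀ i, 0 ≤ x i},
      Real.exp (-Real.pi * (x 0 ^ 2 + x 1 ^ 2 + 2 * c * (x 0 * x 1))) =
      ∫ z in Ici (0 : ℝ) ×ˢ Ici (0 : ℝ), F z := by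
    rw [hset]
    exact (volume_preserving_finTwoArrow ℝ).setIntegral_preimage_emb
      (MeasurableEquiv.measurableEmbedding _) F _
  have h2 : ∫ z in Ici (0 : ℝ) ×ˢ Ici (0 : ℝ), F z = ∫ x in Ici (0 : ℝ), ∫ y in Ici (0 : ℝ), F (x, y) :=
    setIntegral_prod F hFint.integrableOn
  have h3 : ∫ x in Ici (0 : ℝ), ∫ y in Ici (0 : ℝ), F (x, y) =
      ∫ x in Ioi (0 : ℝ), ∫ t in Ioi (0 : ℝ), x * Real.exp (-(Real.pi * (t ^ 2 + 2 * c * t + 1)) * x ^ 2) := by
    rw [integral_Ici_eq_integral_Ioi]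
    refine setIntegral_congr_fun measurableSet_Ioi (fun x hx => ?_)
    have hx' : (0 : ℝ) < x := hx
    show ∫ y in Ici (0 : ℝ), F (x, y) = _
    rw [integral_Ici_eq_integral_Ioi]
    have h4 := integral_comp_mul_left_Ioi' (fun y => F (x, y)) 0 hx'
    rw [mul_zero] at h4
    rw [← h4, smul_eq_mul, ← integral_const_mul]
    refine setIntegral_congr_fun measurableSet_Ioi (fun t _ => ?_)
    show x * Real.exp (-Real.pi * (x ^ 2 + (x * t) ^ 2 + 2 * c * (x * (x * t)))) = _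
    congr 2
    ring
  have h5 : ∫ x in Ioi (0 : ℝ), ∫ t in Ioi (0 : ℝ),
      x * Real.exp (-(Real.pi * (t ^ 2 + 2 * c * t + 1)) * x ^ 2) =
      ∫ t in Ioi (0 : ℝ), ∫ x in Ioi (0 : ℝ),
      x * Real.exp (-(Real.pi * (t ^ 2 + 2 * c * t + 1)) * x ^ 2) := by
    apply integral_integral_swap
    rw [integrable_prod_iff' (Continuous.aestronglyMeasurable (by unfold Function.uncurry; fun_prop))]
    refine ⟨Eventually.of_forall (fun t => ?_), ?_⟩
    · exact (integrable_mul_exp_neg_mul_sq (mul_pos hpi (q_pos hc1 hc2 t))).integrableOn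
    · refine (main hc1 hc2).1.congr ?_
      refine Eventually.of_forall (fun t => ?_)
      have hb := mul_pos hpi (q_pos hc1 hc2 t)
      show 1 / (2 * (Real.pi * (t ^ 2 + 2 * c * t + 1))) =
        ∫ x in Ioi (0 : ℝ), ‖x * Real.exp (-(Real.pi * (t ^ 2 + 2 * c * t + 1)) * x ^ 2)‖
      rw [← int1 hb]
      refine setIntegral_congr_fun measurableSet_Ioi (fun x hx => ?_)
      have hx' : (0 : ℝ) < x := hx
      show _ = ‖_‖
      rw [Real.norm_eq_abs, abs_of_pos (mul_pos hx' (Real.exp_pos _))]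
  have h6 : ∫ t in Ioi (0 : ℝ), ∫ x in Ioi (0 : ℝ),
      x * Real.exp (-(Real.pi * (t ^ 2 + 2 * c * t + 1)) * x ^ 2) =
      Real.arccos c / (2 * Real.pi) / Real.sqrt (1 - c ^ 2) := by
    rw [← (main hc1 hc2).2]
    refine setIntegral_congr_fun measurableSet_Ioi (fun t _ => ?_)
    exact int1 (mul_pos hpi (q_pos hc1 hc2 t))
  rw [h1, h2, h3, h5, h6]
  field_simp

end Pool.Agent.H242R3.ES.K0H247
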