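import Pool.Agent.H242R3.ES.StmtsK

/-!
# Task K10a: connectivity of graphs of cones
-/

set_option autoImplicit false

open Finset
open scoped Classical

namespace Pool.Agent.H242R3.ES
namespace K10aH340

theorem k10a_step (hG : GenV) {ι E : Type} [Fintype ι] [AddCommGroup E] [Module ℝ E]
    [FiniteDimensional ℝ E] (V : ι → E) (hv : ∀ i, Face V {i}) (τ f : E →ₗ[ℝ] ℝ)
    (hτ : ∀ i, 0 < τ (V i)) (S : Set ι) (hS : Face V S) (i t : ι) (hi : i ∈ S) (ht : t ∈ S)
    (hlt : f (V i) / τ (V i) < f (V t) / τ (V t)) :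
    ∃ k ∈ S, k ≠ i ∧ Face V {i, k} ∧ f (V i) / τ (V i) < f (V k) / τ (V k) := by
  obtain ⟨y, a, ha, hk, heq⟩ := hG ι E V hv i S hS hi t ht
  set c : ℝ := f (V i) / τ (V i) with hc
  have hi0 : f (V i) - c * τ (V i) = 0 := by
    rw [hc, div_mul_cancel₀ _ (hτ i).ne', sub_self]
  have ht0 : 0 < f (V t) - c * τ (V t) := by
    rw [lt_div_iff₀ (hτ t)] at hlt
    linarith
  have hsum : f (V t) - c * τ (V t) = ∑ k, a k * (f (V k) - c * τ (V k)) := by
    have h1 : f (V t) = y * f (V i) + ∑ k, a k * f (V k) := by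
      rw [heq]
      simp [map_add, map_sum]
    have h2 : τ (V t) = y * τ (V i) + ∑ k, a k * τ (V k) := by
      rw [heq]
      simp [map_add, map_sum]
    have h3 : ∑ k, a k * (f (V k) - c * τ (V k)) = ∑ k, a k * f (V k) - c * ∑ k, a k * τ (V k) := by
      rw [Finset.mul_sum, ← Finset.sum_sub_distrib]
      refine Finset.sum_congr rfl fun k _ => ?_
      ring
    rw [h3, h1, h2]
    linear_combination y * hi0
  by_contra hcon
  push Not at hcon
  have hle : ∑ k, a k * (f (V k) - c * τ (V k)) ≤ 0 := by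
    refine Finset.sum_nonpos fun k _ => ?_
    by_cases hak : a k = 0
    · rw [hak, zero_mul]
    · obtain ⟨h1, h2, h3⟩ := hk k hak
      have h4 := hcon k h1 h2 h3
      rw [div_le_iff₀ (hτ k)] at h4
      have h5 : f (V k) - c * τ (V k) ≤ 0 := by linarith
      exact mul_nonpos_of_nonneg_of_nonpos (ha k) h5
  rw [← hsum] at hle
  linarith

theorem k10a_univ {ι E : Type} [AddCommGroup E] [Module ℝ E] (V : ι → E) : Face V Set.univ :=
  ⟨0, by simp, by simp⟩

theorem k10a_cconn (hG : GenV) : CConn := by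
  intro ι E _ _ _ _ V hv h0 R hR M hM hcl
  obtain ⟨τ, hτ1, hτ2⟩ := h0
  have hτ : ∀ i, 0 < τ (V i) := by
    intro i
    refine lt_of_le_of_ne (hτ1 i) ?_
    intro h
    exact ((hτ2 i).mpr h.symm).elim
  obtain ⟨a, ha1, ha2⟩ := hR
  obtain ⟨i0, hi0M, hi0R⟩ := hM
  obtain ⟨t, -, ht⟩ := Finset.exists_max_image (Finset.univ : Finset ι) (fun i => a (V i) / τ (V i))
    ⟨i0, Finset.mem_univ _⟩
  obtain ⟨l, hl1, hl2⟩ := hv t
  have hapos : ∀ i, i ∉ R → 0 < a (V i) := by
    intro i hi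
    refine lt_of_le_of_ne (ha1 i) ?_
    intro h
    exact hi ((ha2 i).mpr h.symm)
  have htR : t ∉ R := by
    intro h
    have h1 := ht i0 (Finset.mem_univ _)
    rw [(ha2 t).mp h, zero_div] at h1
    have h2 : 0 < a (V i0) / τ (V i0) := div_pos (hapos i0 hi0R) (hτ i0)
    linarith
  have hlpos : ∀ i, i ≠ t → 0 < l (V i) := by
    intro i hi
    refine lt_of_le_of_ne (hl1 i) ?_
    intro h
    exact hi ((hl2 i).mpr h.symm)
  have hlt0 : l (V t) = 0 := (hl2 t).mp rfl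
  -- small epsilon
  obtain ⟨ε, hε, hεs⟩ : ∃ ε : ℝ, 0 < ε ∧ ∀ i, i ∉ R → 0 < a (V i) - ε * l (V i) := by
    by_cases hne : (Finset.univ.filter (fun i : ι => i ∉ R)).Nonempty
    · obtain ⟨j, hj, hjm⟩ := Finset.exists_min_image (Finset.univ.filter (fun i : ι => i ∉ R))
        (fun i => a (V i) / (l (V i) + 1)) hne
      have hjR : j ∉ R := (Finset.mem_filter.mp hj).2
      have hjp : 0 < a (V j) / (l (V j) + 1) := div_pos (hapos j hjR) (by linarith [hl1 j])
      refine ⟨a (V j) / (l (V j) + 1), hjp, fun i hi => ?_⟩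
      have h1 := hjm i (Finset.mem_filter.mpr ⟨Finset.mem_univ _, hi⟩)
      have h2 : 0 < l (V i) + 1 := by linarith [hl1 i]
      rw [le_div_iff₀ h2] at h1
      nlinarith
    · refine ⟨1, one_pos, fun i hi => ?_⟩
      exact (hne ⟨i, Finset.mem_filter.mpr ⟨Finset.mem_univ _, hi⟩⟩).elim
  set f : E →ₗ[ℝ] ℝ := a - ε • l with hf
  have hfv : ∀ i, f (V i) = a (V i) - ε * l (V i) := by intro i; simp [hf]
  have hfpos : ∀ i, i ∉ R → 0 < f (V i) := by intro i hi; rw [hfv]; exact hεs i hi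
  have hfneg : ∀ i, i ∈ R → f (V i) ≤ 0 := by
    intro i hi
    rw [hfv, (ha2 i).mp hi]
    have := mul_nonneg hε.le (hl1 i)
    linarith
  have hfmax : ∀ i, i ≠ t → f (V i) / τ (V i) < f (V t) / τ (V t) := by
    intro i hi
    have h1 := ht i (Finset.mem_univ _)
    rw [hfv, hfv, hlt0, mul_zero, sub_zero]
    refine lt_of_lt_of_le ?_ h1
    rw [div_lt_div_iff_of_pos_right (hτ i)]
    have := mul_pos hε (hlpos i hi)
    linarith
  have hall : ∀ i, i ∉ R → (i ∈ M ↔ t ∈ M) := by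
    by_contra hcon
    push Not at hcon
    obtain ⟨i1, hi1R, hi1⟩ := hcon
    have hne : (Finset.univ.filter (fun i : ι => i ∉ R ∧ ¬ (i ∈ M ↔ t ∈ M))).Nonempty := by
      refine ⟨i1, Finset.mem_filter.mpr ⟨Finset.mem_univ _, hi1R, ?_⟩⟩
      rcases hi1 with ⟨h1, h2⟩ | ⟨h1, h2⟩
      · exact fun h => h2 (h.mp h1)
      · exact fun h => h1 (h.mpr h2)
    obtain ⟨i, hi, him⟩ := Finset.exists_max_image
      (Finset.univ.filter (fun i : ι => i ∉ R ∧ ¬ (i ∈ M ↔ t ∈ M))) (fun i => f (V i) / τ (V i)) hne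
    obtain ⟨-, hiR, hibad⟩ := Finset.mem_filter.mp hi
    have hit : i ≠ t := by
      rintro rfl
      exact hibad Iff.rfl
    obtain ⟨k, -, hki, hface, hlt⟩ := k10a_step hG V hv τ f hτ Set.univ (k10a_univ V) i t
      (Set.mem_univ _) (Set.mem_univ _) (hfmax i hit)
    have hkR : k ∉ R := by
      intro h
      have h1 : f (V k) / τ (V k) ≤ 0 := div_nonpos_of_nonpos_of_nonneg (hfneg k h) (hτ k).le
      have h2 : 0 < f (V i) / τ (V i) := div_pos (hfpos i hiR) (hτ i)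
      linarith
    have hkgood : (k ∈ M ↔ t ∈ M) := by
      by_contra hkb
      have h1 := him k (Finset.mem_filter.mpr ⟨Finset.mem_univ _, hkR, hkb⟩)
      linarith
    apply hibad
    constructor
    · intro h
      exact hkgood.mp (hcl i k h hiR hkR hki hface)
    · intro h
      exact hcl k i (hkgood.mpr h) hkR hiR (Ne.symm hki) (by rw [Set.pair_comm]; exact hface)
  intro i hi
  exact (hall i hi).mpr ((hall i0 hi0R).mp hi0M)

theorem k10a_sconn (hG : GenV) : SConn := by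
  intro ι E _ _ _ _ V hv h0 S hS M hM hcl
  obtain ⟨τ, hτ1, hτ2⟩ := h0
  have hτ : ∀ i, 0 < τ (V i) := by
    intro i
    refine lt_of_le_of_ne (hτ1 i) ?_
    intro h
    exact ((hτ2 i).mpr h.symm).elim
  obtain ⟨t, htM, htS⟩ := hM
  obtain ⟨l, hl1, hl2⟩ := hv t
  have hlt0 : l (V t) = 0 := (hl2 t).mp rfl
  have hlpos : ∀ i, i ≠ t → 0 < l (V i) := by
    intro i hi
    refine lt_of_le_of_ne (hl1 i) ?_
    intro h
    exact hi ((hl2 i).mpr h.symm)
  by_contra hcon
  rw [Set.not_subset] at hcon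
  obtain ⟨i1, hi1S, hi1M⟩ := hcon
  have hne : (Finset.univ.filter (fun i : ι => i ∈ S ∧ i ∉ M)).Nonempty :=
    ⟨i1, Finset.mem_filter.mpr ⟨Finset.mem_univ _, hi1S, hi1M⟩⟩
  obtain ⟨i, hi, him⟩ := Finset.exists_max_image
    (Finset.univ.filter (fun i : ι => i ∈ S ∧ i ∉ M)) (fun i => (-l) (V i) / τ (V i)) hne
  obtain ⟨-, hiS, hiM⟩ := Finset.mem_filter.mp hi
  have hit : i ≠ t := by
    rintro rfl
    exact hiM htM
  have hlt1 : (-l) (V i) / τ (V i) < (-l) (V t) / τ (V t) := by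
    rw [LinearMap.neg_apply, LinearMap.neg_apply, hlt0, neg_zero, zero_div]
    exact div_neg_of_neg_of_pos (by linarith [hlpos i hit]) (hτ i)
  obtain ⟨k, hkS, hki, hface, hlt⟩ := k10a_step hG V hv τ (-l) hτ S hS i t hiS htS hlt1
  have hkM : k ∈ M := by
    by_contra hk
    have h1 := him k (Finset.mem_filter.mpr ⟨Finset.mem_univ _, hkS, hk⟩)
    linarith
  exact hiM (hcl k i hkM hkS hiS (Ne.symm hki) (by rw [Set.pair_comm]; exact hface))

theorem t : TaskK10a := fun hG => ⟨k10a_cconn hG, k10a_sconn hG⟩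

end K10aH340
end Pool.Agent.H242R3.ES
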