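import Pool.Agent.H242R3.ES.StmtsK

/-! ES-K5b (helper251): dual description at a facet. -/

set_option autoImplicit false

open Finset
open scoped Classical

namespace Pool.Agent.H242R3.ES.K5b

/-- the functional `B (·) w` -/
noncomputable def Bl (w : LV 3) : LV 3 →ₗ[ℝ] ℝ where
  toFun x := B x w
  map_add' x y := by
    simp only [B, Pi.add_apply, add_mul, Finset.sum_add_distrib]
    ring
  map_smul' c x := by
    simp only [B, Pi.smul_apply, smul_eq_mul, RingHom.id_apply, mul_sub, Finset.mul_sum, mul_assoc]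

theorem Bl_apply (w x : LV 3) : Bl w x = B x w := rfl

theorem B_comm (x y : LV 3) : B x y = B y x := by
  simp only [B, mul_comm]

/-- a functional vanishing on the `V i`, `i ∈ T`, vanishes on their span -/
theorem zero_on_span {ι E : Type} [AddCommGroup E] [Module ℝ E] (V : ι → E) (T : Set ι)
    (l : E →ₗ[ℝ] ℝ) (h : ∀ i ∈ T, l (V i) = 0) (x : E) (hx : x ∈ Submodule.span ℝ (V '' T)) :
    l x = 0 := by
  have h1 : Submodule.span ℝ (V '' T) ≤ LinearMap.ker l := by
    rw [Submodule.span_le]
    rintro _ ⟨i, hi, rfl⟩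
    exact h i hi
  exact h1 hx

theorem t : TaskK5b := by
  intro hE hR ι _ V hV N hN F hF y hy hye
  obtain ⟨hN1, hN2⟩ := hN F hF
  -- the empty face
  have hempty : Face V ∅ := by
    obtain ⟨w, _, hw⟩ := hV.tw
    refine ⟨-Bl w, fun i => ?_, fun i => ?_⟩
    · rw [LinearMap.neg_apply, Bl_apply]
      linarith [hw i]
    · rw [LinearMap.neg_apply, Bl_apply]
      simp only [Set.mem_empty_iff_false, false_iff]
      have := hw i
      intro h
      linarith
  -- F is nonempty
  have hne : F.Nonempty := by
    by_contra h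
    rw [Set.not_nonempty_iff_eq_empty] at h
    have h1 := hF.2
    unfold rk at h1
    rw [h, Set.image_empty, Submodule.span_empty, finrank_bot] at h1
    omega
  -- the span of the facet
  have hspan : Submodule.span ℝ (V '' F) = LinearMap.ker (Bl (N F)) := by
    apply Submodule.eq_of_le_of_finrank_le
    · rw [Submodule.span_le]
      rintro _ ⟨i, hi, rfl⟩
      exact ((hN2 i).2).2 hi
    · have h1 : Module.finrank ℝ (Submodule.span ℝ (V '' F)) = 3 := hF.2
      rw [h1]
      have h2 := LinearMap.finrank_range_add_finrank_ker (Bl (N F))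
      have h3 : Module.finrank ℝ (LV 3) = 4 := by
        simp [Module.finrank_pi]
      have h4 : 0 < Module.finrank ℝ (LinearMap.range (Bl (N F))) := by
        rw [Module.finrank_pos_iff_exists_ne_zero]
        refine ⟨⟨Bl (N F) (N F), LinearMap.mem_range_self _ _⟩, ?_⟩
        intro h
        have h5 := congrArg Subtype.val h
        simp only [Bl_apply, hN1, ZeroMemClass.coe_zero] at h5
        exact one_ne_zero h5
      omega
  have hymem : y ∈ Submodule.span ℝ (V '' F) := by
    rw [hspan]
    exact hy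
  obtain ⟨_, _, hE3, _, _⟩ := hE ι V hV
  refine hR ι (LV 3) V F hF.1 hempty hne y hymem ?_
  intro T hT l hl hlT
  obtain ⟨hT1, _, hTF, hrk⟩ := hT
  have hrkT : rk V T = 2 := by
    have := hF.2
    omega
  have hEd : Ed V T := ⟨hT1, hrkT⟩
  obtain ⟨_, hX⟩ := hE3 T hEd
  have hyT := hye T hEd hTF.1
  obtain ⟨i0, hi0F, hi0T⟩ := Set.exists_of_ssubset hTF
  have hU : Module.finrank ℝ (Submodule.span ℝ (V '' T)) = 2 := hrkT
  have hW : Module.finrank ℝ (Submodule.span ℝ (V '' F)) = 3 := hF.2
  have hpos : B (V i0) (SY V T) < 0 := by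
    have h1 := (hX i0).1
    have h2 : B (V i0) (SY V T) ≠ 0 := fun h => hi0T (((hX i0).2).1 h)
    exact lt_of_le_of_ne h1 h2
  have hUle : Submodule.span ℝ (V '' T) ≤ Submodule.span ℝ (V '' F) :=
    Submodule.span_mono (Set.image_mono hTF.1)
  have hnot : V i0 ∉ Submodule.span ℝ (V '' T) := by
    intro h
    have h1 := zero_on_span V T (Bl (SY V T)) (fun i hi => ((hX i).2).2 hi) _ h
    rw [Bl_apply] at h1
    linarith
  have hsup : Submodule.span ℝ (V '' T) ⊔ Submodule.span ℝ {V i0} =
      Submodule.span ℝ (V '' F) := by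
    apply Submodule.eq_of_le_of_finrank_le
    · refine sup_le hUle ?_
      rw [Submodule.span_singleton_le_iff_mem]
      exact Submodule.subset_span ⟨i0, hi0F, rfl⟩
    · have hlt : Submodule.span ℝ (V '' T) <
          Submodule.span ℝ (V '' T) ⊔ Submodule.span ℝ {V i0} := by
        refine lt_of_le_of_ne le_sup_left ?_
        intro h
        apply hnot
        rw [h]
        exact Submodule.mem_sup_right (Submodule.mem_span_singleton_self _)
      have := Submodule.finrank_lt_finrank_of_lt hlt
      omega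
  rw [← hsup] at hymem
  obtain ⟨u, hu, z, hz, huz⟩ := Submodule.mem_sup.1 hymem
  obtain ⟨c, hc⟩ := Submodule.mem_span_singleton.1 hz
  have hu1 : l u = 0 := zero_on_span V T l (fun i hi => (hlT i (hTF.1 hi)).1 hi) u hu
  have hu2 : Bl (SY V T) u = 0 :=
    zero_on_span V T (Bl (SY V T)) (fun i hi => ((hX i).2).2 hi) u hu
  have h1 : Bl (SY V T) y = c * B (V i0) (SY V T) := by
    rw [← huz, ← hc, map_add, hu2, map_smul, smul_eq_mul, Bl_apply, zero_add]
  have h2 : l y = c * l (V i0) := by
    rw [← huz, ← hc, map_add, hu1, map_smul, smul_eq_mul, zero_add]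
  rw [Bl_apply] at h1
  have hc0 : 0 ≤ c := by
    by_contra hneg
    push Not at hneg
    have := mul_pos_of_neg_of_neg hneg hpos
    linarith
  rw [h2]
  exact mul_nonneg hc0 (hl i0 hi0F)

end Pool.Agent.H242R3.ES.K5b
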