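import Mathlib
import Pool.Agent.H242R3.ES.StmtsK

set_option autoImplicit false
set_option maxHeartbeats 4000000

open MeasureTheory Finset
open scoped Classical

namespace Pool.Agent.H242R3.ES

namespace K9H873

lemma B_comm {D : ℕ} (x y : LV D) : B x y = B y x := by
  unfold B
  congr 1
  · exact Finset.sum_congr rfl fun i _ => mul_comm _ _
  · exact mul_comm _ _

lemma DP.swap {ι κ ε : Type} [Fintype ι] [Fintype κ] [Fintype ε] {V : ι → LV 3} {N : κ → LV 3}
    {X : ε → LV 3} (h : DP V N X) : DP N V X where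
  nV := h.nN
  nN := h.nV
  nX := h.nX
  xx := h.xx
  vn := fun i F => by rw [B_comm]; exact h.vn F i
  vx := h.nx
  nx := h.vx
  sV := h.sN
  sN := h.sV
  fl := fun F i hF => by
    rw [B_comm] at hF
    obtain ⟨e, f, hef, H⟩ := h.fl i F hF
    refine ⟨e, f, hef, fun g => ?_⟩
    rw [← H g]
    exact and_comm
  rV := fun F y hy h1 => by
    obtain ⟨a, ha, hb, hc⟩ := h.rN F y hy h1
    refine ⟨a, ha, fun i hi => ?_, hc⟩
    rw [B_comm]
    exact hb i hi
  rN := fun i y hy h1 => by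
    obtain ⟨a, ha, hb, hc⟩ := h.rV i y hy h1
    refine ⟨a, ha, fun F hF => ?_, hc⟩
    rw [B_comm]
    exact hb F hF

theorem t : TaskK9 := by
  intro hE hD hA hB
  refine ⟨?_, ?_⟩
  · intro ι _ V hV N hN o ho v hv
    obtain ⟨hDP, hNS⟩ := hD ι V hV N hN
    have hvo : B (V v) (SY V o) ≠ 0 := by
      intro h0
      exact hv ((((hE ι V hV).2.2.1 o ho).2 v).2.1 h0)
    have hre : ∑ F ∈ Finset.univ.filter (fun F => Fc V F ∧ v ∈ F),
        Real.arctan (B (V v) (SY V o) / B (N F) (SY V o)) =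
        ∑ F ∈ Finset.univ.filter (fun F : {F : Set ι // Fc V F} => B (V v) (N F) = 0),
          Real.arctan (B (V v) (SY V o) / B (N F) (SY V o)) := by
      symm
      refine Finset.sum_bij (fun F _ => F.1) ?_ ?_ ?_ ?_
      · intro F hF
        simp only [Finset.mem_filter, Finset.mem_univ, true_and] at hF ⊢
        exact ⟨F.2, (((hN F.1 F.2).2 v).2).1 hF⟩
      · intro F _ G _ hFG
        exact Subtype.ext hFG
      · intro F hF
        simp only [Finset.mem_filter, Finset.mem_univ, true_and] at hF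
        refine ⟨⟨F, hF.1⟩, ?_, rfl⟩
        simp only [Finset.mem_filter, Finset.mem_univ, true_and]
        exact (((hN F hF.1).2 v).2).2 hF.2
      · intro F _
        rfl
    rw [hre]
    split_ifs with hc
    · obtain ⟨F, hF, hvF, hoF⟩ := hc
      exact hB ι _ _ V _ _ hDP v ⟨o, ho⟩ hvo
        ⟨⟨F, hF⟩, (((hN F hF).2 v).2).2 hvF, (hNS F o hF ho).2 hoF⟩
    · refine hA ι _ _ V _ _ hDP v ⟨o, ho⟩ hvo ?_
      intro F hF h0
      exact hc ⟨F.1, F.2, (((hN F.1 F.2).2 v).2).1 hF, (hNS F.1 o F.2 ho).1 h0⟩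
  · intro ι _ V hV N hN o ho F hF hoF
    obtain ⟨hDP, hNS⟩ := hD ι V hV N hN
    have hDP' := DP.swap hDP
    have hFo : B (N F) (SY V o) ≠ 0 := by
      intro h0
      exact hoF ((hNS F o hF ho).1 h0)
    have hvo : ∀ v, B (V v) (SY V o) = 0 ↔ v ∈ o := fun v => (((hE ι V hV).2.2.1 o ho).2 v).2
    have hre : Finset.univ.filter (fun v => v ∈ F) =
        Finset.univ.filter (fun v => B (N F) (V v) = 0) := by
      ext v
      simp only [Finset.mem_filter, Finset.mem_univ, true_and]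
      rw [B_comm]
      exact (((hN F hF).2 v).2).symm
    rw [hre]
    split_ifs with hc
    · obtain ⟨v, hvF, hvo'⟩ := hc
      refine hB _ _ _ _ _ _ hDP' ⟨F, hF⟩ ⟨o, ho⟩ hFo ⟨v, ?_, (hvo v).2 hvo'⟩
      rw [B_comm]
      exact (((hN F hF).2 v).2).2 hvF
    · refine hA _ _ _ _ _ _ hDP' ⟨F, hF⟩ ⟨o, ho⟩ hFo ?_
      intro v hv h0
      rw [B_comm] at hv
      exact hc ⟨v, (((hN F hF).2 v).2).1 hv, (hvo v).1 h0⟩

end K9H873

end Pool.Agent.H242R3.ES
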