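import Pool.Agent.H242R3.ES.StmtsN

set_option autoImplicit false
set_option maxHeartbeats 4000000

open Finset
open scoped Classical

namespace Pool.Agent.H242R3.ES
namespace N10c

section
variable {ι E : Type} [Fintype ι] [AddCommGroup E] [Module ℝ E] [FiniteDimensional ℝ E]
  {V : ι → E} {j : ι} {m : ℕ}

theorem Y_mem_span (V : ι → E) {R T : Set ι} (h : R ⊆ T) :
    Y V R ∈ Submodule.span ℝ (V '' T) := by
  unfold Y
  refine Submodule.sum_mem _ fun k hk => ?_
  rw [Finset.mem_filter] at hk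
  exact Submodule.subset_span ⟨k, h hk.2, rfl⟩

theorem face_nonneg {T : Set ι} {f : E →ₗ[ℝ] ℝ} (hf : ∀ i, 0 ≤ f (V i)) : 0 ≤ f (Y V T) := by
  unfold Y
  rw [map_sum]
  exact Finset.sum_nonneg fun k _ => hf k

/-- a chain: smaller rank means strictly smaller -/
theorem sub_of_rank (hG2 : TaskG2) {R R' : Set ι} (hR : Face V R) (hR' : Face V R')
    (hc : R ⊆ R' ∨ R' ⊆ R) (h : rk V R < rk V R') : R ⊂ R' := by
  rcases hc with h1 | h1
  · refine h1.ssubset_of_ne ?_
    rintro rfl
    exact lt_irrefl _ h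
  · rcases h1.eq_or_ssubset with h2 | h2
    · subst h2; exact absurd h (lt_irrefl _)
    · have := (hG2 ι E V R' R hR' hR).2.1 h2
      omega

theorem eq_of_rank (hG2 : TaskG2) {R R' : Set ι} (hR : Face V R) (hR' : Face V R')
    (hc : R ⊆ R' ∨ R' ⊆ R) (h : rk V R = rk V R') : R = R' := by
  rcases hc with h1 | h1
  · rcases h1.eq_or_ssubset with h2 | h2
    · exact h2
    · have := (hG2 ι E V R R' hR hR').2.1 h2
      omega
  · rcases h1.eq_or_ssubset with h2 | h2
    · exact h2.symm
    · have := (hG2 ι E V R' R hR' hR).2.1 h2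
      omega

theorem rank_image (hG2 : TaskG2) {s : Finset (Set ι)} (hs : s ∈ Fl V j m)
    (hrk : ∀ T ∈ s, 2 ≤ rk V T ∧ rk V T ≤ m + 1) :
    Set.InjOn (rk V) (s : Set (Set ι)) ∧ s.image (rk V) = Finset.Icc 2 (m + 1) := by
  unfold Fl at hs
  rw [Finset.mem_filter] at hs
  obtain ⟨_, hcard, hFA, hch⟩ := hs
  have hinj : Set.InjOn (rk V) (s : Set (Set ι)) := by
    intro R hR R' hR' h
    exact eq_of_rank hG2 (hFA R hR).1 (hFA R' hR').1 (hch R hR R' hR') h
  refine ⟨hinj, ?_⟩
  apply Finset.eq_of_subset_of_card_le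
  · intro x hx
    rw [Finset.mem_image] at hx
    obtain ⟨R, hR, rfl⟩ := hx
    rw [Finset.mem_Icc]
    exact hrk R hR
  · rw [Finset.card_image_of_injOn hinj, hcard, Nat.card_Icc]
    omega

end

theorem t : TaskN10c := by
  intro hG2 _hG3 hG4 _hG6 hFlPM hFlInd
  intro ι E _ _ _ _ V j o m p h8 r T T' hTr hT'r hTT' hs hs' hrkT
  obtain ⟨_, hranks, _, _⟩ := hFlPM ι E V j m h8.vert h8.span h8.fin h8.one
  obtain ⟨hinj, himg⟩ := rank_image hG2 hs (hranks _ hs)
  obtain ⟨hinj', himg'⟩ := rank_image hG2 hs' (hranks _ hs')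
  have hind := hFlInd ι E V j o m p h8 _ hs
  have hind' := hFlInd ι E V j o m p h8 _ hs'
  have hs0 := hs
  have hs0' := hs'
  unfold Fl at hs0 hs0'
  rw [Finset.mem_filter] at hs0 hs0'
  obtain ⟨_, hcard, hFA, hch⟩ := hs0
  obtain ⟨_, hcard', hFA', hch'⟩ := hs0'
  have hTm : T ∈ insert T r := Finset.mem_insert_self _ _
  have hTm' : T' ∈ insert T' r := Finset.mem_insert_self _ _
  have hrm : ∀ R ∈ r, R ∈ insert T r := fun R hR => Finset.mem_insert_of_mem hR
  have hrm' : ∀ R ∈ r, R ∈ insert T' r := fun R hR => Finset.mem_insert_of_mem hR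
  -- ranks
  have hTnot : ∀ R ∈ r, rk V R ≠ rk V T := by
    intro R hR h
    apply hTr
    have := hinj (hrm R hR) hTm h
    rwa [← this]
  have hrT' : rk V T' = rk V T := by
    have h1 : rk V T ∈ (insert T' r).image (rk V) := by
      rw [himg', ← himg]
      exact Finset.mem_image_of_mem _ hTm
    rw [Finset.image_insert, Finset.mem_insert] at h1
    rcases h1 with h1 | h1
    · exact h1.symm
    · rw [Finset.mem_image] at h1
      obtain ⟨R, hR, h⟩ := h1
      exact absurd h (hTnot R hR)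
  have hT2 := hranks _ hs T hTm
  have hex : ∀ n, 2 ≤ n → n ≤ m + 1 → n ≠ rk V T → ∃ R ∈ r, rk V R = n := by
    intro n h2 h3 hne
    have h1 : n ∈ (insert T r).image (rk V) := by
      rw [himg, Finset.mem_Icc]; exact ⟨h2, h3⟩
    rw [Finset.image_insert, Finset.mem_insert] at h1
    rcases h1 with h1 | h1
    · exact absurd h1 hne
    · rwa [Finset.mem_image] at h1
  obtain ⟨T2, hT2r, hrkT2⟩ := hex (rk V T + 1) (by omega) (by omega) (by omega)
  -- `V j ≠ 0`
  have hVj : V j ≠ 0 := by
    intro h0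
    have h1 := LinearMap.finrank_range_add_finrank_ker p
    rw [LinearMap.range_eq_top.2 h8.surj, finrank_top, finrank_euclideanSpace_fin, h8.fin, h8.ker] at h1
    have h2 : Module.finrank ℝ (Submodule.span ℝ ({V j, o} : Set E)) ≤ 1 := by
      rw [h0, Submodule.span_insert_zero]
      refine (finrank_span_le_card _).trans ?_
      simp
    omega
  have hpj : p (V j) = 0 := by
    rw [← LinearMap.mem_ker, h8.ker]
    exact Submodule.subset_span (by simp)
  have hpo : p o = 0 := by
    rw [← LinearMap.mem_ker, h8.ker]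
    exact Submodule.subset_span (by simp)
  have hrkj : rk V {j} = 1 := by
    unfold rk
    rw [Set.image_singleton]
    exact finrank_span_singleton hVj
  -- the face just below
  obtain ⟨T1, hT1f, hjT1, hrkT1, hT1⟩ : ∃ T1 : Set ι, Face V T1 ∧ j ∈ T1 ∧ rk V T1 + 1 = rk V T ∧
      (T1 = {j} ∨ T1 ∈ r) := by
    by_cases h : rk V T = 2
    · exact ⟨{j}, h8.vert j, rfl, by omega, Or.inl rfl⟩
    · obtain ⟨R, hR, hRr⟩ := hex (rk V T - 1) (by omega) (by omega) (by omega)
      exact ⟨R, (hFA R (hrm R hR)).1, (hFA R (hrm R hR)).2.1, by omega, Or.inr hR⟩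
  have hTf := (hFA T hTm).1
  have hTf' := (hFA' T' hTm').1
  have hT2f := (hFA T2 (hrm T2 hT2r)).1
  have hTT2 : T ⊂ T2 := sub_of_rank hG2 hTf hT2f (hch T hTm T2 (hrm T2 hT2r)) (by omega)
  have hTT2' : T' ⊂ T2 := sub_of_rank hG2 hTf' hT2f (hch' T' hTm' T2 (hrm' T2 hT2r)) (by omega)
  have hT1T : T1 ⊂ T := by
    rcases hT1 with h | h
    · apply sub_of_rank hG2 hT1f hTf _ (by omega)
      left
      rw [h]
      exact Set.singleton_subset_iff.2 (hFA T hTm).2.1
    · exact sub_of_rank hG2 hT1f hTf (hch T1 (hrm T1 h) T hTm) (by omega)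
  have hT1T' : T1 ⊂ T' := by
    rcases hT1 with h | h
    · apply sub_of_rank hG2 hT1f hTf' _ (by omega)
      left
      rw [h]
      exact Set.singleton_subset_iff.2 (hFA' T' hTm').2.1
    · exact sub_of_rank hG2 hT1f hTf' (hch' T1 (hrm' T1 h) T' hTm') (by omega)
  -- the functional
  have hcf : Fintype.card (insert T r : Finset (Set ι)) =
      Module.finrank ℝ (EuclideanSpace ℝ (Fin m)) := by
    rw [Fintype.card_coe, hcard, finrank_euclideanSpace_fin]
  have hcf' : Fintype.card (insert T' r : Finset (Set ι)) =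
      Module.finrank ℝ (EuclideanSpace ℝ (Fin m)) := by
    rw [Fintype.card_coe, hcard', finrank_euclideanSpace_fin]
  obtain ⟨q, hqT, hqr⟩ : ∃ q : EuclideanSpace ℝ (Fin m) →ₗ[ℝ] ℝ, q (p (Y V T)) = 1 ∧
      ∀ R ∈ r, q (p (Y V R)) = 0 := by
    haveI : Nonempty (insert T r : Finset (Set ι)) := ⟨⟨T, hTm⟩⟩
    let b := basisOfLinearIndependentOfCardEqFinrank hind hcf
    refine ⟨b.coord ⟨T, hTm⟩, ?_, ?_⟩
    · have h1 : b ⟨T, hTm⟩ = p (Y V T) := by
        simp [b]
      rw [← h1, Module.Basis.coord_apply, Module.Basis.repr_self, Finsupp.single_eq_same]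
    · intro R hR
      have h1 : b ⟨R, hrm R hR⟩ = p (Y V R) := by
        simp [b]
      rw [← h1, Module.Basis.coord_apply, Module.Basis.repr_self, Finsupp.single_eq_of_ne]
      intro h
      apply hTr
      have := congrArg Subtype.val h
      simp only at this
      rw [this]
      exact hR
  have hqT' : q (p (Y V T')) ≠ 0 := by
    intro h0
    haveI : Nonempty (insert T' r : Finset (Set ι)) := ⟨⟨T', hTm'⟩⟩
    have hsp := hind'.span_eq_top_of_card_eq_finrank hcf'
    have hq0 : q = 0 := by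
      apply LinearMap.ext_on hsp
      rintro _ ⟨⟨R, hR⟩, rfl⟩
      rw [LinearMap.zero_apply]
      rw [Finset.mem_insert] at hR
      rcases hR with rfl | hR
      · exact h0
      · exact hqr R hR
    rw [hq0, LinearMap.zero_apply] at hqT
    exact zero_ne_one hqT
  set l : E →ₗ[ℝ] ℝ := q ∘ₗ p with hl
  have hlj : l (V j) = 0 := by rw [hl, LinearMap.comp_apply, hpj, map_zero]
  have hlo : l o = 0 := by rw [hl, LinearMap.comp_apply, hpo, map_zero]
  have hlr : ∀ R ∈ r, l (Y V R) = 0 := hqr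
  have hlT : l (Y V T) = 1 := hqT
  have hlT' : l (Y V T') ≠ 0 := hqT'
  refine ⟨l, hlj, hlo, hlr, by rw [hlT]; norm_num, ?_⟩
  -- `l` vanishes on `T1`
  have hl1 : ∀ k ∈ T1, l (V k) = 0 := by
    set s1 : Finset (Set ι) := r.filter (fun R => rk V R < rk V T) with hs1
    have hs1sub : ∀ R ∈ s1, R ⊆ T1 := by
      intro R hR
      rw [hs1, Finset.mem_filter] at hR
      rcases hT1 with h | h
      · exfalso
        have h1 := hranks _ hs R (hrm R hR.1)
        rw [h, hrkj] at hrkT1
        omega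
      · rcases lt_or_eq_of_le (show rk V R ≤ rk V T1 by omega) with h1 | h1
        · exact (sub_of_rank hG2 (hFA R (hrm R hR.1)).1 hT1f
            (hch R (hrm R hR.1) T1 (hrm T1 h)) h1).subset
        · exact (eq_of_rank hG2 (hFA R (hrm R hR.1)).1 hT1f
            (hch R (hrm R hR.1) T1 (hrm T1 h)) h1).subset
    have hs1card : s1.card + 2 = rk V T := by
      have h1 : s1.image (rk V) = Finset.Ico 2 (rk V T) := by
        ext n
        rw [Finset.mem_image, Finset.mem_Ico]
        constructor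
        · rintro ⟨R, hR, rfl⟩
          rw [hs1, Finset.mem_filter] at hR
          exact ⟨(hranks _ hs R (hrm R hR.1)).1, hR.2⟩
        · rintro ⟨h2, h3⟩
          obtain ⟨R, hR, hRn⟩ := hex n h2 (by omega) (by omega)
          exact ⟨R, by rw [hs1, Finset.mem_filter]; exact ⟨hR, by omega⟩, hRn⟩
      have h2 : (s1.image (rk V)).card = s1.card := by
        apply Finset.card_image_of_injOn
        intro R hR R' hR' h
        rw [Finset.mem_coe, hs1, Finset.mem_filter] at hR hR'
        exact hinj (hrm R hR.1) (hrm R' hR'.1) h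
      rw [h1, Nat.card_Ico] at h2
      omega
    -- independence
    have hY : LinearIndependent ℝ (fun R : s1 => p (Y V R)) := by
      have := hind.comp (fun R : s1 => (⟨R.1, hrm R.1 (Finset.mem_of_mem_filter _ R.2)⟩ :
        (insert T r : Finset (Set ι)))) (by
          intro a b hab
          apply Subtype.ext
          simpa using hab)
      exact this
    have hYE : LinearIndependent ℝ (fun R : s1 => Y V R) := LinearIndependent.of_comp p hY
    have hnot : V j ∉ Submodule.span ℝ (Set.range (fun R : s1 => Y V R)) := by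
      intro hmem
      rw [Submodule.mem_span_range_iff_exists_fun] at hmem
      obtain ⟨c, hc⟩ := hmem
      have h1 : ∑ R : s1, c R • p (Y V R) = 0 := by
        have := congrArg p hc
        rw [map_sum, hpj] at this
        rw [← this]
        exact Finset.sum_congr rfl fun R _ => (map_smul p _ _).symm
      have h2 := Fintype.linearIndependent_iff.1 hY c h1
      apply hVj
      rw [← hc]
      apply Finset.sum_eq_zero
      intro R _
      rw [h2 R, zero_smul]
    have hopt : LinearIndependent ℝ (fun x : Option s1 => (x.casesOn' (V j) (fun R : s1 => Y V R) : E)) :=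
      linearIndependent_option'.2 ⟨hYE, hnot⟩
    have hle : Submodule.span ℝ (Set.range (fun x : Option s1 =>
        (x.casesOn' (V j) (fun R : s1 => Y V R) : E))) ≤ Submodule.span ℝ (V '' T1) := by
      rw [Submodule.span_le]
      rintro _ ⟨x, rfl⟩
      cases x with
      | none => exact Submodule.subset_span ⟨j, hjT1, rfl⟩
      | some R => exact Y_mem_span V (hs1sub R.1 R.2)
    have hfr := finrank_span_eq_card hopt
    rw [Fintype.card_option, Fintype.card_coe] at hfr
    have heq : Submodule.span ℝ (Set.range (fun x : Option s1 =>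
        (x.casesOn' (V j) (fun R : s1 => Y V R) : E))) = Submodule.span ℝ (V '' T1) := by
      apply Submodule.eq_of_le_of_finrank_le hle
      rw [hfr]
      show rk V T1 ≤ _
      omega
    intro k hk
    have hmem : V k ∈ Submodule.span ℝ (V '' T1) := Submodule.subset_span ⟨k, hk, rfl⟩
    rw [← heq] at hmem
    have hker : Submodule.span ℝ (Set.range (fun x : Option s1 =>
        (x.casesOn' (V j) (fun R : s1 => Y V R) : E))) ≤ LinearMap.ker l := by
      rw [Submodule.span_le]
      rintro _ ⟨x, rfl⟩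
      cases x with
      | none => exact hlj
      | some R => exact hlr R.1 (Finset.mem_of_mem_filter _ R.2)
    exact hker hmem
  -- the minimum argument
  obtain ⟨f, hf0, hf1⟩ := hT1f
  obtain ⟨f2, hf20, hf21⟩ := hT2f
  have hT1T2 : T1 ⊂ T2 := hT1T.trans hTT2
  set K : Finset ι := Finset.univ.filter (fun k => k ∈ T2 ∧ k ∉ T1) with hK
  have hKne : K.Nonempty := by
    obtain ⟨k, hk, hk'⟩ := Set.exists_of_ssubset hT1T2
    exact ⟨k, by rw [hK, Finset.mem_filter]; exact ⟨Finset.mem_univ _, hk, hk'⟩⟩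
  have hfpos : ∀ k ∈ K, 0 < f (V k) := by
    intro k hk
    rw [hK, Finset.mem_filter] at hk
    exact lt_of_le_of_ne (hf0 k) fun h => hk.2.2 ((hf1 k).2 h.symm)
  obtain ⟨k0, hk0, hmin⟩ := Finset.exists_min_image K (fun k => l (V k) / f (V k)) hKne
  set lam : ℝ := l (V k0) / f (V k0) with hlam
  have hge : ∀ k ∈ K, lam * f (V k) ≤ l (V k) := by
    intro k hk
    have := hmin k hk
    rwa [le_div_iff₀ (hfpos k hk)] at this
  have hlam0 : lam ≤ 0 := by
    by_contra hpos
    push Not at hpos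
    have h1 : l (Y V T2) = ∑ k ∈ K, l (V k) := by
      unfold Y
      rw [map_sum]
      symm
      apply Finset.sum_subset_zero_on_sdiff
      · intro k hk
        rw [hK, Finset.mem_filter] at hk
        rw [Finset.mem_filter]
        exact ⟨Finset.mem_univ _, hk.2.1⟩
      · intro k hk
        rw [Finset.mem_sdiff, Finset.mem_filter, hK, Finset.mem_filter] at hk
        apply hl1
        by_contra hcon
        exact hk.2 ⟨Finset.mem_univ _, hk.1.2, hcon⟩
      · intro k _; rfl
    rw [hlr T2 hT2r] at h1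
    have h2 : 0 < ∑ k ∈ K, l (V k) :=
      Finset.sum_pos (fun k hk => lt_of_lt_of_le (mul_pos hpos (hfpos k hk)) (hge k hk)) hKne
    linarith
  set g : E →ₗ[ℝ] ℝ := l - lam • f with hg
  have hgv : ∀ v, g v = l v - lam * f v := fun v => by
    rw [hg, LinearMap.sub_apply, LinearMap.smul_apply, smul_eq_mul]
  have hg0 : ∀ k ∈ T2, 0 ≤ g (V k) := by
    intro k hk
    rw [hgv]
    by_cases h : k ∈ T1
    · rw [hl1 k h, (hf1 k).1 h]; simp
    · have := hge k (by rw [hK, Finset.mem_filter]; exact ⟨Finset.mem_univ _, hk, h⟩)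
      linarith
  have hg1 : ∀ k ∈ T1, g (V k) = 0 := by
    intro k hk
    rw [hgv, hl1 k hk, (hf1 k).1 hk]; simp
  set Z : Set ι := {k | k ∈ T2 ∧ g (V k) = 0} with hZ
  have hZf : Face V Z := by
    set N : ℝ := 1 + ∑ k : ι, |g (V k)| / f2 (V k) with hN
    have hterm : ∀ k, 0 ≤ |g (V k)| / f2 (V k) := fun k => div_nonneg (abs_nonneg _) (hf20 k)
    have hN0 : 0 ≤ N := by
      have : 0 ≤ ∑ k : ι, |g (V k)| / f2 (V k) := Finset.sum_nonneg fun k _ => hterm k
      linarith
    have hout : ∀ k, k ∉ T2 → 0 < g (V k) + N * f2 (V k) := by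
      intro k hk
      have hpos : 0 < f2 (V k) := lt_of_le_of_ne (hf20 k) fun h => hk ((hf21 k).2 h.symm)
      have h1 : |g (V k)| / f2 (V k) ≤ ∑ k : ι, |g (V k)| / f2 (V k) :=
        Finset.single_le_sum (fun k _ => hterm k) (Finset.mem_univ k)
      have h2 : |g (V k)| / f2 (V k) * f2 (V k) = |g (V k)| := div_mul_cancel₀ _ hpos.ne'
      have h3 : |g (V k)| + f2 (V k) ≤ N * f2 (V k) := by
        rw [hN, add_mul, one_mul]
        have := mul_le_mul_of_nonneg_right h1 hpos.le
        linarith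
      have h4 := neg_abs_le (g (V k))
      linarith
    refine ⟨g + N • f2, fun k => ?_, fun k => ?_⟩
    · rw [LinearMap.add_apply, LinearMap.smul_apply, smul_eq_mul]
      by_cases h : k ∈ T2
      · rw [(hf21 k).1 h, mul_zero, add_zero]
        exact hg0 k h
      · exact (hout k h).le
    · rw [LinearMap.add_apply, LinearMap.smul_apply, smul_eq_mul]
      constructor
      · rintro ⟨h1, h2⟩
        rw [h2, (hf21 k).1 h1, mul_zero, add_zero]
      · intro h
        by_cases h1 : k ∈ T2
        · rw [(hf21 k).1 h1, mul_zero, add_zero] at h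
          exact ⟨h1, h⟩
        · exact absurd h (hout k h1).ne'
  have hgY : ∀ S : Set ι, (∀ k ∈ S, g (V k) = 0) → l (Y V S) ≤ 0 := by
    intro S hS
    have h1 : g (Y V S) = 0 := by
      unfold Y
      rw [map_sum]
      apply Finset.sum_eq_zero
      intro k hk
      rw [Finset.mem_filter] at hk
      exact hS k hk.2
    rw [hgv] at h1
    have h2 : 0 ≤ f (Y V S) := face_nonneg hf0
    have h3 : lam * f (Y V S) ≤ 0 := mul_nonpos_of_nonpos_of_nonneg hlam0 h2
    linarith
  have hT1Z : T1 ⊂ Z := by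
    refine ⟨fun k hk => ⟨hT1T2.subset hk, hg1 k hk⟩, fun hsub => ?_⟩
    have hk0' := hk0
    rw [hK, Finset.mem_filter] at hk0'
    apply hk0'.2.2
    apply hsub
    refine ⟨hk0'.2.1, ?_⟩
    rw [hgv, hlam, div_mul_cancel₀ _ (hfpos k0 hk0).ne', sub_self]
  have hZT2 : Z ⊂ T2 := by
    refine ⟨fun k hk => hk.1, fun hsub => ?_⟩
    have := hgY T (fun k hk => (hsub (hTT2.subset hk)).2)
    rw [hlT] at this
    linarith
  have hT1f' : Face V T1 := ⟨f, hf0, hf1⟩
  have hT2f' : Face V T2 := ⟨f2, hf20, hf21⟩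
  have hr1 := (hG2 ι E V T1 Z hT1f' hZf).2.1 hT1Z
  have hr2 := (hG2 ι E V Z T2 hZf hT2f').2.1 hZT2
  have hcovZ : Cov V T1 Z := ⟨hT1f', hZf, hT1Z, by omega⟩
  have hcovT : Cov V T1 T := ⟨hT1f', hTf, hT1T, by omega⟩
  have hcovT' : Cov V T1 T' := ⟨hT1f', hTf', hT1T', by omega⟩
  obtain ⟨T'', _, huniq⟩ := hG4 ι E V T1 T2 hT1f' hT2f' hT1T2 (by omega) T hcovT hTT2.subset
  have e1 := huniq T' ⟨⟨hcovT', hTT2'.subset⟩, hTT'.symm⟩
  by_cases hZT : Z = T
  · exfalso
    have := hgY T (fun k hk => by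
      rw [← hZT] at hk
      exact hk.2)
    rw [hlT] at this
    linarith
  · have e2 := huniq Z ⟨⟨hcovZ, hZT2.subset⟩, hZT⟩
    have hZT' : Z = T' := by rw [e2, e1]
    have := hgY T' (fun k hk => by
      rw [← hZT'] at hk
      exact hk.2)
    exact lt_of_le_of_ne this hlT'

end N10c
end Pool.Agent.H242R3.ES
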