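import Mathlib
import Pool.Agent.H242R3.ES.StmtsN

/-!
# PROJECT H242-ES, task N4: the ridge coefficients of vectors in Euclidean space
-/

set_option autoImplicit false
set_option maxHeartbeats 4000000

open MeasureTheory Finset
open scoped Classical

namespace Pool.Agent.H242R3.ES.N4H946

/-- coordinates in a basis through the inverse Gram matrix, paired with a vector dual to `v j` -/
theorem pairing {κ : Type} [Fintype κ] [DecidableEq κ] {m : ℕ} (v : κ → EuclideanSpace ℝ (Fin m))
    (hcard : Fintype.card κ = m) (hli : LinearIndependent ℝ v) (G : Matrix κ κ ℝ)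
    (hG : ∀ i k, G i k = inner ℝ (v i) (v k)) (ν z : EuclideanSpace ℝ (Fin m)) (j : κ)
    (hν : ∀ i, i ≠ j → inner ℝ ν (v i) = 0) :
    0 < G.det ∧ (G⁻¹.mulVec (fun i => inner ℝ (v i) z)) j * inner ℝ ν (v j) = inner ℝ ν z := by
  have hgram : G = Matrix.gram ℝ v := by
    ext i k; rw [hG]; rfl
  have hpd : G.PosDef := by
    rw [hgram]; exact Matrix.posDef_gram_of_linearIndependent hli
  have hdet : 0 < G.det := hpd.det_pos
  refine ⟨hdet, ?_⟩
  have hunit : IsUnit G.det := isUnit_iff_ne_zero.mpr hdet.ne'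
  set b : κ → ℝ := fun i => inner ℝ (v i) z with hb
  set a : κ → ℝ := G⁻¹.mulVec b with ha
  have hGa : G.mulVec a = b := by
    rw [ha, Matrix.mulVec_mulVec, Matrix.mul_nonsing_inv _ hunit, Matrix.one_mulVec]
  have hspan : Submodule.span ℝ (Set.range v) = ⊤ := by
    by_cases hne : Nonempty κ
    · apply LinearIndependent.span_eq_top_of_card_eq_finrank hli
      rw [hcard, finrank_euclideanSpace_fin]
    · exact absurd ⟨j⟩ hne
  have hw : ∑ k, a k • v k = z := by
    have h0 : ∀ y : EuclideanSpace ℝ (Fin m), inner ℝ y (∑ k, a k • v k - z) = 0 := by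
      intro y
      have hy : y ∈ Submodule.span ℝ (Set.range v) := by rw [hspan]; trivial
      induction hy using Submodule.span_induction with
      | mem x hx =>
        obtain ⟨i, rfl⟩ := hx
        rw [inner_sub_right, inner_sum]
        have h1 : ∑ k, inner ℝ (v i) (a k • v k) = G.mulVec a i := by
          simp only [Matrix.mulVec, dotProduct]
          refine Finset.sum_congr rfl fun k _ => ?_
          rw [inner_smul_right, hG]; ring
        rw [h1, hGa, hb]; simp
      | zero => simp
      | add x y _ _ hx hy => rw [inner_add_left, hx, hy, add_zero]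
      | smul c x _ hx => rw [inner_smul_left, hx, mul_zero]
    have h1 := h0 (∑ k, a k • v k - z)
    rw [inner_self_eq_zero] at h1
    exact sub_eq_zero.mp h1
  calc a j * inner ℝ ν (v j) = ∑ k, inner ℝ ν (a k • v k) := by
        rw [Finset.sum_eq_single j]
        · rw [inner_smul_right]
        · intro k _ hk
          rw [inner_smul_right, hν k hk, mul_zero]
        · intro h; exact absurd (Finset.mem_univ j) h
    _ = inner ℝ ν z := by rw [← inner_sum, hw]

/-- a principal cofactor is the determinant of the matrix with the row and column removed -/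
theorem adj_diag {κ ρ : Type} [Fintype κ] [DecidableEq κ] [Fintype ρ] [DecidableEq ρ]
    (e : Option ρ ≃ κ) (A : Matrix κ κ ℝ) :
    A.adjugate (e none) (e none) =
      (A.submatrix (fun i => e (some i)) (fun i => e (some i))).det := by
  let f : Fin (Fintype.card ρ) ≃ ρ := (Fintype.equivFin ρ).symm
  let φ : Fin (Fintype.card ρ + 1) ≃ κ :=
    (finSuccEquiv (Fintype.card ρ)).trans ((Equiv.optionCongr f).trans e)
  have h0 : φ 0 = e none := by simp [φ]
  have hs : ∀ i : Fin (Fintype.card ρ), φ i.succ = e (some (f i)) := by intro i; simp [φ]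
  have h1 : (A.submatrix φ φ).adjugate 0 0 = A.adjugate (φ 0) (φ 0) := by
    rw [Matrix.adjugate_submatrix_equiv_self]; rfl
  rw [← h0, ← h1, Matrix.adjugate_fin_succ_eq_det_submatrix]
  simp only [Fin.val_zero, add_zero, pow_zero, one_mul, Fin.succAbove_zero]
  rw [← Matrix.det_submatrix_equiv_self f (A.submatrix (fun i => e (some i)) (fun i => e (some i)))]
  congr 1

/-- the ridge coefficient -/
theorem krEq {ι : Type} {m : ℕ} (u : ι → EuclideanSpace ℝ (Fin m)) (q : ι → ι → ℝ) (F : ι → ℝ)
    (r : Finset ι) (j : ι) (n ν : EuclideanSpace ℝ (Fin m)) (hj : j ∉ r)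
    (hcard : (insert j r).card = m)
    (hli : LinearIndependent ℝ (fun i : (insert j r : Finset ι) => u i))
    (hG : ∀ i ∈ insert j r, ∀ k ∈ insert j r, gq q F i k = inner ℝ (u i) (u k))
    (hn : ∀ i ∈ insert j r, inner ℝ n (u i) = 1)
    (hν : ∀ i ∈ r, inner ℝ ν (u i) = 0) (hc : inner ℝ ν (u j) ≠ 0) :
    0 < (GMq q r F).det ∧
    kr q r j F = Real.sqrt (GMq q r F).det * (|inner ℝ ν (u j)| / ‖ν‖) *
      (inner ℝ n ν / inner ℝ ν (u j)) := by
  set c : ℝ := inner ℝ ν (u j) with hcdef
  set J : (insert j r : Finset ι) := ⟨j, mem_insert_self j r⟩ with hJ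
  set G := GMq q (insert j r) F with hGdef
  have hνJ : ∀ i : (insert j r : Finset ι), i ≠ J → inner ℝ ν (u i) = 0 := by
    intro i hi
    apply hν
    rcases mem_insert.mp i.2 with h | h
    · exact absurd (Subtype.ext h) hi
    · exact h
  have hGi : ∀ i k : (insert j r : Finset ι), G i k = inner ℝ (u i) (u k) :=
    fun i k => hG i i.2 k k.2
  have hcard' : Fintype.card (insert j r : Finset ι) = m := by
    rw [Fintype.card_coe, hcard]
  obtain ⟨hdet, hpn⟩ := pairing (fun i : (insert j r : Finset ι) => u i) hcard' hli G hGi ν n J hνJ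
  obtain ⟨-, hpν⟩ := pairing (fun i : (insert j r : Finset ι) => u i) hcard' hli G hGi ν ν J hνJ
  have hone : (fun i : (insert j r : Finset ι) => inner ℝ (u i) n) = fun _ => (1 : ℝ) := by
    funext i
    rw [real_inner_comm]
    exact hn i i.2
  have hsing : (fun i : (insert j r : Finset ι) => inner ℝ (u i) ν) = Pi.single J c := by
    funext i
    rw [real_inner_comm]
    by_cases hi : i = J
    · subst hi; simp [hcdef, hJ]
    · rw [Pi.single_eq_of_ne hi]; exact hνJ i hi
  rw [hone] at hpn
  rw [hsing, Matrix.mulVec_single] at hpν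
  have hcJ : inner ℝ ν (u (J : ι)) = c := rfl
  have hpn' : (G⁻¹.mulVec (fun _ => (1 : ℝ))) J * c = inner ℝ ν n := hpn
  have hpν' : G⁻¹ J J * c * c = ‖ν‖ ^ 2 := by
    rw [← real_inner_self_eq_norm_sq]
    simpa using hpν
  have hν0 : ν ≠ 0 := by
    rintro rfl
    apply hc
    rw [hcdef]; simp
  have hνn : 0 < ‖ν‖ := norm_pos_iff.mpr hν0
  -- the principal cofactor
  have hadj : G.adjugate J J = (GMq q r F).det := by
    have h := adj_diag (Finset.subtypeInsertEquivOption hj).symm G
    exact h
  have hinv : G.det * G⁻¹ J J = (GMq q r F).det := by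
    rw [← hadj, Matrix.inv_def]
    simp only [Matrix.smul_apply, smul_eq_mul, Ring.inverse_eq_inv']
    field_simp
  have hD : G.det * ‖ν‖ ^ 2 = (GMq q r F).det * c ^ 2 := by
    rw [← hpν', ← hinv]; ring
  have hc2 : 0 < c ^ 2 := by positivity
  have hDpos : 0 < (GMq q r F).det := by
    have h1 : 0 < (GMq q r F).det * c ^ 2 := by rw [← hD]; positivity
    exact (mul_pos_iff_of_pos_right hc2).mp h1
  refine ⟨hDpos, ?_⟩
  have hdetG : G.det = (GMq q r F).det * (|c| / ‖ν‖) ^ 2 := by
    rw [div_pow, sq_abs]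
    field_simp
    linarith [hD]
  have hsqrt : Real.sqrt G.det = Real.sqrt (GMq q r F).det * (|c| / ‖ν‖) := by
    rw [hdetG, Real.sqrt_mul hDpos.le, Real.sqrt_sq (by positivity)]
  have hx : (G⁻¹.mulVec (fun _ => (1 : ℝ))) J = inner ℝ n ν / c := by
    rw [eq_div_iff hc, hpn', real_inner_comm]
  show Real.sqrt G.det * (G⁻¹.mulVec (fun _ => (1 : ℝ))) J = _
  rw [hsqrt, hx]

theorem t : TaskN4 := by
  intro ι m u q F r j j' n n' ν hj hj' hcard hcard' hli hli' hG hG' hn hn' hν hc hc'
  obtain ⟨hD, h1⟩ := krEq u q F r j n ν hj hcard hli hG hn hν hc.ne'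
  obtain ⟨-, h2⟩ := krEq u q F r j' n' ν hj' hcard' hli' hG' hn' hν hc'.ne
  have hν0 : ν ≠ 0 := by
    rintro rfl
    simp at hc
  have hνn : 0 < ‖ν‖ := norm_pos_iff.mpr hν0
  have hsum : kr q r j F + kr q r j' F =
      Real.sqrt (GMq q r F).det / ‖ν‖ * inner ℝ (n - n') ν := by
    rw [h1, h2, abs_of_pos hc, abs_of_neg hc', inner_sub_left]
    have e1 := hc.ne'
    have e2 := hc'.ne
    field_simp
    ring
  have hs : 0 < Real.sqrt (GMq q r F).det / ‖ν‖ := div_pos (Real.sqrt_pos.mpr hD) hνn
  rw [hsum]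
  exact ⟨fun h => mul_nonneg hs.le h, fun h => mul_pos hs h⟩

end Pool.Agent.H242R3.ES.N4H946
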