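import Pool.Agent.H242R3.ES.StmtsN

/-!
# PROJECT H242-ES, N7: uniqueness of the flag decomposition
-/

set_option autoImplicit false
set_option maxHeartbeats 4000000

open MeasureTheory Finset
open scoped Classical

namespace Pool.Agent.H242R3.ES

namespace N7

variable {ι E : Type} [Fintype ι] [AddCommGroup E] [Module ℝ E]

theorem map_Y (V : ι → E) (l : E →ₗ[ℝ] ℝ) (R : Set ι) :
    l (Y V R) = ∑ k ∈ Finset.univ.filter (· ∈ R), l (V k) := by
  unfold Y
  rw [map_sum]

theorem Y_nonneg (V : ι → E) (l : E →ₗ[ℝ] ℝ) (h0 : ∀ i, 0 ≤ l (V i)) (R : Set ι) :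
    0 ≤ l (Y V R) := by
  rw [map_Y]
  exact Finset.sum_nonneg fun i _ => h0 i

theorem Y_zero (V : ι → E) (l : E →ₗ[ℝ] ℝ) (T : Set ι) (hl : ∀ i, i ∈ T ↔ l (V i) = 0)
    (R : Set ι) (hR : R ⊆ T) : l (Y V R) = 0 := by
  rw [map_Y]
  apply Finset.sum_eq_zero
  intro k hk
  rw [Finset.mem_filter] at hk
  exact (hl k).1 (hR hk.2)

theorem sub_of_zero (V : ι → E) (l : E →ₗ[ℝ] ℝ) (h0 : ∀ i, 0 ≤ l (V i)) (T : Set ι)
    (hl : ∀ i, i ∈ T ↔ l (V i) = 0) (R : Set ι) (hR : l (Y V R) = 0) : R ⊆ T := by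
  rw [map_Y, Finset.sum_eq_zero_iff_of_nonneg (fun i _ => h0 i)] at hR
  intro k hk
  exact (hl k).2 (hR k (by rw [Finset.mem_filter]; exact ⟨Finset.mem_univ _, hk⟩))

theorem key (V : ι → E) (j : ι) (T : Set ι) (hT : Face V T) (hj : j ∈ T)
    (s s' : Finset (Set ι)) (y y' : ℝ) (c c' : Set ι → ℝ) (hc : ∀ R ∈ s, 0 < c R)
    (hs' : ∀ R ∈ s', R ⊆ T)
    (h : y • V j + ∑ R ∈ s, c R • Y V R = y' • V j + ∑ R ∈ s', c' R • Y V R) :
    ∀ R ∈ s, R ⊆ T := by
  obtain ⟨l, h0, hl⟩ := hT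
  have h1 := congrArg l h
  rw [map_add, map_add, map_smul, map_smul, map_sum, map_sum, (hl j).1 hj] at h1
  have h2 : ∑ R ∈ s', l (c' R • Y V R) = 0 := by
    apply Finset.sum_eq_zero
    intro R hR
    rw [map_smul, Y_zero V l T hl R (hs' R hR), smul_zero]
  rw [h2, smul_zero, smul_zero, zero_add, zero_add] at h1
  rw [Finset.sum_eq_zero_iff_of_nonneg] at h1
  · intro R hR
    have h3 := h1 R hR
    rw [map_smul, smul_eq_mul] at h3
    rcases mul_eq_zero.1 h3 with h4 | h4
    · exact absurd h4 (hc R hR).ne'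
    · exact sub_of_zero V l h0 T hl R h4
  · intro R hR
    rw [map_smul, smul_eq_mul]
    exact mul_nonneg (hc R hR).le (Y_nonneg V l h0 R)

theorem exists_top (s : Finset (Set ι)) (hs : s.Nonempty)
    (hch : ∀ R ∈ s, ∀ R' ∈ s, R ⊆ R' ∨ R' ⊆ R) : ∃ T ∈ s, ∀ R ∈ s, R ⊆ T := by
  obtain ⟨T, hT, hmax⟩ := Finset.exists_max_image s (fun R => R.ncard) hs
  refine ⟨T, hT, fun R hR => ?_⟩
  rcases hch R hR T hT with h | h
  · exact h
  · have h1 : T = R := Set.eq_of_subset_of_ncard_le h (hmax R hR) (Set.toFinite R)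
    rw [h1]

/-- the case `c T < c' T` at the common top is impossible; the induction step. -/
theorem main (V : ι → E) (j : ι) (hv : ∀ i, Face V {i}) (n : ℕ) :
    ∀ (s s' : Finset (Set ι)), s.card + s'.card = n →
    (∀ R ∈ s, Face V R ∧ j ∈ R ∧ R ≠ {j}) → (∀ R ∈ s', Face V R ∧ j ∈ R ∧ R ≠ {j}) →
    (∀ R ∈ s, ∀ R' ∈ s, R ⊆ R' ∨ R' ⊆ R) → (∀ R ∈ s', ∀ R' ∈ s', R ⊆ R' ∨ R' ⊆ R) →
    ∀ (y y' : ℝ) (c c' : Set ι → ℝ), (∀ R ∈ s, 0 < c R) → (∀ R ∈ s', 0 < c' R) →
    y • V j + ∑ R ∈ s, c R • Y V R = y' • V j + ∑ R ∈ s', c' R • Y V R →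
    s = s' ∧ ∀ R ∈ s, c R = c' R := by
  induction n using Nat.strong_induction_on with
  | _ n ih =>
  intro s s' hn hs hs' hch hch' y y' c c' hc hc' h
  -- a side with empty support
  have emp : ∀ (s s' : Finset (Set ι)) (y y' : ℝ) (c c' : Set ι → ℝ), s' = ∅ →
      (∀ R ∈ s, Face V R ∧ j ∈ R ∧ R ≠ {j}) → (∀ R ∈ s, 0 < c R) →
      y • V j + ∑ R ∈ s, c R • Y V R = y' • V j + ∑ R ∈ s', c' R • Y V R → s = ∅ := by
    intro s s' y y' c c' he hs hc h
    by_contra hne
    obtain ⟨R, hR⟩ := Finset.nonempty_iff_ne_empty.2 hne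
    have h1 := key V j {j} (hv j) rfl s s' y y' c c' hc (by rw [he]; simp) h R hR
    exact (hs R hR).2.2 (Set.Subset.antisymm h1 (Set.singleton_subset_iff.2 (hs R hR).2.1))
  by_cases he' : s' = ∅
  · have h1 := emp s s' y y' c c' he' hs hc h
    subst he' h1
    exact ⟨rfl, by simp⟩
  by_cases he : s = ∅
  · exact absurd (emp s' s y' y c' c he hs' hc' h.symm) he'
  obtain ⟨T, hT, hTs⟩ := exists_top s (Finset.nonempty_iff_ne_empty.2 he) hch
  obtain ⟨T', hT', hTs'⟩ := exists_top s' (Finset.nonempty_iff_ne_empty.2 he') hch'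
  have h1 := key V j T' (hs' T' hT').1 (hs' T' hT').2.1 s s' y y' c c' hc hTs' h T hT
  have h2 := key V j T (hs T hT).1 (hs T hT).2.1 s' s y' y c' c hc' hTs h.symm T' hT'
  have hTT : T' = T := Set.Subset.antisymm h2 h1
  subst hTT
  -- step for `c T < c' T`
  have step : ∀ (s s' : Finset (Set ι)), s.card + s'.card = n →
      (∀ R ∈ s, Face V R ∧ j ∈ R ∧ R ≠ {j}) → (∀ R ∈ s', Face V R ∧ j ∈ R ∧ R ≠ {j}) →
      (∀ R ∈ s, ∀ R' ∈ s, R ⊆ R' ∨ R' ⊆ R) → (∀ R ∈ s', ∀ R' ∈ s', R ⊆ R' ∨ R' ⊆ R) →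
      ∀ (y y' : ℝ) (c c' : Set ι → ℝ), (∀ R ∈ s, 0 < c R) → (∀ R ∈ s', 0 < c' R) →
      y • V j + ∑ R ∈ s, c R • Y V R = y' • V j + ∑ R ∈ s', c' R • Y V R →
      T' ∈ s → T' ∈ s' → c T' < c' T' → False := by
    intro s s' hn hs hs' hch hch' y y' c c' hc hc' h hT hT' hlt
    have hcard : (s.erase T').card + s'.card < n := by
      have := Finset.card_erase_lt_of_mem hT
      omega
    have h3 := ih _ hcard (s.erase T') s' rfl (fun R hR => hs R (Finset.mem_of_mem_erase hR)) hs'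
      (fun R hR R' hR' => hch R (Finset.mem_of_mem_erase hR) R' (Finset.mem_of_mem_erase hR'))
      hch' y y' c (Function.update c' T' (c' T' - c T'))
      (fun R hR => hc R (Finset.mem_of_mem_erase hR))
      (by
        intro R hR
        by_cases hRT : R = T'
        · subst hRT
          rw [Function.update_self]
          linarith
        · rw [Function.update_of_ne hRT]
          exact hc' R hR)
      (by
        have h4 : ∑ R ∈ s, c R • Y V R = ∑ R ∈ s.erase T', c R • Y V R + c T' • Y V T' :=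
          (Finset.sum_erase_add s _ hT).symm
        have h5 : ∑ R ∈ s', c' R • Y V R = ∑ R ∈ s'.erase T', c' R • Y V R + c' T' • Y V T' :=
          (Finset.sum_erase_add s' _ hT').symm
        have h6 : ∑ R ∈ s', (Function.update c' T' (c' T' - c T')) R • Y V R
            = ∑ R ∈ s'.erase T', c' R • Y V R + (c' T' - c T') • Y V T' := by
          rw [← Finset.sum_erase_add s' _ hT', Function.update_self]
          congr 1
          apply Finset.sum_congr rfl
          intro R hR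
          rw [Function.update_of_ne (Finset.ne_of_mem_erase hR)]
        rw [h4, h5] at h
        rw [h6, sub_smul]
        have h7 : y • V j + ∑ R ∈ s.erase T', c R • Y V R
            = (y • V j + (∑ R ∈ s.erase T', c R • Y V R + c T' • Y V T')) - c T' • Y V T' := by
          abel
        rw [h7, h]
        abel)
    have h8 : T' ∈ s.erase T' := by
      rw [h3.1]
      exact hT'
    exact absurd h8 (Finset.notMem_erase _ _)
  rcases lt_trichotomy (c T') (c' T') with hlt | heq | hgt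
  · exact (step s s' hn hs hs' hch hch' y y' c c' hc hc' h hT hT' hlt).elim
  · have hcard : (s.erase T').card + (s'.erase T').card < n := by
      have h3 := Finset.card_erase_lt_of_mem hT
      have h4 := Finset.card_erase_lt_of_mem hT'
      omega
    have h3 := ih _ hcard (s.erase T') (s'.erase T') rfl
      (fun R hR => hs R (Finset.mem_of_mem_erase hR))
      (fun R hR => hs' R (Finset.mem_of_mem_erase hR))
      (fun R hR R' hR' => hch R (Finset.mem_of_mem_erase hR) R' (Finset.mem_of_mem_erase hR'))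
      (fun R hR R' hR' => hch' R (Finset.mem_of_mem_erase hR) R' (Finset.mem_of_mem_erase hR'))
      y y' c c'
      (fun R hR => hc R (Finset.mem_of_mem_erase hR))
      (fun R hR => hc' R (Finset.mem_of_mem_erase hR))
      (by
        have h4 : ∑ R ∈ s, c R • Y V R = ∑ R ∈ s.erase T', c R • Y V R + c T' • Y V T' :=
          (Finset.sum_erase_add s _ hT).symm
        have h5 : ∑ R ∈ s', c' R • Y V R = ∑ R ∈ s'.erase T', c' R • Y V R + c' T' • Y V T' :=
          (Finset.sum_erase_add s' _ hT').symm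
        rw [h4, h5, heq, ← add_assoc, ← add_assoc] at h
        exact add_right_cancel h)
    refine ⟨?_, ?_⟩
    · rw [← Finset.insert_erase hT, ← Finset.insert_erase hT', h3.1]
    · intro R hR
      by_cases hRT : R = T'
      · rw [hRT]
        exact heq
      · exact h3.2 R (Finset.mem_erase.2 ⟨hRT, hR⟩)
  · exact (step s' s (by omega) hs' hs hch' hch y' y c' c hc' hc h.symm hT' hT hgt).elim

end N7

theorem tN7 : FlUn := by
  intro ι E _ _ _ _ V j hv s s' hs hs' hch hch' y y' c c' hc hc' h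
  have h1 : ∑ R ∈ s', c' R • Y V R = ∑ R ∈ s'.filter (fun R => 0 < c' R), c' R • Y V R := by
    symm
    apply Finset.sum_subset (Finset.filter_subset _ _)
    intro R hR hR'
    rw [Finset.mem_filter, not_and] at hR'
    have h2 : c' R = 0 := le_antisymm (not_lt.1 (hR' hR)) (hc' R hR)
    rw [h2, zero_smul]
  rw [h1] at h
  have h2 := N7.main V j hv _ s (s'.filter (fun R => 0 < c' R)) rfl hs
    (fun R hR => hs' R (Finset.mem_of_mem_filter R hR)) hch
    (fun R hR R' hR' => hch' R (Finset.mem_of_mem_filter R hR) R' (Finset.mem_of_mem_filter R' hR'))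
    y y' c c' hc (fun R hR => (Finset.mem_filter.1 hR).2) h
  refine ⟨?_, h2.2, ?_⟩
  · rw [h2.1]
    exact Finset.filter_subset _ _
  · intro R hR hRs
    by_contra hne
    apply hRs
    rw [h2.1, Finset.mem_filter]
    exact ⟨hR, lt_of_le_of_ne (hc' R hR) (Ne.symm hne)⟩

end Pool.Agent.H242R3.ES
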