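import Pool.Agent.H242R3.ES.StmtsN
import Pool.Agent.SphJam.Farkas

/-! Task N8b (helper247): the cones of the flags cover space. -/

set_option autoImplicit false

open Finset
open scoped Classical

namespace Pool.Agent.H242R3.ES.N8bH247

open Pool.Agent.H242R3.ES

section

variable {ι E : Type} [Fintype ι] [AddCommGroup E] [Module ℝ E]

omit [Fintype ι] in
/-- a functional vanishing on the spanning family vanishes -/
theorem ext_span {V : ι → E} (hV : Submodule.span ℝ (Set.range V) = ⊤) {f : E →ₗ[ℝ] ℝ}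
    (h : ∀ k, f (V k) = 0) : f = 0 := by
  apply LinearMap.ext_on_range hV
  intro i
  rw [h i]
  rfl

/-- Farkas lemma at the ray `j` -/
theorem farkas [FiniteDimensional ℝ E] {V : ι → E} {j : ι} (hj : Face V {j}) (z : E)
    (hz : ∀ l : E →ₗ[ℝ] ℝ, (∀ i, 0 ≤ l (V i)) → l (V j) = 0 → 0 ≤ l z) :
    ∃ (y : ℝ) (a : ι → ℝ), (∀ k, 0 ≤ a k) ∧ z = y • V j + ∑ k, a k • V k := by
  obtain ⟨l, hl0, hl⟩ := hj
  have hlj : l (V j) = 0 := (hl j).1 rfl
  have hpos : ∀ k, k ≠ j → 0 < l (V k) := fun k hk =>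
    lt_of_le_of_ne (hl0 k) (fun h => hk ((hl k).2 h.symm))
  set W := Submodule.span ℝ {V j} with hW
  have hlW : ∀ y ∈ W, l y = 0 := by
    intro y hy
    rw [hW, Submodule.mem_span_singleton] at hy
    obtain ⟨c, rfl⟩ := hy
    rw [map_smul, hlj, smul_zero]
  let K := {k : ι // k ≠ j}
  let ev : E → Module.Dual ℝ (E ⧸ W) →ₗ[ℝ] ℝ := fun x => Module.Dual.eval ℝ (E ⧸ W) (W.mkQ x)
  rcases SphJam.farkas_strict (U := Module.Dual ℝ (E ⧸ W)) (K := Option K)
    (fun o => o.elim (ev z) (fun k => - ev (V k.1))) (fun _ => 0) with ⟨a, ha⟩ | ⟨w, hw0, hw1, hw2, -⟩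
  · exfalso
    let g : E →ₗ[ℝ] ℝ := a.comp W.mkQ
    have hgj : g (V j) = 0 := by
      have h1 : V j ∈ W := Submodule.mem_span_singleton_self _
      have h2 : W.mkQ (V j) = 0 := by
        rw [Submodule.mkQ_apply]
        exact (Submodule.Quotient.mk_eq_zero W).2 h1
      show a (W.mkQ (V j)) = 0
      rw [h2, map_zero]
    have hgz : g z < 0 := by
      have := ha none
      simpa [ev, g] using this
    have hgk : ∀ k, 0 ≤ g (V k) := by
      intro k
      by_cases hk : k = j
      · rw [hk, hgj]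
      · have := ha (some ⟨k, hk⟩)
        have h2 : 0 < g (V k) := by simpa [ev, g] using this
        exact h2.le
    exact absurd (hz g hgk hgj) (not_le.2 hgz)
  · have hrel : w none • z - ∑ k : K, w (some k) • V k.1 ∈ W := by
      rw [← Submodule.Quotient.mk_eq_zero W, ← Submodule.mkQ_apply,
        ← Module.forall_dual_apply_eq_zero_iff ℝ]
      intro a
      have h1 := hw2 a
      rw [Fintype.sum_option] at h1
      simp only [Option.elim_none, Option.elim_some, LinearMap.neg_apply, ev,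
        Module.Dual.eval_apply] at h1
      rw [map_sub, map_sub, map_smul, map_smul, map_sum, map_sum, smul_eq_mul]
      rw [← h1, sub_eq_add_neg, ← Finset.sum_neg_distrib]
      congr 1
      refine Finset.sum_congr rfl (fun k _ => ?_)
      rw [map_smul, map_smul, smul_eq_mul]
      ring
    have hw3 : 0 < w none := by
      refine lt_of_le_of_ne (hw0 none) (fun h0 => ?_)
      have h1 := hlW _ hrel
      rw [← h0, zero_smul, zero_sub, map_neg, map_sum, neg_eq_zero] at h1
      rw [Finset.sum_eq_zero_iff_of_nonneg] at h1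
      · obtain ⟨o, ho⟩ := hw1
        cases o with
        | none => exact ho h0.symm
        | some k =>
          have h2 := h1 k (Finset.mem_univ _)
          rw [map_smul, smul_eq_mul] at h2
          rcases mul_eq_zero.1 h2 with h3 | h3
          · exact ho h3
          · exact (hpos k.1 k.2).ne' h3
      · intro k _
        rw [map_smul, smul_eq_mul]
        exact mul_nonneg (hw0 _) (hl0 _)
    rw [hW, Submodule.mem_span_singleton] at hrel
    obtain ⟨c, hc⟩ := hrel
    let a : ι → ℝ := fun k => if h : k ≠ j then w (some ⟨k, h⟩) / w none else 0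
    have hasum : ∑ k, a k • V k = (w none)⁻¹ • ∑ k : K, w (some k) • V k.1 := by
      rw [Finset.smul_sum]
      have h1 : ∑ k, a k • V k = ∑ k ∈ Finset.univ.filter (fun k => k ≠ j), a k • V k := by
        symm
        apply Finset.sum_subset (Finset.subset_univ _)
        intro k _ hk
        have : ¬ (k ≠ j) := fun h => hk (by simpa using h)
        simp only [a]
        rw [dif_neg this, zero_smul]
      rw [h1]
      rw [Finset.sum_subtype (p := fun k => k ≠ j) _ (by simp)]
      refine Finset.sum_congr rfl (fun k _ => ?_)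
      simp only [a]
      rw [dif_pos k.2, smul_smul]
      congr 1
      rw [div_eq_inv_mul]
    refine ⟨(w none)⁻¹ * c, a, ?_, ?_⟩
    · intro k
      simp only [a]
      split_ifs with h
      · exact div_nonneg (hw0 _) hw3.le
      · exact le_rfl
    · rw [hasum, mul_smul, hc, smul_sub, smul_smul, inv_mul_cancel₀ hw3.ne', one_smul]
      abel

/-- the point where the line leaves the cone -/
theorem touch [FiniteDimensional ℝ E] {V : ι → E} {j : ι} {o : E}
    (hspan : Submodule.span ℝ (Set.range V) = ⊤) (hj : Face V {j})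
    (hd : 2 ≤ Module.finrank ℝ E) (ho : Opp V j o) (z0 : E) :
    ∃ (t : ℝ) (l : E →ₗ[ℝ] ℝ), (∀ i, 0 ≤ l (V i)) ∧ l (V j) = 0 ∧ l ≠ 0 ∧ l (z0 + t • o) = 0 ∧
      ∀ l' : E →ₗ[ℝ] ℝ, (∀ i, 0 ≤ l' (V i)) → l' (V j) = 0 → 0 ≤ l' (z0 + t • o) := by
  have hz0 : z0 ∈ Submodule.span ℝ (Set.range V) := by rw [hspan]; trivial
  have hoo : o ∈ Submodule.span ℝ (Set.range V) := by rw [hspan]; trivial
  obtain ⟨b, hb⟩ := (Submodule.mem_span_range_iff_exists_fun ℝ).1 hz0
  obtain ⟨d, hd'⟩ := (Submodule.mem_span_range_iff_exists_fun ℝ).1 hoo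
  let Φ : (E →ₗ[ℝ] ℝ) →ₗ[ℝ] (ι → ℝ) := LinearMap.pi (fun i => LinearMap.applyₗ (V i))
  have hΦ : ∀ l i, Φ l i = l (V i) := fun l i => rfl
  have hlb : ∀ l : E →ₗ[ℝ] ℝ, l z0 = ∑ i, b i * Φ l i := by
    intro l
    rw [← hb, map_sum]
    exact Finset.sum_congr rfl (fun i _ => by rw [map_smul, smul_eq_mul, hΦ])
  have hld : ∀ l : E →ₗ[ℝ] ℝ, l o = ∑ i, d i * Φ l i := by
    intro l
    rw [← hd', map_sum]
    exact Finset.sum_congr rfl (fun i _ => by rw [map_smul, smul_eq_mul, hΦ])
  let K : Set (ι → ℝ) := stdSimplex ℝ ι ∩ ((LinearMap.range Φ : Set (ι → ℝ)) ∩ {v | v j = 0})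
  have hK : IsCompact K := by
    apply (isCompact_stdSimplex ℝ ι).inter_right
    apply IsClosed.inter
    · exact Submodule.closed_of_finiteDimensional _
    · exact isClosed_eq (continuous_apply j) continuous_const
  -- normalisation of functionals
  have hnorm : ∀ l : E →ₗ[ℝ] ℝ, (∀ i, 0 ≤ l (V i)) → l (V j) = 0 → l ≠ 0 →
      0 < ∑ i, l (V i) ∧ Φ ((∑ i, l (V i))⁻¹ • l) ∈ K := by
    intro l hl0 hlj hl
    have hS : 0 < ∑ i, l (V i) := by
      refine lt_of_le_of_ne (Finset.sum_nonneg fun i _ => hl0 i) (fun h => hl ?_)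
      apply ext_span hspan
      intro k
      exact (Finset.sum_eq_zero_iff_of_nonneg (fun i _ => hl0 i)).1 h.symm k (Finset.mem_univ _)
    refine ⟨hS, ⟨?_, ?_⟩, ⟨_, rfl⟩, ?_⟩
    · intro i
      rw [hΦ, LinearMap.smul_apply, smul_eq_mul]
      exact mul_nonneg (inv_nonneg.2 hS.le) (hl0 i)
    · simp only [hΦ, LinearMap.smul_apply, smul_eq_mul]
      rw [← Finset.mul_sum]
      exact inv_mul_cancel₀ hS.ne'
    · show Φ _ j = 0
      rw [hΦ, LinearMap.smul_apply, hlj, smul_zero]
  have hne : K.Nonempty := by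
    obtain ⟨l, hl0, hl⟩ := hj
    refine ⟨_, (hnorm l hl0 ((hl j).1 rfl) ?_).2⟩
    rintro rfl
    have h1 : Set.range V ⊆ {V j} := by
      rintro _ ⟨i, rfl⟩
      have : i ∈ ({j} : Set ι) := (hl i).2 rfl
      rw [Set.mem_singleton_iff.1 this]
      rfl
    have h2 : (⊤ : Submodule ℝ E) ≤ Submodule.span ℝ {V j} := by
      rw [← hspan]
      exact Submodule.span_mono h1
    have h3 := Submodule.finrank_mono h2
    have h4 := finrank_span_le_card (R := ℝ) ({V j} : Set E)
    rw [finrank_top] at h3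
    simp at h4
    omega
  -- elements of `K` come from functionals
  have hKl : ∀ v ∈ K, ∃ l : E →ₗ[ℝ] ℝ, Φ l = v ∧ (∀ i, 0 ≤ l (V i)) ∧ l (V j) = 0 ∧ l ≠ 0 := by
    rintro v ⟨hv1, ⟨l, rfl⟩, hv3⟩
    refine ⟨l, rfl, fun i => hv1.1 i, hv3, ?_⟩
    rintro rfl
    have := hv1.2
    simp at this
  have hdpos : ∀ v ∈ K, 0 < ∑ i, d i * v i := by
    intro v hv
    obtain ⟨l, rfl, h1, h2, h3⟩ := hKl v hv
    rw [← hld]
    exact ho l h1 h2 h3
  have hcont : ContinuousOn (fun v : ι → ℝ => -(∑ i, b i * v i) / ∑ i, d i * v i) K := by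
    apply ContinuousOn.div
    · fun_prop
    · fun_prop
    · intro v hv
      exact (hdpos v hv).ne'
  obtain ⟨v, hv, hmax⟩ := hK.exists_isMaxOn hne hcont
  obtain ⟨l, rfl, h1, h2, h3⟩ := hKl v hv
  refine ⟨-(∑ i, b i * Φ l i) / ∑ i, d i * Φ l i, l, h1, h2, h3, ?_, ?_⟩
  · rw [map_add, map_smul, smul_eq_mul, ← hlb, ← hld]
    have := (ho l h1 h2 h3).ne'
    field_simp
    ring
  · intro l' h1' h2'
    by_cases hl' : l' = 0
    · rw [hl']; simp
    · obtain ⟨hS, hKm⟩ := hnorm l' h1' h2' hl'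
      have h4 := hmax hKm
      simp only [Set.mem_ofPred_eq] at h4
      rw [← hlb, ← hld, ← hlb, ← hld] at h4
      rw [← hlb, ← hld]
      set t := -(l z0) / l o
      have h5 : 0 < l' o := ho l' h1' h2' hl'
      rw [LinearMap.smul_apply, LinearMap.smul_apply, smul_eq_mul, smul_eq_mul] at h4
      have h6 : -((∑ i, l' (V i))⁻¹ * l' z0) / ((∑ i, l' (V i))⁻¹ * l' o) = -(l' z0) / l' o := by
        field_simp
      rw [h6, div_le_iff₀ h5] at h4
      rw [map_add, map_smul, smul_eq_mul]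
      linarith

end

theorem t : TaskN8b := by
  intro _ hPM hEx ι E _ _ _ _ V j o m p h8 y
  obtain ⟨z0, rfl⟩ := h8.surj y
  have hd : 2 ≤ Module.finrank ℝ E := by rw [h8.fin]; omega
  obtain ⟨t, l, hl0, hlj, hl, hlz, hall⟩ := touch h8.span (h8.vert j) hd h8.opp z0
  obtain ⟨y1, a, ha, hz⟩ := farkas (h8.vert j) (z0 + t • o) hall
  have haT : ∀ k, a k ≠ 0 → k ∈ {i | l (V i) = 0} := by
    intro k hk
    rw [hz, map_add, map_smul, hlj, smul_zero, zero_add, map_sum] at hlz
    rw [Finset.sum_eq_zero_iff_of_nonneg] at hlz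
    · have := hlz k (Finset.mem_univ _)
      rw [map_smul, smul_eq_mul] at this
      rcases mul_eq_zero.1 this with h | h
      · exact absurd h hk
      · exact h
    · intro i _
      rw [map_smul, smul_eq_mul]
      exact mul_nonneg (ha i) (hl0 i)
  have hT : Face V {i | l (V i) = 0} := ⟨l, hl0, fun i => Iff.rfl⟩
  obtain ⟨s, y2, c, hs1, hs2, hc, hzs⟩ := hEx ι E V j h8.vert _ hT hlj _ ⟨y1, a, ha, haT, hz⟩
  obtain ⟨-, -, -, hPM4⟩ := hPM ι E V j m h8.vert h8.span h8.fin h8.one
  obtain ⟨s', hs', hss'⟩ := hPM4 s (fun R hR => by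
    obtain ⟨r1, r2, r3, r4⟩ := hs1 R hR
    refine ⟨r1, r2, r3, ?_⟩
    rintro rfl
    apply hl
    exact ext_span h8.span (fun k => r4 (Set.mem_univ k))) hs2
  refine ⟨s', hs', fun R => if R ∈ s then c R else 0, ?_, ?_⟩
  · intro R
    dsimp only
    split_ifs
    · exact hc R
    · exact le_rfl
  · have hpj : p (V j) = 0 := by
      have : V j ∈ LinearMap.ker p := by
        rw [h8.ker]
        exact Submodule.subset_span (by simp)
      exact this
    have hpo : p o = 0 := by
      have : o ∈ LinearMap.ker p := by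
        rw [h8.ker]
        exact Submodule.subset_span (by simp)
      exact this
    have h1 : p (z0 + t • o) = p z0 := by
      rw [map_add, map_smul, hpo, smul_zero, add_zero]
    rw [← h1, hzs, map_add, map_smul, hpj, smul_zero, zero_add, map_sum]
    rw [← Finset.sum_subset hss' (f := fun R => (if R ∈ s then c R else 0) • p (Y V R))]
    · refine Finset.sum_congr rfl (fun R hR => ?_)
      rw [if_pos hR, map_smul]
    · intro R _ hR
      rw [if_neg hR, zero_smul]

end Pool.Agent.H242R3.ES.N8bH247
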