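import Mathlib
import Pool.Agent.H242R3.ES.Stmts
import Pool.Agent.H242R3.ES.StmtsG
import Pool.Agent.H242R3.ES.StmtsN
import Pool.Agent.H242R3.ES.StmtsK
import Pool.Agent.H242R3.ES.AsmG
import Pool.Agent.H023R3.ES.TLa
import Pool.Agent.H725R3.ES.TLb
import Pool.Agent.H780R3.ES.F1
import Pool.Agent.H242R3.ES.F3_helper861
import Pool.Agent.H603R3.ES_G1
import Pool.Agent.H856R3.ESG2
import Pool.Agent.H78R3.ES.G3
import Pool.Agent.H925R.ES.G4
import Pool.Agent.H769R3.ES.G5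
import Pool.Agent.H662R3.ES.G6
import Pool.Agent.H844R3.ES.G7
import Pool.Agent.H242R3.ES.G8_helper247
import Pool.Agent.H146R3.ES.P1G
import Pool.Agent.H760R3.ES.P7
import Pool.Agent.H666R3.ES.TR1
import Pool.Agent.H115R3.ES.TR2
import Pool.Agent.H454R3.ES.Trans
import Pool.Agent.H498R3.ESN1
import Pool.Agent.H574R3.ES.N2
import Pool.Agent.H896R3.ES.N3
import Pool.Agent.H242R3.ES.N4_helper946
import Pool.Agent.H174R3.ES.N5
import Pool.Agent.H602R3.ES_N6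
import Pool.Agent.H242R3.ES.N7
import Pool.Agent.H826R3.ES.N8a
import Pool.Agent.H242R3.ES.N8b_helper247
import Pool.Agent.H220R3.ESN8c
import Pool.Agent.H501R3.ES.N8d
import Pool.Agent.H242R3.ES.N10c_helper684
import Pool.Agent.H630R3.ES.N10a
import Pool.Agent.H841.ES.N10b
import Pool.Agent.H233R3.ES.N9
import Pool.Agent.H257R3.ESN11
import Pool.Agent.H154R5.ES_N12
import Pool.Agent.H318R3.ES.N13
import Pool.Agent.H780R3.ES.N14
import Pool.Agent.H885R3.ESN15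
import Pool.Agent.H722R5.ES.N16
import Pool.Agent.H242R3.ES.K0_helper247
import Pool.Agent.H979R3.ES.K1
import Pool.Agent.H291R3.ESK2
import Pool.Agent.H224R3.ES.K3
import Pool.Agent.H87R3.ESK.K4
import Pool.Agent.H531R3.ES.K5a
import Pool.Agent.H242R3.ES.K5b
import Pool.Agent.H769R3.ES.K6
import Pool.Agent.H298R3.ES.K7
import Pool.Agent.H242R3.ES.K9_helper873
import Pool.Agent.H242R3.ES.K10a_helper340
import Pool.Agent.H242R3.ES.K10b_helper875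
import Pool.Agent.H124R3.ES_K11
import Pool.Agent.H957R3.ES.K12
import Pool.Agent.H939R3.ES.K13
import Pool.Agent.H725R3.ES.K14

set_option autoImplicit false
open scoped Classical

namespace Pool.Agent.H242R3.ES.Full

open Pool.Agent.H242R3.ES

theorem tTL : TaskTL := by
  have hTLs : Pool.Agent.H725R3.ES.TLaStmt := by
    intro κ _ m s u hc hl
    exact Pool.Agent.H023R3.ES.tla s u hc hl
  exact Pool.Agent.H725R3.ES.taskTL_of hTLs

theorem g5 : TaskG5 := Pool.Agent.H769R3.ES.t Pool.Agent.H603R3.ESG1.t Pool.Agent.H242R3.ES.G3H78.t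

theorem g7 : TaskG7 := Pool.Agent.H844R3.ES.G7.t Pool.Agent.H242R3.ES.G3H78.t Pool.Agent.H856R3.ESG2.t

theorem genV : GenV := Pool.Agent.H242R3.ES.G8H247.t g5 Pool.Agent.H662R3.ES.t

theorem p7 : P7G := Pool.Agent.H760R3.ES.t Pool.Agent.H146R3.ES.P1G.t genV

theorem stepV : ∀ m : ℕ, 2 ≤ m → StepV (m + 1) :=
  stepV_of Pool.Agent.H856R3.ESG2.t Pool.Agent.H242R3.ES.G3H78.t Pool.Agent.H925R.ES.G4.t
    Pool.Agent.H662R3.ES.t g7 genV _root_.H498R3.ESN1.t Pool.Agent.H574R3.ESN2.t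
    Pool.Agent.H896R3.ESN3.t Pool.Agent.H242R3.ES.N4H946.t Pool.Agent.H242R3.ES.N5H174.t
    Pool.Agent.H602R3.ESN6.t Pool.Agent.H242R3.ES.tN7 Pool.Agent.H826R3.ES.t
    Pool.Agent.H242R3.ES.N8bH247.t Pool.Agent.H220R3.ESN8c.t Pool.Agent.H501R3.ES.N8d.t
    Pool.Agent.H233R3.ES.t Pool.Agent.H630R3.ES.N10a.t Pool.Agent.H841.ESN10b.t
    Pool.Agent.H242R3.ES.N10c.t Pool.Agent.H257R3.ESN11.n11 Pool.Agent.H154R5.ESN12.t

theorem main3 (hK8a : TaskK8a) (hK8b : TaskK8b) : MainG 3 :=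
  main3_of Pool.Agent.H603R3.ESG1.t Pool.Agent.H856R3.ESG2.t Pool.Agent.H242R3.ES.G3H78.t
    Pool.Agent.H925R.ES.G4.t g5 Pool.Agent.H662R3.ES.t g7 genV p7 tTL
    Pool.Agent.H242R3.ES.K0H247.t Pool.Agent.H979R3.ES.K1.t Pool.Agent.H291R3.ESK2.t
    Pool.Agent.H224R3.ES.K3.t Pool.Agent.H87R3.ESK.t Pool.Agent.H531R3.ESK5a.t
    Pool.Agent.H242R3.ES.K5b.t Pool.Agent.H769R3.ES.K6.t Pool.Agent.H298R3.ES.t hK8a hK8b
    Pool.Agent.H242R3.ES.K9H873.t Pool.Agent.H242R3.ES.K10aH340.t Pool.Agent.H242R3.ES.K10b.t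
    Pool.Agent.H124R3.ESK11.t Pool.Agent.H957R3.ES.taskK12 Pool.Agent.H242R3.ES.K13H939.t
    Pool.Agent.H725R3.ESK14.t

theorem finalG (hK8a : TaskK8a) (hK8b : TaskK8b) : FinalG := by
  have hTR1 : TR1 := Pool.Agent.H666R3.ES.t Pool.Agent.H780R3.ES.t
  have hTR2 : TR2 := Pool.Agent.H115R3.ES.TR2.t Pool.Agent.H780R3.ES.t hTR1 genV
  exact Pool.Agent.H454R3.ES.t Pool.Agent.H780R3.ES.t Pool.Agent.H242R3.ES.F3.t hTR1 hTR2
    (main_of Pool.Agent.H603R3.ESG1.t Pool.Agent.H856R3.ESG2.t Pool.Agent.H242R3.ES.G3H78.t g5 g7 genV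
      Pool.Agent.H146R3.ES.P1G.t p7 (main3 hK8a hK8b) stepV Pool.Agent.H318R3.ES.projV
      Pool.Agent.H780R3.ES.N14.t Pool.Agent.H885R3.ESN15.taskN15 Pool.Agent.H722R5.ES.N16.t)

end Pool.Agent.H242R3.ES.Full
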