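import Mathlib
import Pool.Agent.H242R3.ES.StmtsK

/-!
# PROJECT H242-ES, K10b: connectivity at a vertex
-/

set_option autoImplicit false
set_option maxHeartbeats 4000000

open MeasureTheory Finset
open scoped Classical

namespace Pool.Agent.H242R3.ES.K10b

theorem rk_pair {ι E : Type} [Fintype ι] [AddCommGroup E] [Module ℝ E] [FiniteDimensional ℝ E]
    (V : ι → E) (hG2 : TaskG2) (v w : ι) (hv : Face V {v}) (hw : Face V {w}) (hvw : w ≠ v)
    (h : Face V {v, w}) : rk V {v, w} = 2 := by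
  have h1 : rk V {v} < rk V {v, w} := (hG2 ι E V {v} {v, w} hv h).2.1 (by
    refine ⟨by simp, fun hs => ?_⟩
    have := hs (show w ∈ ({v, w} : Set ι) by simp)
    exact hvw (by simpa using this))
  have hvne : V v ≠ 0 := by
    intro h0
    obtain ⟨m, hm0, hm1⟩ := hw
    have := (hm1 v).2 (by rw [h0, map_zero])
    exact hvw (by simpa using this.symm)
  have h2 : rk V {v} = 1 := by
    unfold rk
    rw [Set.image_singleton]
    exact finrank_span_singleton hvne
  have h3 : rk V {v, w} ≤ 2 := by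
    unfold rk
    rw [Set.image_pair]
    have := finrank_span_finset_le_card (R := ℝ) ({V v, V w} : Finset E)
    have h4 : (({V v, V w} : Finset E) : Set E) = {V v, V w} := by simp
    unfold Set.finrank at this
    rw [h4] at this
    exact this.trans Finset.card_le_two
  omega

theorem neg_term {ι E : Type} [Fintype ι] [AddCommGroup E] [Module ℝ E]
    (V : ι → E) (f : E →ₗ[ℝ] ℝ) (x y : E) (a : ι → ℝ) (ha : ∀ k, 0 ≤ a k) (hy : f y = 0)
    (hx : x = y + ∑ k, a k • V k) (hfx : f x < 0) : ∃ k, a k ≠ 0 ∧ f (V k) < 0 := by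
  by_contra hcon
  push Not at hcon
  have h1 : f x = ∑ k, a k * f (V k) := by
    rw [hx, map_add, hy, map_sum]
    simp
  have h2 : 0 ≤ ∑ k, a k * f (V k) := by
    refine Finset.sum_nonneg (fun k _ => ?_)
    by_cases h0 : a k = 0
    · rw [h0, zero_mul]
    · exact mul_nonneg (ha k) (hcon k h0)
  linarith

theorem t : TaskK10b := by
  intro hG2 hG5 hGV ι E _ _ _ _ V hV v M hne hcl u huv hu
  obtain ⟨l, hl0, hl1⟩ := id hu
  obtain ⟨h, hh0, hh1⟩ := hV v
  have hpos : ∀ w, w ≠ v → 0 < h (V w) := by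
    intro w hw
    rcases (hh0 w).lt_or_eq with h1 | h1
    · exact h1
    · exact absurd ((hh1 w).2 h1.symm) (by simpa using hw)
  let N : Finset ι := Finset.univ.filter (fun w => w ∈ M ∧ w ≠ v ∧ Face V {v, w})
  have hN : N.Nonempty := by
    obtain ⟨w, hw1, hw2, hw3⟩ := hne
    exact ⟨w, Finset.mem_filter.2 ⟨Finset.mem_univ _, hw1, hw2, hw3⟩⟩
  obtain ⟨w, hwN, hmin⟩ := Finset.exists_min_image N (fun w => l (V w) / h (V w)) hN
  obtain ⟨-, hwM, hwv, hFw⟩ := Finset.mem_filter.1 hwN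
  by_contra huM
  have hwu : w ≠ u := by
    rintro rfl
    exact huM hwM
  have hlv : l (V v) = 0 := (hl1 v).1 (by simp)
  have hlu : l (V u) = 0 := (hl1 u).1 (by simp)
  have hlw : 0 < l (V w) := by
    rcases (hl0 w).lt_or_eq with h1 | h1
    · exact h1
    · have := (hl1 w).2 h1.symm
      simp [hwv, hwu] at this
  have hhv : h (V v) = 0 := (hh1 v).1 (by simp)
  have hhw := hpos w hwv
  have hhu := hpos u huv
  obtain ⟨c, hc⟩ : ∃ c, c = l (V w) / h (V w) := ⟨_, rfl⟩
  have hcpos : 0 < c := by rw [hc]; positivity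
  obtain ⟨f, hf⟩ : ∃ f : E →ₗ[ℝ] ℝ, ∀ x, f x = l x - c * h x :=
    ⟨l - c • h, fun x => by simp⟩
  have hfv : f (V v) = 0 := by rw [hf, hlv, hhv]; ring
  have hfw : f (V w) = 0 := by
    rw [hf, hc, div_mul_cancel₀ _ hhw.ne', sub_self]
  have hfu : f (V u) < 0 := by
    rw [hf, hlu]
    have := mul_pos hcpos hhu
    linarith
  have hFu : Face V Set.univ := ⟨0, by simp, by simp⟩
  obtain ⟨y, a, hy, ha0, ha1, hya⟩ := hG5 ι E V {v, w} Set.univ hFw hFu
    ⟨Set.subset_univ _, fun hs => by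
      have := hs (Set.mem_univ u)
      simp [huv, hwu.symm] at this⟩ u (Set.mem_univ u)
  have hfy : f y = 0 := by
    have h1 : Submodule.span ℝ (V '' {v, w}) ≤ LinearMap.ker f := by
      rw [Submodule.span_le]
      rintro _ ⟨i, hi, rfl⟩
      rcases hi with rfl | hi
      · exact hfv
      · rw [Set.mem_singleton_iff.1 hi]
        exact hfw
    exact h1 hy
  obtain ⟨k, hak, hfk⟩ := neg_term V f (V u) y a ha0 hfy hya hfu
  obtain ⟨-, hkR, T, hT, -, hkT⟩ := ha1 k hak
  have hrkT : rk V T = 3 := by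
    rw [hT.2.2.2, rk_pair V hG2 v w (hV v) (hV w) hwv hFw]
  have hvT : v ∈ T := hT.2.2.1.1 (by simp)
  have hwT : w ∈ T := hT.2.2.1.1 (by simp)
  obtain ⟨y', b, hb0, hb1, hyb⟩ := hGV ι E V hV v T hT.2.1 hvT k hkT
  obtain ⟨j, hbj, hfj⟩ := neg_term V f (V k) (y' • V v) b hb0
    (by rw [map_smul, hfv, smul_zero]) hyb hfk
  obtain ⟨hjT, hjv, hFj⟩ := hb1 j hbj
  have hjM : j ∈ M := hcl w j T hwM hwv hjv hFw hFj hT.2.1 hrkT hvT hwT hjT
  have hle := hmin j (Finset.mem_filter.2 ⟨Finset.mem_univ _, hjM, hjv, hFj⟩)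
  have hhj := hpos j hjv

  rw [← hc, le_div_iff₀ hhj] at hle
  rw [hf] at hfj
  linarith

end Pool.Agent.H242R3.ES.K10b
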