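import Pool.Agent.H242R3.ES.StmtsK

set_option autoImplicit false
set_option maxHeartbeats 4000000

open MeasureTheory Finset
open scoped Classical

namespace Pool.Agent.H242R3.ES.K8a

open Pool.Agent.H242R3.ES

theorem B_comm (x y : LV 3) : B x y = B y x := by
  simp only [B, Fin.sum_univ_three]; ring

theorem B_add (x y z : LV 3) : B (x + y) z = B x z + B y z := by
  simp only [B, Fin.sum_univ_three, Pi.add_apply]; ring

theorem B_smul (c : ℝ) (x z : LV 3) : B (c • x) z = c * B x z := by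
  simp only [B, Fin.sum_univ_three, Pi.smul_apply, smul_eq_mul]; ring

theorem B_addr (x y z : LV 3) : B z (x + y) = B z x + B z y := by
  rw [B_comm, B_add, B_comm x, B_comm y]

theorem B_smulr (c : ℝ) (x z : LV 3) : B z (c • x) = c * B z x := by
  rw [B_comm, B_smul, B_comm x]

/-- the form as a linear map -/
noncomputable def Bl (z : LV 3) : LV 3 →ₗ[ℝ] ℝ where
  toFun x := B x z
  map_add' x y := B_add x y z
  map_smul' c x := by simp [B_smul]

theorem Bl_apply (z x : LV 3) : Bl z x = B x z := rfl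

theorem B_sum {α : Type} (s : Finset α) (c : α → ℝ) (w : α → LV 3) (z : LV 3) :
    B (∑ i ∈ s, c i • w i) z = ∑ i ∈ s, c i * B (w i) z := by
  have h : B (∑ i ∈ s, c i • w i) z = Bl z (∑ i ∈ s, c i • w i) := rfl
  rw [h, map_sum]
  refine Finset.sum_congr rfl fun i _ => ?_
  rw [Bl_apply, B_smul]

theorem pos_of_orth (t x : LV 3) (ht : B t t = -1) (hx : B x t = 0) (hne : x ≠ 0) : 0 < B x x := by
  simp only [B, Fin.sum_univ_three] at ht hx ⊢
  set a0 := x (some 0)
  set a1 := x (some 1)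
  set a2 := x (some 2)
  set a3 := x none
  set b0 := t (some 0)
  set b1 := t (some 1)
  set b2 := t (some 2)
  set b3 := t none
  have hcs : (a0 * b0 + a1 * b1 + a2 * b2) ^ 2 ≤
      (a0 * a0 + a1 * a1 + a2 * a2) * (b0 * b0 + b1 * b1 + b2 * b2) := by
    nlinarith [sq_nonneg (a0 * b1 - a1 * b0), sq_nonneg (a0 * b2 - a2 * b0),
      sq_nonneg (a1 * b2 - a2 * b1)]
  have hB : b0 * b0 + b1 * b1 + b2 * b2 = b3 * b3 - 1 := by linarith
  have hA : a0 * b0 + a1 * b1 + a2 * b2 = a3 * b3 := by linarith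
  rw [hA, hB] at hcs
  have hb3 : 1 ≤ b3 * b3 := by nlinarith [mul_self_nonneg b0, mul_self_nonneg b1, mul_self_nonneg b2]
  have hApos : 0 < a0 * a0 + a1 * a1 + a2 * a2 := by
    rcases lt_or_eq_of_le (show 0 ≤ a0 * a0 + a1 * a1 + a2 * a2 from
      add_nonneg (add_nonneg (mul_self_nonneg a0) (mul_self_nonneg a1)) (mul_self_nonneg a2)) with h | h
    · exact h
    · exfalso
      apply hne
      have h0 : a0 = 0 := by nlinarith [mul_self_nonneg a0, mul_self_nonneg a1, mul_self_nonneg a2]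
      have h1 : a1 = 0 := by nlinarith [mul_self_nonneg a0, mul_self_nonneg a1, mul_self_nonneg a2]
      have h2 : a2 = 0 := by nlinarith [mul_self_nonneg a0, mul_self_nonneg a1, mul_self_nonneg a2]
      have h3 : a3 = 0 := by
        rw [← h] at hcs
        have h4 : (a3 * b3) ^ 2 ≤ 0 := by linarith
        have h5 : a3 * b3 = 0 := by nlinarith [sq_nonneg (a3 * b3)]
        rcases mul_eq_zero.1 h5 with h6 | h6
        · exact h6
        · rw [h6] at hb3; norm_num at hb3
      funext i
      rcases i with _ | i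
      · exact h3
      · fin_cases i
        · exact h0
        · exact h1
        · exact h2
  have h7 : 0 < (a0 * a0 + a1 * a1 + a2 * a2 - a3 * a3) * (b3 * b3) := by nlinarith
  exact (mul_pos_iff_of_pos_right (by linarith)).1 h7

theorem exists_orth (y1 y2 y3 : LV 3) : ∃ x : LV 3, x ≠ 0 ∧ B x y1 = 0 ∧ B x y2 = 0 ∧ B x y3 = 0 := by
  let f : LV 3 →ₗ[ℝ] (Fin 3 → ℝ) := LinearMap.pi ![Bl y1, Bl y2, Bl y3]
  have hk : LinearMap.ker f ≠ ⊥ := LinearMap.ker_ne_bot_of_finrank_lt (by simp)
  obtain ⟨x, hx, hne⟩ := Submodule.exists_mem_ne_zero_of_ne_bot hk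
  have hx' : f x = 0 := hx
  exact ⟨x, hne, congrFun hx' 0, congrFun hx' 1, congrFun hx' 2⟩

theorem exists_unit (t y1 y2 : LV 3) (ht : B t t = -1) :
    ∃ x : LV 3, B x x = 1 ∧ B x t = 0 ∧ B x y1 = 0 ∧ B x y2 = 0 := by
  obtain ⟨x, hne, h1, h2, h3⟩ := exists_orth t y1 y2
  have hp := pos_of_orth t x ht h1 hne
  refine ⟨(1 / Real.sqrt (B x x)) • x, ?_, ?_, ?_, ?_⟩
  · rw [B_smul, B_smulr]
    have h4 : Real.sqrt (B x x) ≠ 0 := (Real.sqrt_pos.2 hp).ne'
    have h5 : Real.sqrt (B x x) * Real.sqrt (B x x) = B x x := Real.mul_self_sqrt hp.le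
    field_simp
    nlinarith
  · rw [B_smul, h1, mul_zero]
  · rw [B_smul, h2, mul_zero]
  · rw [B_smul, h3, mul_zero]

theorem onb (s t : LV 3) (hs : B s s = 1) (ht : B t t = -1) (hst : B s t = 0) :
    ∃ w0 w1 : LV 3, B w0 w0 = 1 ∧ B w1 w1 = 1 ∧ B w0 w1 = 0 ∧ B w0 s = 0 ∧ B w1 s = 0 ∧
      B w0 t = 0 ∧ B w1 t = 0 ∧
      ∀ x, x = B x s • s + (-(B x t)) • t + B x w0 • w0 + B x w1 • w1 := by
  obtain ⟨w0, h00, h0t, h0s, -⟩ := exists_unit t s s ht
  obtain ⟨w1, h11, h1t, h1s, h10⟩ := exists_unit t s w0 ht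
  have h01 : B w0 w1 = 0 := by rw [B_comm]; exact h10
  refine ⟨w0, w1, h00, h11, h01, h0s, h1s, h0t, h1t, ?_⟩
  let f : LV 3 →ₗ[ℝ] (Fin 4 → ℝ) := LinearMap.pi ![Bl s, Bl t, Bl w0, Bl w1]
  have hts : B t s = 0 := by rw [B_comm]; exact hst
  have hs0 : B s w0 = 0 := by rw [B_comm]; exact h0s
  have hs1 : B s w1 = 0 := by rw [B_comm]; exact h1s
  have ht0 : B t w0 = 0 := by rw [B_comm]; exact h0t
  have ht1 : B t w1 = 0 := by rw [B_comm]; exact h1t
  have key : ∀ c0 c1 c2 c3 : ℝ, f (c0 • s + (-c1) • t + c2 • w0 + c3 • w1) = ![c0, c1, c2, c3] := by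
    intro c0 c1 c2 c3
    funext i
    fin_cases i
    · show B (c0 • s + (-c1) • t + c2 • w0 + c3 • w1) s = c0
      simp only [B_add, B_smul, hs, hts, h0s, h1s]; ring
    · show B (c0 • s + (-c1) • t + c2 • w0 + c3 • w1) t = c1
      simp only [B_add, B_smul, hst, ht, h0t, h1t]; ring
    · show B (c0 • s + (-c1) • t + c2 • w0 + c3 • w1) w0 = c2
      simp only [B_add, B_smul, hs0, ht0, h00, h10]; ring
    · show B (c0 • s + (-c1) • t + c2 • w0 + c3 • w1) w1 = c3
      simp only [B_add, B_smul, hs1, ht1, h01, h11]; ring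
  have hsurj : Function.Surjective f := by
    intro c
    refine ⟨c 0 • s + (-(c 1)) • t + c 2 • w0 + c 3 • w1, ?_⟩
    rw [key]
    funext i
    fin_cases i <;> rfl
  have hinj : Function.Injective f :=
    (LinearMap.injective_iff_surjective_of_finrank_eq_finrank (by simp)).2 hsurj
  intro x
  apply hinj
  rw [key]
  funext i
  fin_cases i <;> rfl

theorem inner_two (x y : EuclideanSpace ℝ (Fin 2)) : inner ℝ x y = x 0 * y 0 + x 1 * y 1 := by
  simp [PiLp.inner_apply, Fin.sum_univ_two, mul_comm]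

theorem pair_eval (hPhi : PhiInt) {κ : Type} (u : κ → EuclideanSpace ℝ (Fin 2)) (s : Finset κ)
    (e f : κ) (hef : e ≠ f) (hs : s = {e, f}) (c : ℝ) (h1 : inner ℝ (u e) (u e) = 1)
    (h2 : inner ℝ (u f) (u f) = 1) (h3 : inner ℝ (u e) (u f) = c) (hc1 : -1 < c) (hc2 : c < 1) :
    LinearIndependent ℝ (fun i : s => u i) ∧
    Real.sqrt (GU s u).det * ∫ x in {x : s → ℝ | ∀ i, 0 ≤ x i},
      Real.exp (-Real.pi * ∑ i : s, ∑ k : s, x i * inner ℝ (u i) (u k) * x k) =
      Real.arccos c / (2 * Real.pi) := by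
  have he : e ∈ s := by rw [hs]; simp
  have hf : f ∈ s := by rw [hs]; simp
  have h4 : inner ℝ (u f) (u e) = c := by rw [real_inner_comm]; exact h3
  let g : Fin 2 → s := ![⟨e, he⟩, ⟨f, hf⟩]
  have hg : Function.Bijective g := by
    constructor
    · intro i j hij
      fin_cases i <;> fin_cases j
      · rfl
      · exact absurd (congrArg Subtype.val hij) hef
      · exact absurd (congrArg Subtype.val hij) hef.symm
      · rfl
    · rintro ⟨x, hx⟩
      have hx' := hx
      rw [hs] at hx'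
      rcases Finset.mem_insert.1 hx' with h | h
      · exact ⟨0, Subtype.ext h.symm⟩
      · exact ⟨1, Subtype.ext (Finset.mem_singleton.1 h).symm⟩
  let E : Fin 2 ≃ s := Equiv.ofBijective g hg
  have hE0 : ((E 0 : s) : κ) = e := rfl
  have hE1 : ((E 1 : s) : κ) = f := rfl
  constructor
  · rw [← linearIndependent_equiv E]
    rw [linearIndependent_fin2]
    show u f ≠ 0 ∧ ∀ a : ℝ, a • u f ≠ u e
    constructor
    · intro h
      rw [h, inner_zero_left] at h2
      exact zero_ne_one h2
    · intro a ha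
      rw [← ha, real_inner_smul_left, h2, mul_one] at h3
      rw [← ha, real_inner_smul_left, real_inner_smul_right, h2, h3] at h1
      nlinarith
  · have hdet : (GU s u).det = 1 - c ^ 2 := by
      rw [← Matrix.det_submatrix_equiv_self E (GU s u), Matrix.det_fin_two]
      simp only [Matrix.submatrix_apply, GU, hE0, hE1, h1, h2, h3, h4]
      ring
    rw [hdet, ← hPhi c hc1 hc2]
    congr 1
    have hmp := volume_measurePreserving_piCongrLeft (fun _ : s => ℝ) E
    have hT : ∀ (x : Fin 2 → ℝ) (a : Fin 2),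
        (MeasurableEquiv.piCongrLeft (fun _ : s => ℝ) E) x (E a) = x a := by
      intro x a
      exact Equiv.piCongrLeft_apply_apply (fun _ : s => ℝ) E x a
    rw [← hmp.setIntegral_preimage_emb (MeasurableEquiv.measurableEmbedding _)]
    have hset : (MeasurableEquiv.piCongrLeft (fun _ : s => ℝ) E) ⁻¹' {x : s → ℝ | ∀ i, 0 ≤ x i} =
        {x : Fin 2 → ℝ | ∀ i, 0 ≤ x i} := by
      ext x
      simp only [Set.mem_preimage, Set.mem_ofPred_eq]
      constructor
      · intro h a
        have := h (E a)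
        rwa [hT] at this
      · intro h i
        obtain ⟨a, rfl⟩ := E.surjective i
        rw [hT]
        exact h a
    rw [hset]
    refine integral_congr_ae (Filter.Eventually.of_forall fun x => ?_)
    simp only
    congr 1
    congr 1
    rw [← Equiv.sum_comp E]
    simp_rw [← Equiv.sum_comp E]
    simp only [Fin.sum_univ_two, hT, hE0, hE1, h1, h2, h3, h4]
    ring


theorem t : TaskK8a := by
  intro hTL hPhi hK7 ι κ ε _ _ _ V N X hD v o hvo hF
  set a : ℝ := -B (V v) (X o) with ha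
  have hapos : 0 < a := by
    have := hD.vx v o
    have h2 : B (V v) (X o) < 0 := lt_of_le_of_ne this hvo
    linarith
  have hane : a ≠ 0 := hapos.ne'
  have hVo : B (V v) (X o) = -a := by rw [ha]; ring
  have hoV : B (X o) (V v) = -a := by rw [B_comm]; exact hVo
  set tt : LV 3 := (1 / a) • X o + V v with htt
  have hst : B (V v) tt = 0 := by
    rw [htt, B_addr, B_smulr, hVo, hD.nV]; field_simp; ring
  have htt1 : B tt tt = -1 := by
    rw [htt]
    simp only [B_add, B_addr, B_smul, B_smulr, hD.nV, hD.nX, hVo, hoV]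
    field_simp; ring
  obtain ⟨w0, w1, h00, h11, h01, h0s, h1s, h0t, h1t, hx⟩ := onb (V v) tt (hD.nV v) htt1 hst
  have h10 : B w1 w0 = 0 := by rw [B_comm]; exact h01
  -- products with tt
  have hBt : ∀ x, B x tt = B x (X o) / a + B x (V v) := by
    intro x
    rw [htt, B_addr, B_smulr]; ring
  have h0o : B w0 (X o) = 0 := by
    have := hBt w0
    rw [h0t, h0s, add_zero] at this
    field_simp at this
    linarith
  have h1o : B w1 (X o) = 0 := by
    have := hBt w1
    rw [h1t, h1s, add_zero] at this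
    field_simp at this
    linarith
  have hexp : ∀ x y, B x w0 * B y w0 + B x w1 * B y w1 =
      B x y - B x (V v) * B y (V v) + B x tt * B y tt := by
    intro x y
    have h := congrArg (fun z => B z y) (hx x)
    simp only [B_add, B_smul] at h
    rw [B_comm (V v) y, B_comm tt y, B_comm w0 y, B_comm w1 y] at h
    linarith
  obtain ⟨κ', _, j, hj, hjr⟩ : ∃ (κ' : Type) (_ : Fintype κ') (j : κ' → ε),
      Function.Injective j ∧ ∀ e, B (V v) (X e) = 0 ↔ ∃ k, j k = e :=
    ⟨{e : ε // B (V v) (X e) = 0}, inferInstance, Subtype.val, Subtype.val_injective,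
      fun e => ⟨fun h => ⟨⟨e, h⟩, rfl⟩, fun ⟨k, hk⟩ => hk ▸ k.2⟩⟩
  have hj2 : ∀ k : κ', B (V v) (X (j k)) = 0 := fun k => (hjr _).2 ⟨k, rfl⟩
  have hgpos : ∀ e : κ', 0 < -B (X (j e)) (X o) := by
    intro e
    have hne : j e ≠ o := by
      intro h
      apply hvo
      rw [← h]; exact hj2 e
    have := hD.xx (j e) o hne
    linarith
  let g : κ' → ℝ := fun e => -B (X (j e)) (X o)
  have hg : ∀ e, 0 < g e := hgpos
  have hgX : ∀ e : κ', B (X (j e)) (X o) = -g e := fun e => by simp only [g]; ring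
  have hXV : ∀ e : κ', B (X (j e)) (V v) = 0 := fun e => by rw [B_comm]; exact hj2 e
  have hXt : ∀ e : κ', B (X (j e)) tt = -g e / a := fun e => by rw [hBt, hgX, hXV, add_zero]
  let u : κ' → EuclideanSpace ℝ (Fin 2) := fun e =>
    !₂[a / g e * B (X (j e)) w0, a / g e * B (X (j e)) w1]
  have hu0 : ∀ e, u e 0 = a / g e * B (X (j e)) w0 := fun _ => rfl
  have hu1 : ∀ e, u e 1 = a / g e * B (X (j e)) w1 := fun _ => rfl
  have huu : ∀ e f, inner ℝ (u e) (u f) = 1 + a ^ 2 * B (X (j e)) (X (j f)) / (g e * g f) := by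
    intro e f
    have h1 := hexp (X (j e)) (X (j f))
    rw [hXV, hXt, hXt] at h1
    have he := (hg e).ne'
    have hf := (hg f).ne'
    rw [inner_two, hu0, hu1, hu0, hu1]
    have h2 : a / g e * B (X (j e)) w0 * (a / g f * B (X (j f)) w0) +
        a / g e * B (X (j e)) w1 * (a / g f * B (X (j f)) w1) =
        a / g e * (a / g f) * (B (X (j e)) w0 * B (X (j f)) w0 + B (X (j e)) w1 * B (X (j f)) w1) := by ring
    rw [h2, h1]
    field_simp
    ring
  -- the vector of the Lorentz space belonging to n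
  let nh : EuclideanSpace ℝ (Fin 2) → LV 3 := fun n => n 0 • w0 + n 1 • w1
  have hnu : ∀ n e, inner ℝ n (u e) = a / g e * B (nh n) (X (j e)) := by
    intro n e
    rw [inner_two, hu0, hu1]
    show _ = a / g e * B (n 0 • w0 + n 1 • w1) (X (j e))
    rw [B_add, B_smul, B_smul, B_comm w0, B_comm w1]; ring
  have hnV : ∀ n, B (nh n) (V v) = 0 := by
    intro n
    show B (n 0 • w0 + n 1 • w1) (V v) = 0
    rw [B_add, B_smul, B_smul, h0s, h1s]; ring
  have hnO : ∀ n, B (nh n) (X o) = 0 := by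
    intro n
    show B (n 0 • w0 + n 1 • w1) (X o) = 0
    rw [B_add, B_smul, B_smul, h0o, h1o]; ring
  have hnt : ∀ n, B (nh n) tt = 0 := by
    intro n
    rw [hBt, hnV, hnO]; simp
  have hn0 : ∀ n, B (nh n) w0 = n 0 := by
    intro n
    show B (n 0 • w0 + n 1 • w1) w0 = n 0
    rw [B_add, B_smul, B_smul, h00, h10]; ring
  have hn1 : ∀ n, B (nh n) w1 = n 1 := by
    intro n
    show B (n 0 • w0 + n 1 • w1) w1 = n 1
    rw [B_add, B_smul, B_smul, h01, h11]; ring
  -- facets
  have hbpos : ∀ F, B (V v) (N F) = 0 → 0 < -B (N F) (X o) := by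
    intro F hFv
    have h1 := hD.nx F o
    have h2 := hF F hFv
    have h3 := lt_of_le_of_ne h1 h2
    linarith
  let sF : κ → Finset κ' := fun F => Finset.univ.filter (fun e : κ' => B (N F) (X (j e)) = 0)
  have hmem : ∀ F (e : κ'), e ∈ sF F ↔ B (N F) (X (j e)) = 0 := by
    intro F e
    simp [sF]
  have hpair : ∀ F, B (V v) (N F) = 0 → ∃ e f : κ', e ≠ f ∧ sF F = {e, f} := by
    intro F hFv
    obtain ⟨e, f, hef, h⟩ := hD.fl v F hFv
    have he := (h e).2 (Or.inl rfl)
    have hf := (h f).2 (Or.inr rfl)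
    obtain ⟨e', he'⟩ := (hjr e).1 he.1
    obtain ⟨f', hf'⟩ := (hjr f).1 hf.1
    refine ⟨e', f', fun h => hef (by rw [← he', ← hf', h]), ?_⟩
    ext x
    rw [hmem, Finset.mem_insert, Finset.mem_singleton]
    constructor
    · intro hx
      rcases (h (j x)).1 ⟨hj2 x, hx⟩ with h1 | h1
      · exact Or.inl (hj (h1.trans he'.symm))
      · exact Or.inr (hj (h1.trans hf'.symm))
    · rintro (h1 | h1)
      · rw [h1, he']; exact he.2
      · rw [h1, hf']; exact hf.2
  have hNV : ∀ F, B (V v) (N F) = 0 → B (N F) (V v) = 0 := fun F h => by rw [B_comm]; exact h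
  have heval : ∀ F, B (V v) (N F) = 0 → LinearIndependent ℝ (fun i : sF F => u i) ∧
      Real.sqrt (GU (sF F) u).det * ∫ x in {x : sF F → ℝ | ∀ i, 0 ≤ x i},
        Real.exp (-Real.pi * ∑ i : sF F, ∑ k : sF F, x i * inner ℝ (u i) (u k) * x k) =
        Real.arctan (B (V v) (X o) / B (N F) (X o)) / Real.pi := by
    intro F hFv
    obtain ⟨e, f, hef, hs⟩ := hpair F hFv
    have hb := hbpos F hFv
    set b : ℝ := -B (N F) (X o) with hbdef
    have hNo : B (N F) (X o) = -b := by rw [hbdef]; ring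
    have he : B (N F) (X (j e)) = 0 := by rw [← hmem, hs]; simp
    have hf : B (N F) (X (j f)) = 0 := by rw [← hmem, hs]; simp
    have hef' : j e ≠ j f := fun h => hef (hj h)
    have hpq := hD.xx (j e) (j f) hef'
    have h7 := hK7 (V v) (N F) (X (j e)) (X (j f)) (X o) (hD.nV v) (hD.nN F) hFv (hj2 e) (hj2 f) he hf
      (hD.nX _) (hD.nX _) hpq.ne
    rw [hD.nX, hVo, hNo, hgX, hgX] at h7
    have hge := (hg e).ne'
    have hgf := (hg f).ne'
    have hab : 0 < a ^ 2 + b ^ 2 := by positivity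
    have hef2 : B (X (j e)) (X (j f)) = -(2 * (g e * g f)) / (a ^ 2 + b ^ 2) := by
      rw [eq_div_iff hab.ne']
      nlinarith
    set c : ℝ := (b ^ 2 - a ^ 2) / (b ^ 2 + a ^ 2) with hc
    have h3 : inner ℝ (u e) (u f) = c := by
      rw [huu, hef2, hc]
      field_simp
      ring
    have h1 : inner ℝ (u e) (u e) = 1 := by rw [huu, hD.nX]; simp
    have h2 : inner ℝ (u f) (u f) = 1 := by rw [huu, hD.nX]; simp
    have hba : 0 < b ^ 2 + a ^ 2 := by positivity
    have hc1 : -1 < c := by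
      rw [hc, lt_div_iff₀ hba]; nlinarith [pow_pos hb 2]
    have hc2 : c < 1 := by
      rw [hc, div_lt_one hba]; nlinarith [pow_pos hapos 2]
    obtain ⟨hli, hint⟩ := pair_eval hPhi u (sF F) e f hef hs c h1 h2 h3 hc1 hc2
    refine ⟨hli, ?_⟩
    rw [hint, hVo, hNo, neg_div_neg_eq]
    have harc : Real.arccos c = 2 * Real.arctan (a / b) := by
      have hcos : Real.cos (2 * Real.arctan (a / b)) = c := by
        rw [Real.cos_two_mul, Real.cos_sq_arctan, hc]
        have hbne : b ≠ 0 := hb.ne'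
        field_simp
        ring
      have h0 : 0 ≤ Real.arctan (a / b) := Real.arctan_nonneg.2 (by positivity)
      rw [← hcos, Real.arccos_cos (by linarith)
        (by have := Real.arctan_lt_pi_div_two (a / b); linarith)]
    rw [harc]
    have := Real.pi_pos
    field_simp
  have hinj : ∀ F G, B (V v) (N F) = 0 → B (V v) (N G) = 0 → sF F = sF G → F = G := by
    intro F G hFv hGv hFG
    by_contra hne
    obtain ⟨e, f, hef, hs⟩ := hpair F hFv
    have he : B (N F) (X (j e)) = 0 := by rw [← hmem, hs]; simp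
    have hf : B (N F) (X (j f)) = 0 := by rw [← hmem, hs]; simp
    have he' : B (N G) (X (j e)) = 0 := by rw [← hmem, ← hFG, hs]; simp
    have hf' : B (N G) (X (j f)) = 0 := by rw [← hmem, ← hFG, hs]; simp
    have hef' : j e ≠ j f := fun h => hef (hj h)
    have hsum : ∀ x : ε, B (N F) (X x) = 0 → B (N G) (X x) = 0 →
        ∃ c : ℝ, 0 < c ∧ N F + N G = c • X x := by
      intro x h1 h2
      obtain ⟨i, j, hij, h3, c, hc, h4⟩ := hD.sN x
      refine ⟨c, hc, ?_⟩
      rcases (h3 F).1 h1 with h5 | h5 <;> rcases (h3 G).1 h2 with h6 | h6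
      · exact absurd (h5.trans h6.symm) hne
      · rw [h5, h6]; exact h4
      · rw [h5, h6, add_comm]; exact h4
      · exact absurd (h5.trans h6.symm) hne
    obtain ⟨c, hc, h1⟩ := hsum (j e) he he'
    obtain ⟨c', hc', h2⟩ := hsum (j f) hf hf'
    have h3 : c • X (j e) = c' • X (j f) := h1.symm.trans h2
    have h4 : B (c • X (j e)) (X (j f)) = 0 := by rw [h3, B_smul, hD.nX, mul_zero]
    rw [B_smul] at h4
    have h5 := hD.xx (j e) (j f) hef'
    rcases mul_eq_zero.1 h4 with h6 | h6
    · exact hc.ne' h6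
    · exact h5.ne h6
  -- apply the tiling theorem
  have hmain := hTL κ' 2 (by norm_num) u
    ((Finset.univ.filter (fun F => B (V v) (N F) = 0)).image sF) ?_ ?_ ?_
  · rw [Finset.sum_image] at hmain
    · rw [Finset.sum_congr rfl (fun F hF' => (heval F (Finset.mem_filter.1 hF').2).2),
        ← Finset.sum_div, div_eq_one_iff_eq Real.pi_pos.ne'] at hmain
      exact hmain
    · intro F hF1 G hG1 h
      exact hinj F G (by simpa using hF1) (by simpa using hG1) h
  · -- condition 1
    intro n hn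
    by_contra hcon
    push Not at hcon
    apply hn
    have hle : ∀ e : ε, B (V v) (X e) = 0 → B (nh n) (X e) ≤ 0 := by
      intro e he
      obtain ⟨k, rfl⟩ := (hjr e).1 he
      have h1 := hcon k
      rw [hnu] at h1
      have h2 : 0 < a / g k := div_pos hapos (hg _)
      by_contra h3
      push Not at h3
      have := mul_pos h2 h3
      linarith
    obtain ⟨c, hc0, hc1, hc2⟩ := hD.rV v (nh n) (hnV n) hle
    have h1 : B (nh n) (X o) = ∑ F, c F * B (N F) (X o) := by
      conv_lhs => rw [hc2]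
      rw [B_sum]
    rw [hnO] at h1
    have h2 : ∀ F ∈ Finset.univ, c F * B (N F) (X o) ≤ 0 := fun F _ =>
      mul_nonpos_of_nonneg_of_nonpos (hc0 F) (hD.nx F o)
    have h3 := (Finset.sum_eq_zero_iff_of_nonpos h2).1 h1.symm
    have h4 : ∀ F, c F = 0 := by
      intro F
      by_contra hne
      rcases mul_eq_zero.1 (h3 F (Finset.mem_univ F)) with h5 | h5
      · exact hne h5
      · exact hF F (hc1 F hne) h5
    have h5 : nh n = 0 := by
      rw [hc2]
      exact Finset.sum_eq_zero fun F _ => by rw [h4 F, zero_smul]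
    have hz : ∀ y, B (0 : LV 3) y = 0 := by
      intro y
      have := B_smul 0 (0 : LV 3) y
      simpa using this
    have h6 := hn0 n
    have h7 := hn1 n
    rw [h5, hz] at h6 h7
    ext i
    fin_cases i
    · exact h6.symm
    · exact h7.symm
  · -- condition 2
    intro s hs
    obtain ⟨F, hF1, rfl⟩ := Finset.mem_image.1 hs
    have hFv : B (V v) (N F) = 0 := (Finset.mem_filter.1 hF1).2
    obtain ⟨e, f, hef, hs⟩ := hpair F hFv
    refine ⟨by rw [hs]; exact Finset.card_pair hef, (heval F hFv).1, ?_⟩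
    have hb := hbpos F hFv
    set b : ℝ := -B (N F) (X o) with hbdef
    have hNo : B (N F) (X o) = -b := by rw [hbdef]; ring
    have hval : ∀ k : κ', inner ℝ (!₂[a / b * B (N F) w0, a / b * B (N F) w1] :
        EuclideanSpace ℝ (Fin 2)) (u k) = 1 + a ^ 2 / (b * g k) * B (N F) (X (j k)) := by
      intro k
      have h1 := hexp (N F) (X (j k))
      rw [hXt, hNV F hFv, hBt (N F), hNV F hFv, hNo] at h1
      have hk := (hg k).ne'
      have hbne := hb.ne'
      rw [inner_two, hu0, hu1]
      have h2 : (!₂[a / b * B (N F) w0, a / b * B (N F) w1] : EuclideanSpace ℝ (Fin 2)) 0 *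
          (a / g k * B (X (j k)) w0) +
          (!₂[a / b * B (N F) w0, a / b * B (N F) w1] : EuclideanSpace ℝ (Fin 2)) 1 *
          (a / g k * B (X (j k)) w1) =
          a / b * (a / g k) * (B (N F) w0 * B (X (j k)) w0 + B (N F) w1 * B (X (j k)) w1) := by
        show a / b * B (N F) w0 * (a / g k * B (X (j k)) w0) +
          a / b * B (N F) w1 * (a / g k * B (X (j k)) w1) = _
        ring
      rw [h2, h1]
      field_simp
      ring
    refine ⟨(!₂[a / b * B (N F) w0, a / b * B (N F) w1] : EuclideanSpace ℝ (Fin 2)),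
      fun k => ?_, fun k => ?_⟩
    · rw [hval k]
      have h1 := hD.nx F (j k)
      have h2 : 0 < a ^ 2 / (b * g k) := div_pos (pow_pos hapos 2) (mul_pos hb (hg k))
      nlinarith
    · rw [hval k, hmem]
      have h2 : 0 < a ^ 2 / (b * g k) := div_pos (pow_pos hapos 2) (mul_pos hb (hg k))
      constructor
      · intro h; rw [h]; ring
      · intro h
        have h3 : a ^ 2 / (b * g k) * B (N F) (X (j k)) = 0 := by linarith
        rcases mul_eq_zero.1 h3 with h4 | h4
        · exact absurd h4 h2.ne'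
        · exact h4
  · -- condition 3
    intro n hn _
    set y : LV 3 := tt + nh n with hy
    have hyV : B y (V v) = 0 := by
      rw [hy, B_add, hnV, B_comm tt, hst]; ring
    have htX : ∀ e : κ', B tt (X (j e)) = -g e / a := fun e => by rw [B_comm]; exact hXt e
    have hyX : ∀ e : κ', B y (X (j e)) = g e / a * (inner ℝ n (u e) - 1) := by
      intro e
      have he := (hg e).ne'
      rw [hy, B_add, htX, hnu]
      field_simp
      ring
    have hle : ∀ e : ε, B (V v) (X e) = 0 → B y (X e) ≤ 0 := by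
      intro e he
      obtain ⟨k, rfl⟩ := (hjr e).1 he
      rw [hyX k]
      have h1 := hn k
      have h2 : 0 < g k / a := div_pos (hg _) hapos
      nlinarith
    obtain ⟨c, hc0, hc1, hc2⟩ := hD.rV v y hyV hle
    have hyt : B y tt = -1 := by rw [hy, B_add, hnt, htt1]; ring
    have hex : ∃ F, c F ≠ 0 := by
      by_contra hcon
      push Not at hcon
      have h1 : y = 0 := by
        rw [hc2]
        exact Finset.sum_eq_zero fun F _ => by rw [hcon F, zero_smul]
      have hz : B (0 : LV 3) tt = 0 := by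
        have := B_smul 0 (0 : LV 3) tt
        simpa using this
      rw [h1, hz] at hyt
      norm_num at hyt
    obtain ⟨F, hcF⟩ := hex
    have hFv := hc1 F hcF
    refine ⟨sF F, Finset.mem_image.2 ⟨F, Finset.mem_filter.2 ⟨Finset.mem_univ F, hFv⟩, rfl⟩, ?_⟩
    intro k hk
    rw [hmem]
    have h1 : B y (X (j k)) = ∑ G, c G * B (N G) (X (j k)) := by
      conv_lhs => rw [hc2]
      rw [B_sum]
    rw [hyX, hk, sub_self, mul_zero] at h1
    have h2 : ∀ G ∈ Finset.univ, c G * B (N G) (X (j k)) ≤ 0 := fun G _ =>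
      mul_nonpos_of_nonneg_of_nonpos (hc0 G) (hD.nx G (j k))
    have h3 := (Finset.sum_eq_zero_iff_of_nonpos h2).1 h1.symm F (Finset.mem_univ F)
    rcases mul_eq_zero.1 h3 with h4 | h4
    · exact absurd h4 hcF
    · exact h4

end Pool.Agent.H242R3.ES.K8a
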