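import Pool.Agent.H242R3.ES.Stmts

/-! Task PM of project H242-ES: the link of an edge is a closed pseudomanifold. -/

set_option autoImplicit false
set_option maxHeartbeats 4000000

open Finset
open scoped Classical

namespace Pool.Agent.H242R3.ES.PMH492

theorem finrank_LV (D : ℕ) : Module.finrank ℝ (LV D) = D + 1 := by
  simp [LV]

theorem sc_of_sp {D : ℕ} {ι : Type} [Fintype ι] {V : ι → LV D} (h : SP D V) : SC V :=
  ⟨h.vert, h.span, h.simp⟩

theorem mem_LK {D : ℕ} {ι : Type} [Fintype ι] {V : ι → LV D} {v j : ι} {s : Finset ι} :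
    s ∈ LK V v j ↔ (v ∉ s ∧ j ∉ s ∧ s.card + 2 = D ∧
      Face V (insert v (insert j (s : Set ι))) ∧ insert v (insert j (s : Set ι)) ≠ Set.univ) := by
  unfold LK
  simp only [Finset.mem_filter, Finset.mem_univ, true_and]

/-- the facet over `s` -/
noncomputable def up {ι : Type} (v j : ι) (s : Finset ι) : Finset ι := insert v (insert j s)

theorem coe_up {ι : Type} (v j : ι) (s : Finset ι) :
    ((up v j s : Finset ι) : Set ι) = insert v (insert j (s : Set ι)) := by
  unfold up
  rw [Finset.coe_insert, Finset.coe_insert]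

theorem card_up {ι : Type} {v j : ι} {s : Finset ι} (hvj : j ≠ v) (hv : v ∉ s) (hj : j ∉ s) :
    (up v j s).card = s.card + 2 := by
  unfold up
  rw [Finset.card_insert_of_notMem, Finset.card_insert_of_notMem hj]
  rw [Finset.mem_insert]
  rintro (h | h)
  · exact hvj h.symm
  · exact hv h

theorem down_up {ι : Type} {v j : ι} {s : Finset ι} (hv : v ∉ s) (hj : j ∉ s) :
    ((up v j s).erase v).erase j = s := by
  ext x
  simp only [up, Finset.mem_erase, Finset.mem_insert]
  constructor
  · rintro ⟨h1, h2, h3 | h3 | h3⟩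
    · exact absurd h3 h2
    · exact absurd h3 h1
    · exact h3
  · intro h
    exact ⟨fun h1 => hj (h1 ▸ h), fun h1 => hv (h1 ▸ h), Or.inr (Or.inr h)⟩

theorem up_down {ι : Type} {v j : ι} {S : Finset ι} (hv : v ∈ S) (hj : j ∈ S) :
    up v j ((S.erase v).erase j) = S := by
  ext x
  simp only [up, Finset.mem_erase, Finset.mem_insert]
  constructor
  · rintro (h | h | ⟨_, _, h⟩)
    · exact h ▸ hv
    · exact h ▸ hj
    · exact h
  · intro h
    by_cases h1 : x = v
    · exact Or.inl h1
    by_cases h2 : x = j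
    · exact Or.inr (Or.inl h2)
    exact Or.inr (Or.inr ⟨h2, h1, h⟩)

theorem t : TaskPM := by
  intro hC1 hC4 D hD ι _ V hSP v j hj
  have hSC : SC V := sc_of_sp hSP
  have hjv : j ≠ v := hj.1
  refine ⟨?_, ?_⟩
  · intro s hs
    have := (mem_LK.mp hs).2.2.1
    omega
  · intro s hs i hi
    obtain ⟨hvs, hjs, hcard, hface, huniv⟩ := mem_LK.mp hs
    have hcS : (up v j s).card = s.card + 2 := card_up hjv hvs hjs
    have hiv : v ≠ i := fun h => hvs (h ▸ hi)
    have hij : j ≠ i := fun h => hjs (h ▸ hi)
    have hiS : i ∈ up v j s := by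
      unfold up
      exact Finset.mem_insert_of_mem (Finset.mem_insert_of_mem hi)
    obtain ⟨S', ⟨⟨⟨h1, h2, h3⟩, h4, h5⟩, huniq⟩⟩ := hC4 ι (LV D) V hSC (up v j s)
      (by rw [coe_up]; exact hface) (by rw [coe_up]; exact huniv)
      (by rw [finrank_LV]; omega) i hiS (by omega)
    have hvS' : v ∈ S' := h5 (by
      rw [Finset.mem_erase]
      exact ⟨hiv, by unfold up; exact Finset.mem_insert_self _ _⟩)
    have hjS' : j ∈ S' := h5 (by
      rw [Finset.mem_erase]
      exact ⟨hij, by unfold up; exact Finset.mem_insert_of_mem (Finset.mem_insert_self _ _)⟩)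
    have hud : up v j ((S'.erase v).erase j) = S' := up_down hvS' hjS'
    have hv' : v ∉ (S'.erase v).erase j := by
      intro h
      exact (Finset.mem_erase.mp (Finset.mem_erase.mp h).2).1 rfl
    have hj' : j ∉ (S'.erase v).erase j := by
      intro h
      exact (Finset.mem_erase.mp h).1 rfl
    have hc' : ((S'.erase v).erase j).card + 2 = D := by
      rw [← card_up hjv hv' hj', hud, h3, hcS, hcard]
    refine ⟨(S'.erase v).erase j, ⟨mem_LK.mpr ⟨hv', hj', hc', ?_, ?_⟩, ?_, ?_⟩, ?_⟩
    · rw [← coe_up, hud]; exact h1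
    · rw [← coe_up, hud]; exact h2
    · intro h
      apply h4
      rw [← hud, h]
    · intro x hx
      have hx1 : x ≠ i := (Finset.mem_erase.mp hx).1
      have hx2 : x ∈ s := (Finset.mem_erase.mp hx).2
      have hxS : x ∈ S' := h5 (by
        rw [Finset.mem_erase]
        exact ⟨hx1, by unfold up; exact Finset.mem_insert_of_mem (Finset.mem_insert_of_mem hx2)⟩)
      exact Finset.mem_erase.mpr ⟨fun h => hjs (h ▸ hx2),
        Finset.mem_erase.mpr ⟨fun h => hvs (h ▸ hx2), hxS⟩⟩
    · rintro t' ⟨ht1, ht2, ht3⟩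
      obtain ⟨hvt, hjt, hct, hft, hut⟩ := mem_LK.mp ht1
      have hT : up v j t' = S' := by
        apply huniq
        refine ⟨⟨by rw [coe_up]; exact hft, by rw [coe_up]; exact hut, ?_⟩, ?_, ?_⟩
        · rw [card_up hjv hvt hjt, hcS]; omega
        · intro h
          apply ht2
          rw [← down_up hvt hjt, h, down_up hvs hjs]
        · intro x hx
          have hx1 : x ≠ i := (Finset.mem_erase.mp hx).1
          have hx2 : x ∈ up v j s := (Finset.mem_erase.mp hx).2
          unfold up at hx2 ⊢
          rcases Finset.mem_insert.mp hx2 with h | h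
          · rw [h]; exact Finset.mem_insert_self _ _
          rcases Finset.mem_insert.mp h with h | h
          · rw [h]; exact Finset.mem_insert_of_mem (Finset.mem_insert_self _ _)
          · exact Finset.mem_insert_of_mem (Finset.mem_insert_of_mem
              (ht3 (Finset.mem_erase.mpr ⟨hx1, h⟩)))
      rw [← hT, down_up hvt hjt]

end Pool.Agent.H242R3.ES.PMH492
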